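import Pool.Agent.N809.SN.Nt

/-!
# Primes with given symbols, and the pairs of twists
-/

set_option autoImplicit false

open Finset

namespace Pool.Agent.N809.SN

open Pool.Agent.N875.X15
open Pool.Agent.N875.P17

/-- a residue with a given symbol -/
theorem res_ex {p : ℕ} (hp : p.Prime) (hp2 : p ≠ 2) (c : ZMod 2) :
    ∃ s : ℕ, ra p (-(s : ℤ)) = c ∧ ¬ p ∣ s := by
  have := Fact.mk hp
  rcases z2 c with rfl | rfl
  · refine ⟨p - 1, ?_, fun h => ?_⟩
    · unfold ra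
      rw [ch_odd hp2]
      have h1 : jacobiSym (-((p - 1 : ℕ) : ℤ)) p = jacobiSym 1 p := by
        apply jacobiSym.mod_left'
        have h2 : (-((p - 1 : ℕ) : ℤ)) = 1 - p := by
          have := hp.one_le
          push_cast [Nat.cast_sub this]
          ring
        rw [h2, Int.sub_emod_right]
      rw [h1, jacobiSym.one_left, if_pos rfl]
    · have h1 := Nat.le_of_dvd (by have := hp.two_le; omega) h
      have := hp.one_le
      omega
  · obtain ⟨g, hg⟩ := FiniteField.exists_nonsquare (F := ZMod p) (by rw [ZMod.ringChar_zmod_n]; exact hp2)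
    have hg0 : g ≠ 0 := by
      rintro rfl
      exact hg ⟨0, by ring⟩
    refine ⟨(-g).val, ?_, fun h => ?_⟩
    · unfold ra
      rw [ch_odd hp2, ← jacobiSym.legendreSym.to_jacobiSym, if_neg]
      intro h1
      have h2 : ((-(((-g).val : ℕ) : ℤ) : ℤ) : ZMod p) = g := by
        push_cast
        rw [ZMod.natCast_zmod_val, neg_neg]
      have h3 := (legendreSym.eq_one_iff p (a := -(((-g).val : ℕ) : ℤ)) (by rw [h2]; exact hg0)).1 h1
      rw [h2] at h3
      exact hg h3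
    · have h1 : (((-g).val : ℕ) : ZMod p) = 0 := (ZMod.natCast_eq_zero_iff _ _).2 h
      rw [ZMod.natCast_zmod_val, neg_eq_zero] at h1
      exact hg0 h1

lemma ra_mod {q : ℕ} (hq : q ≠ 2) {a b : ℤ} (h : a % q = b % q) : ra q a = ra q b := by
  unfold ra
  rw [ch_odd hq, ch_odd hq, jacobiSym.mod_left' h]

/-- residues with given symbols -/
theorem crt (r : ℕ) (c : ℕ → ZMod 2) (M : Finset ℕ)
    (hM : ∀ p ∈ M, p.Prime ∧ p ≠ 2) :
    ∃ t : ℕ, t % 8 = r % 8 ∧ ∀ p ∈ M, ra p (-(t : ℤ)) = c p ∧ ¬ p ∣ t := by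
  classical
  induction M using Finset.induction_on with
  | empty => exact ⟨r, rfl, fun p hp => absurd hp (notMem_empty p)⟩
  | insert p M hp ih =>
    obtain ⟨t, h1, h2⟩ := ih fun q hq => hM q (mem_insert_of_mem hq)
    obtain ⟨hpp, hp2⟩ := hM p (mem_insert_self _ _)
    obtain ⟨s, h3, h4⟩ := res_ex hpp hp2 (c p)
    have hcop : Nat.Coprime (8 * ∏ q ∈ M, q) p := by
      refine Nat.Coprime.mul_left ?_ ?_
      · have : (8 : ℕ) = 2 ^ 3 := by norm_num
        rw [this]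
        exact Nat.Coprime.pow_left 3 ((Nat.coprime_primes Nat.prime_two hpp).2 hp2.symm)
      · refine Nat.Coprime.prod_left fun q hq => ?_
        refine (Nat.coprime_primes (hM q (mem_insert_of_mem hq)).1 hpp).2 ?_
        rintro rfl
        exact hp hq
    obtain ⟨k, hk1, hk2⟩ := Nat.chineseRemainder hcop t s
    refine ⟨k, ?_, fun q hq => ?_⟩
    · rw [← h1]
      exact hk1.of_mul_right _
    · rcases mem_insert.1 hq with rfl | hq
      · constructor
        · rw [← h3]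
          apply ra_mod hp2
          have h5 : (k : ℤ) ≡ s [ZMOD q] := Int.natCast_modEq_iff.2 hk2
          exact h5.neg
        · intro h5
          exact h4 ((Nat.ModEq.dvd_iff hk2 (dvd_refl q)).1 h5)
      · have h6 : k ≡ t [MOD q] := (hk1.of_mul_left 8).of_dvd (dvd_prod_of_mem _ hq)
        constructor
        · rw [← (h2 q hq).1]
          apply ra_mod (hM q (mem_insert_of_mem (by assumption))).2
          exact (Int.natCast_modEq_iff.2 h6).neg
        · intro h5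
          exact (h2 q hq).2 ((Nat.ModEq.dvd_iff h6 (dvd_refl q)).1 h5)

/-- **residue classes with given symbols** -/
theorem class_ex (c : ℕ → ZMod 2) (M : Finset ℕ) (hM : ∀ p ∈ M, p.Prime) :
    ∃ t : ℕ, t % 4 = 3 ∧ (∀ p ∈ M, ¬ p ∣ t) ∧ ∀ l : ℕ, l ≡ t [MOD 8 * ∏ q ∈ M.erase 2, q] →
      l % 4 = 3 ∧ ∀ p ∈ M, ra p (-(l : ℤ)) = c p := by
  classical
  obtain ⟨r, hr1, hr2⟩ : ∃ r : ℕ, (r % 8 = 3 ∨ r % 8 = 7) ∧
      ∀ l : ℕ, l % 8 = r % 8 → ra 2 (-(l : ℤ)) = c 2 := by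
    rcases z2 (c 2) with h | h
    · refine ⟨7, Or.inr rfl, fun l hl => ?_⟩
      rw [h]
      unfold ra
      rw [ch_two, if_pos (show (-(l : ℤ)) % 8 = 1 by omega), if_pos rfl]
    · refine ⟨3, Or.inl rfl, fun l hl => ?_⟩
      rw [h]
      unfold ra
      rw [ch_two, if_neg (show ¬ (-(l : ℤ)) % 8 = 1 by omega), if_neg (by norm_num)]
  obtain ⟨t, ht1, ht2⟩ := crt r c (M.erase 2) fun p hp =>
    ⟨hM p (mem_of_mem_erase hp), ne_of_mem_erase hp⟩
  refine ⟨t, by omega, fun p hp h => ?_, fun l hmod => ?_⟩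
  · by_cases hp2 : p = 2
    · rw [hp2] at h
      omega
    · exact (ht2 p (mem_erase.2 ⟨hp2, hp⟩)).2 h
  · have h8 : l % 8 = r % 8 := by
      have h1 : l ≡ t [MOD 8] := hmod.of_dvd (dvd_mul_right _ _)
      have h2 : l % 8 = t % 8 := h1
      rw [h2, ht1]
    refine ⟨by omega, fun p hp => ?_⟩
    by_cases hp2 : p = 2
    · rw [hp2]
      exact hr2 l h8
    · have hpM : p ∈ M.erase 2 := mem_erase.2 ⟨hp2, hp⟩
      rw [← (ht2 p hpM).1]
      apply ra_mod hp2
      have h6 : l ≡ t [MOD p] := hmod.of_dvd ((dvd_prod_of_mem _ hpM).mul_left 8)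
      exact (Int.natCast_modEq_iff.2 h6).neg

/-- **primes with given symbols** -/
theorem prime_ex (c : ℕ → ZMod 2) (M : Finset ℕ) (hM : ∀ p ∈ M, p.Prime) (B : ℕ) :
    ∃ l : ℕ, l.Prime ∧ B < l ∧ l % 4 = 3 ∧ ∀ p ∈ M, ra p (-(l : ℤ)) = c p := by
  classical
  obtain ⟨t, h1, h2, h3⟩ := class_ex c M hM
  set N : ℕ := 8 * ∏ q ∈ M.erase 2, q with hN
  have hN0 : N ≠ 0 := mul_ne_zero (by norm_num)
    (prod_ne_zero_iff.2 fun q hq => (hM q (mem_of_mem_erase hq)).ne_zero)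
  have hcop : Nat.Coprime t N := by
    refine Nat.Coprime.mul_right ?_ ?_
    · have : (8 : ℕ) = 2 ^ 3 := by norm_num
      rw [this]
      exact Nat.Coprime.pow_right 3 (Nat.coprime_two_right.2 (Nat.odd_iff.2 (by omega)))
    · exact Nat.Coprime.prod_right fun q hq =>
        (((hM q (mem_of_mem_erase hq)).coprime_iff_not_dvd).2 (h2 q (mem_of_mem_erase hq))).symm
  have : NeZero N := ⟨hN0⟩
  have hunit : IsUnit (t : ZMod N) := (ZMod.isUnit_iff_coprime t N).2 hcop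
  obtain ⟨l, hl1, hl2, hl3⟩ := Nat.forall_exists_prime_gt_and_eq_mod hunit B
  have hmod : l ≡ t [MOD N] := (ZMod.natCast_eq_natCast_iff _ _ _).1 hl3
  exact ⟨l, hl2, hl1, h3 l hmod⟩

/-- the symbol of `17` -/
theorem ra_l17 {l : ℕ} (hl : l.Prime) (h4 : l % 4 = 3) : ra l 17 = ra 17 (-(l : ℤ)) := by
  have h1 : sgp l = -(l : ℤ) := sgl hl h4
  have h2 := recip_ch (p := 17) (by norm_num) hl (by omega : l ≠ 2)
  rw [h1] at h2
  exact jac_ra (by omega) h2.symm

/-- **the residue class of the primes** -/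
theorem main_ex {n : ℤ} (hs : Squarefree n) (hn : 0 < n)
    (h : 17 ∈ PR n ∨ (17 ∉ PR n ∧ ∑ p ∈ PR n, nn p = 0)) {W : ℕ} (h17 : 17 ∣ W)
    (hW : ∀ p : ℕ, p.Prime → (p : ℤ) ∣ n → p ∣ W)
    (hW' : ∀ p : ℕ, p.Prime → p ∣ W → p = 17 ∨ (p : ℤ) ∣ n) :
    ∃ t : ℕ, Nat.Coprime t (8 * W) ∧ ∀ l : ℕ, l.Prime → l ≡ t [MOD 8 * W] →
      l % 4 = 3 ∧ ra l 17 = 1 ∧ ¬ (l : ℤ) ∣ n ∧ Sg (-(l : ℤ) * n) := by
  classical
  obtain ⟨c, hc17, hc⟩ : ∃ c : ℕ → ZMod 2, (17 ∈ PR n → c 17 = 1) ∧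
      NSys (PR n) (aa n) nn (al n) (ww n) c := by
    rcases h with h | ⟨h, h0⟩
    · obtain ⟨c, h1, h2⟩ := exB (dat hs hn) h
      exact ⟨c, fun _ => h1, h2⟩
    · obtain ⟨c, h2⟩ := exA (dat hs hn) h h0
      exact ⟨c, fun h3 => absurd h3 h, h2⟩
  have hM : ∀ p ∈ insert 17 (PR n), p.Prime := fun p hp => (mem_insert.1 hp).elim
    (fun h => by rw [h]; norm_num) fun h => PR_prime hs.ne_zero h
  have hPRd : ∀ p ∈ PR n, p ≠ 2 → (p : ℤ) ∣ n := fun p hp hp2 => by
    rcases ((mem_PR hs.ne_zero).1 hp).2 with h1 | h1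
    · exact h1
    · exact absurd h1.1 hp2
  obtain ⟨t, h1, h2, h3⟩ := class_ex (fun p => if p = 17 then 1 else c p) (insert 17 (PR n)) hM
  have hdvd : (8 * ∏ q ∈ (insert 17 (PR n)).erase 2, q) ∣ 8 * W := by
    refine Nat.mul_dvd_mul_left 8 ?_
    refine Finset.prod_primes_dvd W (fun p hp => (hM p (mem_of_mem_erase hp)).prime) fun p hp => ?_
    rcases mem_insert.1 (mem_of_mem_erase hp) with h4 | h4
    · rw [h4]
      exact h17
    · exact hW p (PR_prime hs.ne_zero h4) (hPRd p h4 (ne_of_mem_erase hp))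
  have hcop : Nat.Coprime t (8 * W) := by
    refine Nat.Coprime.mul_right ?_ ?_
    · have : (8 : ℕ) = 2 ^ 3 := by norm_num
      rw [this]
      exact Nat.Coprime.pow_right 3 (Nat.coprime_two_right.2 (Nat.odd_iff.2 (by omega)))
    · refine Nat.coprime_of_dvd fun p hp h4 h5 => ?_
      rcases hW' p hp h5 with h6 | h6
      · exact h2 17 (mem_insert_self _ _) (h6 ▸ h4)
      · exact h2 p (mem_insert_of_mem ((mem_PR hs.ne_zero).2 ⟨hp, Or.inl h6⟩)) h4
  refine ⟨t, hcop, fun l hl hmod => ?_⟩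
  obtain ⟨h4, h5⟩ := h3 l (hmod.of_dvd hdvd)
  have hnu : ra l 17 = 1 := by
    rw [ra_l17 hl h4, h5 17 (mem_insert_self _ _), if_pos rfl]
  have hln : ¬ (l : ℤ) ∣ n := fun hd => by
    have h6 : l ∣ 8 * W := (hW l hl hd).mul_left 8
    have h7 : l ∣ t := (Nat.ModEq.dvd_iff hmod h6).1 (dvd_refl l)
    have h8 := Nat.dvd_gcd h7 h6
    rw [hcop] at h8
    exact hl.one_lt.ne' (Nat.dvd_one.1 h8)
  refine ⟨h4, hnu, hln, sg_of hs hl h4 hln hnu (fun p hp => ?_) hc⟩
  rw [h5 p (mem_insert_of_mem hp)]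
  split_ifs with hp17
  · rw [hp17] at hp ⊢
    exact (hc17 hp).symm
  · rfl

/-- Dirichlet's theorem -/
theorem dir {t N : ℕ} (hN : N ≠ 0) (h : Nat.Coprime t N) (B : ℕ) :
    ∃ l : ℕ, l.Prime ∧ B < l ∧ l ≡ t [MOD N] := by
  have : NeZero N := ⟨hN⟩
  have hunit : IsUnit (t : ZMod N) := (ZMod.isUnit_iff_coprime t N).2 h
  obtain ⟨l, hl1, hl2, hl3⟩ := Nat.forall_exists_prime_gt_and_eq_mod hunit B
  exact ⟨l, hl2, hl1, (ZMod.natCast_eq_natCast_iff _ _ _).1 hl3⟩

/-- the twist by `-l` -/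
theorem sg_one {l : ℕ} (hl : l.Prime) (h4 : l % 4 = 3) (hnu : ra l 17 = 1) : Sg (-(l : ℤ)) := by
  have hP : PR 1 = ∅ := by
    unfold PR
    rw [if_pos (by norm_num)]
    simp
  have h := sg_of (n := 1) squarefree_one hl h4
    (fun h => by
      have h2 : l ∣ 1 := by exact_mod_cast h
      exact hl.one_lt.ne' (Nat.dvd_one.1 h2)) hnu (c := fun _ => 0)
    (fun p hp => by rw [hP] at hp; exact absurd hp (notMem_empty p)) (by
      rw [hP]
      intro x y u v _ _ h2 _ h4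
      simp only [sum_empty, zero_mul, add_zero, zero_add] at h2 h4
      exact ⟨fun p hp => absurd hp (notMem_empty p), h2, h4⟩)
  rwa [mul_one] at h

/-- the twist by `-17 l` -/
theorem sg_17 {l : ℕ} (hl : l.Prime) (h4 : l % 4 = 3) (hnu : ra l 17 = 1) : Sg (-(l : ℤ) * 17) := by
  have hs : Squarefree (17 : ℤ) := by
    have : Prime (17 : ℤ) := Int.prime_iff_natAbs_prime.2 (by norm_num)
    exact this.squarefree
  have hP : PR 17 = {17} := by
    unfold PR
    rw [if_pos (by norm_num)]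
    exact Nat.Prime.primeFactors (by norm_num)
  refine sg_of (n := 17) hs hl h4 (fun h => ?_) hnu (c := fun _ => 1)
    (fun p hp => ?_) ?_
  · have h2 : l ∣ 17 := by exact_mod_cast h
    have := (Nat.prime_dvd_prime_iff_eq hl (by norm_num)).1 h2
    omega
  · rw [hP, mem_singleton] at hp
    rw [hp, ← ra_l17 hl h4, hnu]
  · rw [hP]
    intro x y u v hx h1 h2 h3 h4
    have ha : al 17 17 = 0 := by
      unfold al
      rw [ps_odd (by norm_num), sgp17]
      rfl
    have hw : ww 17 17 = 1 := by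
      unfold ww
      rw [if_neg (by rintro ⟨h, -⟩; norm_num at h)]
    have h5 := h3 17 (mem_singleton_self _)
    simp only [sum_singleton, ha, hw, hx] at h2 h4 h5
    have hu : u = 0 := by linear_combination h5
    have hv : v = 0 := by
      rw [hu] at h4
      linear_combination h4
    refine ⟨fun p hp => ?_, hu, hv⟩
    rw [mem_singleton] at hp
    rw [hp]
    refine ⟨hx, ?_⟩
    rw [hu, hv] at h2
    linear_combination h2

/-- the twist by `l l'` -/
theorem sg_two {l k : ℕ} (hl : l.Prime) (h4 : l % 4 = 3) (hnu : ra l 17 = 1)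
    (hk : k.Prime) (k4 : k % 4 = 3) (knu : ra k 17 = 1) (hkl : l ≠ k) :
    Sg (-(l : ℤ) * -(k : ℤ)) := by
  have hs : Squarefree (-(k : ℤ)) := by
    rw [← Int.squarefree_natAbs, Int.natAbs_neg, Int.natAbs_natCast]
    exact hk.squarefree
  have hP : PR (-(k : ℤ)) = {k} := by
    unfold PR
    rw [if_pos (by omega), Int.natAbs_neg, Int.natAbs_natCast]
    exact hk.primeFactors
  refine sg_of (n := -(k : ℤ)) hs hl h4 (fun h => ?_) hnu (c := fun _ => ra k (-(l : ℤ)))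
    (fun p hp => ?_) ?_
  · rw [dvd_neg] at h
    exact hkl ((Nat.prime_dvd_prime_iff_eq hl hk).1 (by exact_mod_cast h))
  · rw [hP, mem_singleton] at hp
    rw [hp]
  · rw [hP]
    intro x y u v hx h1 h2 h3 h4'
    have ha : al (-(k : ℤ)) k = 1 := by
      unfold al
      rw [ps_odd (by omega), sgl hk k4]
      exact if_pos (by have := hk.pos; omega)
    have hw : ww (-(k : ℤ)) k = 1 := by
      unfold ww
      rw [if_neg (by rintro ⟨h, -⟩; omega)]
    have h6 := h1 k (mem_singleton_self _) (by omega)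
    have h5 := h3 k (mem_singleton_self _)
    have hL : Lc {k} (aa (-(k : ℤ))) (fun _ => ra k (-(l : ℤ))) k k = ra k (-(l : ℤ)) := by
      unfold Lc
      rw [if_pos rfl]
      have : ({k} : Finset ℕ).erase k = ∅ := by simp
      rw [this, sum_empty, zero_add]
    have hn : nn k = 1 := knu
    simp only [sum_singleton, ha, hw, hL, hn] at h2 h4' h5 h6
    have key : ∀ c X Y u v : ZMod 2, 1 * X + (c * Y + c * v) = 0 →
        u + ((1 * c + 1) * Y + (1 * c + 1) * v) = 0 → c * X + (1 * c + 1) * u + 1 * Y = 0 →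
        c * X + (1 * c + 1) * u + v = 0 → X = 0 ∧ Y = 0 ∧ u = 0 ∧ v = 0 := by decide
    obtain ⟨k1, k2, k3, k4⟩ := key (ra k (-(l : ℤ))) (x k) (y k) u v h6 h2 h5 h4'
    refine ⟨fun p hp => ?_, k3, k4⟩
    rw [mem_singleton] at hp
    rw [hp]
    exact ⟨k1, k2⟩

end Pool.Agent.N809.SN
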