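import Pool.Agent.N809.SN.Sys

/-!
# The couplings exist
-/

set_option autoImplicit false

open Finset

namespace Pool.Agent.N809.SN

variable {P : Finset ℕ} {a : ℕ → ℕ → ZMod 2} {nu al w : ℕ → ZMod 2}

/-- the unit vectors -/
def eX (p : ℕ) : V := (fun q => if q = p then 1 else 0, fun _ => 0, 0, 0)

/-- the unit vectors -/
def eY (p : ℕ) : V := (fun _ => 0, fun q => if q = p then 1 else 0, 0, 0)

/-- the vector of the `y` -/
def eV : V := (fun _ => 0, fun _ => 1, 0, 1)

/-- the vector of the `x` -/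
def eU (w : ℕ → ZMod 2) : V := (fun p => if p = 17 then 0 else w p, fun _ => 0, 1, 0)

theorem B_eV (z : V) :
    B0 P a nu al z eV = ∑ q ∈ P, al q * z.2.1 q + z.2.2.2 := by
  unfold B0 eV
  dsimp only
  have e1 : ∑ p ∈ P, nu p * (z.1 p * 0) = 0 := sum_eq_zero fun p _ => by ring
  have e2 : ∑ p ∈ P, ∑ q ∈ P.erase p, a p q * (0 * (z.2.1 q + z.2.1 p) + z.1 p * (1 + 1)) = 0 :=
    sum_eq_zero fun p _ => sum_eq_zero fun q _ => by
      rw [show (1 + 1 : ZMod 2) = 0 from rfl]; ring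
  have e3 : ∑ q ∈ P, al q * (0 * (z.2.1 q + z.2.2.2) + z.2.2.1 * (1 + 1)) = 0 :=
    sum_eq_zero fun p _ => by rw [show (1 + 1 : ZMod 2) = 0 from rfl]; ring
  have e4 : ∑ q ∈ P, al q * (z.2.1 q * 1) = ∑ q ∈ P, al q * z.2.1 q :=
    sum_congr rfl fun p _ => by ring
  rw [e1, e2, e3, e4]
  ring

/-- the column sums -/
theorem colsum (hD : Dat P a nu al w) (y : ℕ → ZMod 2) :
    ∑ p ∈ P, ∑ q ∈ P.erase p, a p q * (w p * (y q + y p)) = ∑ q ∈ P, al q * y q := by
  have e1 : ∑ p ∈ P, ∑ q ∈ P.erase p, a p q * (w p * (y q + y p)) =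
      ∑ p ∈ P, ∑ q ∈ P.erase p, w p * a p q * y q +
      ∑ p ∈ P, ∑ q ∈ P.erase p, w p * a p q * y p := by
    rw [← sum_add_distrib]
    refine sum_congr rfl fun p _ => ?_
    rw [← sum_add_distrib]
    exact sum_congr rfl fun q _ => by ring
  rw [e1, swap fun p q => w p * a p q * y q, ← sum_add_distrib]
  refine sum_congr rfl fun q hq => ?_
  rw [← hD.h1 q hq, sum_mul, ← sum_add_distrib]
  exact sum_congr rfl fun p _ => by ring

theorem B_eU_of_not (hD : Dat P a nu al w) (h17 : 17 ∉ P) (z : V) :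
    B0 P a nu al z (eU w) = ∑ p ∈ P, nu p * z.1 p + z.2.2.1 := by
  have hw : ∀ p ∈ P, (eU w).1 p = w p := fun p hp => by
    unfold eU
    dsimp only
    rw [if_neg (by rintro rfl; exact h17 hp)]
  unfold B0
  have e1 : ∑ p ∈ P, nu p * (z.1 p * (eU w).1 p) = ∑ p ∈ P, nu p * z.1 p :=
    sum_congr rfl fun p hp => by
      rw [hw p hp]
      have := hD.h3 p hp
      linear_combination z.1 p * this
  have e2 : ∑ p ∈ P, ∑ q ∈ P.erase p, a p q * ((eU w).1 p * (z.2.1 q + z.2.1 p) +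
      z.1 p * ((eU w).2.1 q + (eU w).2.1 p)) = ∑ q ∈ P, al q * z.2.1 q := by
    rw [← colsum hD]
    refine sum_congr rfl fun p hp => sum_congr rfl fun q _ => ?_
    rw [hw p hp]
    simp only [eU]
    ring
  have e3 : ∑ q ∈ P, al q * ((eU w).2.2.1 * (z.2.1 q + z.2.2.2) + z.2.2.1 * ((eU w).2.1 q +
      (eU w).2.2.2)) = ∑ q ∈ P, al q * z.2.1 q := by
    have : ∑ q ∈ P, al q * ((eU w).2.2.1 * (z.2.1 q + z.2.2.2) + z.2.2.1 * ((eU w).2.1 q +
      (eU w).2.2.2)) = ∑ q ∈ P, al q * z.2.1 q + (∑ q ∈ P, al q) * z.2.2.2 := by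
      rw [sum_mul, ← sum_add_distrib]
      refine sum_congr rfl fun p _ => ?_
      simp only [eU]
      ring
    rw [this, hD.h2]
    ring
  have e4 : ∑ q ∈ P, al q * (z.2.1 q * (eU w).2.1 q) = 0 :=
    sum_eq_zero fun q _ => by simp only [eU]; ring
  rw [e1, e2, e3, e4]
  simp only [eU]
  have := zadd (∑ q ∈ P, al q * z.2.1 q)
  linear_combination this

theorem B_eU (hD : Dat P a nu al w) (h17 : 17 ∈ P) (z : V) :
    B0 P a nu al z (eU w) = ∑ p ∈ P.erase 17, nu p * (z.1 p + z.2.1 p) + z.2.2.1 +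
      (∑ p ∈ P.erase 17, nu p) * z.2.1 17 := by
  unfold B0
  have e1 : ∑ p ∈ P, nu p * (z.1 p * (eU w).1 p) = ∑ p ∈ P.erase 17, nu p * z.1 p := by
    rw [← add_sum_erase _ _ h17]
    have k1 : (eU w).1 17 = 0 := by
      unfold eU
      dsimp only
      rw [if_pos rfl]
    rw [k1, mul_zero, mul_zero, zero_add]
    refine sum_congr rfl fun p hp => ?_
    have k2 : (eU w).1 p = w p := by
      unfold eU
      dsimp only
      rw [if_neg (ne_of_mem_erase hp)]
    rw [k2]
    have := hD.h3 p (mem_of_mem_erase hp)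
    linear_combination z.1 p * this
  have e2 : ∑ p ∈ P, ∑ q ∈ P.erase p, a p q * ((eU w).1 p * (z.2.1 q + z.2.1 p) +
      z.1 p * ((eU w).2.1 q + (eU w).2.1 p)) = ∑ q ∈ P, al q * z.2.1 q +
      ∑ q ∈ P.erase 17, nu q * (z.2.1 q + z.2.1 17) := by
    have k1 := colsum hD z.2.1
    rw [← add_sum_erase _ _ h17] at k1 ⊢
    have k2 : ∑ q ∈ P.erase 17, a 17 q * ((eU w).1 17 * (z.2.1 q + z.2.1 17) +
        z.1 17 * ((eU w).2.1 q + (eU w).2.1 17)) = 0 := sum_eq_zero fun q _ => by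
      simp only [eU]
      norm_num
    have k3 : ∑ q ∈ P.erase 17, a 17 q * (w 17 * (z.2.1 q + z.2.1 17)) =
        ∑ q ∈ P.erase 17, nu q * (z.2.1 q + z.2.1 17) := sum_congr rfl fun q hq => by
      rw [hD.r17 h17 q (mem_of_mem_erase hq) (ne_of_mem_erase hq), hD.w17, one_mul]
    have k4 : ∑ p ∈ P.erase 17, ∑ q ∈ P.erase p, a p q * ((eU w).1 p * (z.2.1 q + z.2.1 p) +
        z.1 p * ((eU w).2.1 q + (eU w).2.1 p)) =
        ∑ p ∈ P.erase 17, ∑ q ∈ P.erase p, a p q * (w p * (z.2.1 q + z.2.1 p)) := by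
      refine sum_congr rfl fun p hp => sum_congr rfl fun q _ => ?_
      have k5 : (eU w).1 p = w p := by
        unfold eU
        dsimp only
        rw [if_neg (ne_of_mem_erase hp)]
      rw [k5]
      simp only [eU]
      ring
    rw [k3] at k1
    rw [k2, k4, zero_add]
    have := zadd (∑ q ∈ P.erase 17, nu q * (z.2.1 q + z.2.1 17))
    linear_combination k1 - this
  have e3 : ∑ q ∈ P, al q * ((eU w).2.2.1 * (z.2.1 q + z.2.2.2) + z.2.2.1 * ((eU w).2.1 q +
      (eU w).2.2.2)) = ∑ q ∈ P, al q * z.2.1 q := by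
    have : ∑ q ∈ P, al q * ((eU w).2.2.1 * (z.2.1 q + z.2.2.2) + z.2.2.1 * ((eU w).2.1 q +
      (eU w).2.2.2)) = ∑ q ∈ P, al q * z.2.1 q + (∑ q ∈ P, al q) * z.2.2.2 := by
      rw [sum_mul, ← sum_add_distrib]
      refine sum_congr rfl fun p _ => ?_
      simp only [eU]
      ring
    rw [this, hD.h2]
    ring
  have e4 : ∑ q ∈ P, al q * (z.2.1 q * (eU w).2.1 q) = 0 :=
    sum_eq_zero fun q _ => by simp only [eU]; ring
  have e5 : ∑ q ∈ P.erase 17, nu q * (z.2.1 q + z.2.1 17) = ∑ q ∈ P.erase 17, nu q * z.2.1 q +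
      (∑ q ∈ P.erase 17, nu q) * z.2.1 17 := by
    rw [sum_mul, ← sum_add_distrib]
    exact sum_congr rfl fun q _ => by ring
  have e6 : ∑ p ∈ P.erase 17, nu p * (z.1 p + z.2.1 p) = ∑ q ∈ P.erase 17, nu q * z.1 q +
      ∑ q ∈ P.erase 17, nu q * z.2.1 q := by
    rw [← sum_add_distrib]
    exact sum_congr rfl fun q _ => by ring
  rw [e1, e2, e3, e4, e5, e6]
  simp only [eU]
  have := zadd (∑ q ∈ P, al q * z.2.1 q)
  linear_combination this

theorem B_e17 (hD : Dat P a nu al w) (h17 : 17 ∈ P) (z : V) (hz : z.1 17 = 0) :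
    B0 P a nu al z (eY 17) = ∑ p ∈ P.erase 17, nu p * z.1 p := by
  unfold B0
  have e1 : ∑ p ∈ P, nu p * (z.1 p * (eY 17).1 p) = 0 :=
    sum_eq_zero fun p _ => by simp only [eY]; ring
  have e2 : ∑ p ∈ P, ∑ q ∈ P.erase p, a p q * ((eY 17).1 p * (z.2.1 q + z.2.1 p) +
      z.1 p * ((eY 17).2.1 q + (eY 17).2.1 p)) = ∑ p ∈ P.erase 17, nu p * z.1 p := by
    rw [← add_sum_erase _ _ h17]
    have k1 : ∑ q ∈ P.erase 17, a 17 q * ((eY 17).1 17 * (z.2.1 q + z.2.1 17) +
        z.1 17 * ((eY 17).2.1 q + (eY 17).2.1 17)) = 0 := sum_eq_zero fun q _ => by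
      rw [hz]
      simp only [eY]
      ring
    rw [k1, zero_add]
    refine sum_congr rfl fun p hp => ?_
    have hp17 := ne_of_mem_erase hp
    have k2 : 17 ∈ P.erase p := mem_erase.2 ⟨hp17.symm, h17⟩
    rw [sum_eq_single_of_mem 17 k2 fun q _ hq => by
      simp only [eY]
      rw [if_neg hq, if_neg hp17]
      ring]
    simp only [eY, if_true, if_neg hp17]
    rw [hD.c17 h17 p (mem_of_mem_erase hp) hp17]
    ring
  have e3 : ∑ q ∈ P, al q * ((eY 17).2.2.1 * (z.2.1 q + z.2.2.2) + z.2.2.1 * ((eY 17).2.1 q +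
      (eY 17).2.2.2)) = 0 := sum_eq_zero fun q _ => by
    by_cases hq : q = 17
    · rw [hq, hD.a17, zero_mul]
    · simp only [eY]
      rw [if_neg hq]
      ring
  have e4 : ∑ q ∈ P, al q * (z.2.1 q * (eY 17).2.1 q) = 0 := sum_eq_zero fun q _ => by
    by_cases hq : q = 17
    · rw [hq, hD.a17, zero_mul]
    · simp only [eY]
      rw [if_neg hq]
      ring
  rw [e1, e2, e3, e4]
  simp only [eY]
  ring

/-- the trivial vectors -/
def ZP (P : Finset ℕ) (z : V) : Prop := (∀ p ∈ P, z.1 p = 0 ∧ z.2.1 p = 0) ∧ z.2.2.1 = 0 ∧ z.2.2.2 = 0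

/-- the form with the coupling at `17` -/
def B1 (P : Finset ℕ) (a : ℕ → ℕ → ZMod 2) (nu al w : ℕ → ZMod 2) (κ : ZMod 2) (z z' : V) : ZMod 2 :=
  B0 P a nu al z z' + κ * (XX w 17 z * YY 17 z' + XX w 17 z' * YY 17 z)

theorem B1_symm (κ : ZMod 2) (z z' : V) : B1 P a nu al w κ z z' = B1 P a nu al w κ z' z := by
  unfold B1
  rw [B0_symm]
  ring

theorem B1_add (κ : ZMod 2) (z₁ z₂ z' : V) :
    B1 P a nu al w κ (z₁ + z₂) z' = B1 P a nu al w κ z₁ z' + B1 P a nu al w κ z₂ z' := by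
  unfold B1
  rw [B0_add, XX_add, YY_add]
  ring

theorem B0_of_ZP {z : V} (hz : ZP P z) (z' : V) : B0 P a nu al z z' = 0 := by
  obtain ⟨h1, h2, h3⟩ := hz
  unfold B0
  rw [h2, h3]
  have e1 : ∑ p ∈ P, nu p * (z.1 p * z'.1 p) = 0 := sum_eq_zero fun p hp => by
    rw [(h1 p hp).1]; ring
  have e2 : ∑ q ∈ P, al q * (z.2.1 q * z'.2.1 q) = 0 := sum_eq_zero fun p hp => by
    rw [(h1 p hp).2]; ring
  have e3 : ∑ p ∈ P, ∑ q ∈ P.erase p, a p q * (z'.1 p * (z.2.1 q + z.2.1 p) +
      z.1 p * (z'.2.1 q + z'.2.1 p)) = 0 := sum_eq_zero fun p hp => sum_eq_zero fun q hq => by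
    rw [(h1 p hp).1, (h1 p hp).2, (h1 q (mem_of_mem_erase hq)).2]; ring
  have e4 : ∑ q ∈ P, al q * (z'.2.2.1 * (z.2.1 q + 0) + 0 * (z'.2.1 q + z'.2.2.2)) = 0 :=
    sum_eq_zero fun p hp => by
      rw [(h1 p hp).2]; ring
  rw [e1, e2, e3, e4]
  ring

theorem B1_of_ZP {κ : ZMod 2} (hκ : κ = 0 ∨ 17 ∈ P) {z : V} (hz : ZP P z) (z' : V) :
    B1 P a nu al w κ z z' = 0 := by
  unfold B1
  rw [B0_of_ZP hz]
  rcases hκ with h | h
  · rw [h]; ring
  · obtain ⟨h1, h2, h3⟩ := hz
    unfold XX YY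
    rw [(h1 17 h).1, (h1 17 h).2, h2, h3]
    ring

/-- the couplings -/
theorem ex_of {κ : ZMod 2} (hκ : κ = 0 ∨ 17 ∈ P) {S : Finset ℕ} (hS : S ⊆ P) (h17 : 17 ∉ S)
    (h0 : ∀ z : V, z.1 17 = 0 → (∀ p ∈ S, XX w p z = 0 ∧ YY p z = 0) →
      (∀ z' : V, z'.1 17 = 0 → (∀ p ∈ S, XX w p z' = 0 ∧ YY p z' = 0) →
        B1 P a nu al w κ z z' = 0) → ZP P z) :
    ∃ c : ℕ → ZMod 2, c 17 = κ ∧ NSys P a nu al w c := by
  classical
  obtain ⟨c, hc⟩ := toggle (V := V) (fun z => z.1 17 = 0)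
    (fun a b ha hb => by
      have : (a + b).1 17 = a.1 17 + b.1 17 := rfl
      rw [this, ha, hb, add_zero])
    (B1 P a nu al w κ) (B1_symm κ) (B1_add κ) S (XX w) YY XX_add YY_add eX eY
    (fun p hp => by
      have hp17 : (17 : ℕ) ≠ p := by rintro rfl; exact h17 hp
      refine ⟨by simp only [eX]; rw [if_neg hp17], by simp [XX, eX], by simp [YY, eX],
        fun q _ hq => ⟨by simp [XX, eX, hq], by simp [YY, eX]⟩⟩)
    (fun p hp => by
      refine ⟨rfl, by simp [XX, eY], by simp [YY, eY],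
        fun q _ hq => ⟨by simp [XX, eY], by simp [YY, eY, hq]⟩⟩)
    (ZP P) (fun z hz => ⟨B1_of_ZP hκ hz, fun p hp => by
      obtain ⟨h1, h2, h3⟩ := hz
      unfold XX YY
      rw [(h1 p (hS hp)).1, (h1 p (hS hp)).2, h2, h3]
      exact ⟨by ring, by ring⟩⟩) h0
  refine ⟨fun p => if p ∈ S then c p else if p = 17 then κ else 0, ?_, ?_⟩
  · dsimp only
    rw [if_neg h17, if_pos rfl]
  · intro x y u v hx r1 r2 r3 r4
    have hz := hc (x, y, u, v) hx fun z' hz' => by
      have h1 := rows r1 r2 r3 r4 z' hz'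
      have h2 : ∑ p ∈ P, (if p ∈ S then c p else if p = 17 then κ else 0) *
          (XX w p (x, y, u, v) * YY p z' + XX w p z' * YY p (x, y, u, v)) =
          ∑ p ∈ S, c p * (XX w p (x, y, u, v) * YY p z' + XX w p z' * YY p (x, y, u, v)) +
          κ * (XX w 17 (x, y, u, v) * YY 17 z' + XX w 17 z' * YY 17 (x, y, u, v)) := by
        rw [← sum_sdiff hS, add_comm]
        have e1 : ∑ p ∈ S, (if p ∈ S then c p else if p = 17 then κ else 0) *
            (XX w p (x, y, u, v) * YY p z' + XX w p z' * YY p (x, y, u, v)) =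
            ∑ p ∈ S, c p * (XX w p (x, y, u, v) * YY p z' + XX w p z' * YY p (x, y, u, v)) :=
          sum_congr rfl fun p hp => by rw [if_pos hp]
        have e2 : ∑ p ∈ P \ S, (if p ∈ S then c p else if p = 17 then κ else 0) *
            (XX w p (x, y, u, v) * YY p z' + XX w p z' * YY p (x, y, u, v)) =
            κ * (XX w 17 (x, y, u, v) * YY 17 z' + XX w 17 z' * YY 17 (x, y, u, v)) := by
          rcases hκ with h | h
          · rw [h, zero_mul]
            refine sum_eq_zero fun p hp => ?_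
            rw [if_neg (mem_sdiff.1 hp).2, ite_self, zero_mul]
          · rw [sum_eq_single_of_mem 17 (mem_sdiff.2 ⟨h, h17⟩) fun p hp hp' => by
              rw [if_neg (mem_sdiff.1 hp).2, if_neg hp', zero_mul], if_neg h17, if_pos rfl]
        rw [e1, e2]
      rw [h2] at h1
      unfold B1
      linear_combination h1
    exact hz

theorem yy {p : ℕ} {z : V} (h : YY p z = 0) : z.2.1 p = z.2.2.2 := by
  unfold YY at h
  have := zadd z.2.2.2
  linear_combination h - this

theorem xx {p : ℕ} {z : V} (h : XX w p z = 0) : z.1 p = w p * z.2.2.1 := by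
  unfold XX at h
  have := zadd (w p * z.2.2.1)
  linear_combination h - this

theorem XX_eV (p : ℕ) : XX w p eV = 0 := by simp [XX, eV]

theorem YY_eV (p : ℕ) : YY p eV = 0 := by
  simp only [YY, eV]
  rfl

theorem XX_eU {p : ℕ} (h : p ≠ 17) : XX w p (eU w) = 0 := by
  simp only [XX, eU]
  rw [if_neg h, mul_one, zadd]

theorem YY_eU (p : ℕ) : YY p (eU w) = 0 := by simp [YY, eU]

/-- the case `17 ∉ P` -/
theorem exA (hD : Dat P a nu al w) (h17 : 17 ∉ P) (hnu : ∑ p ∈ P, nu p = 0) :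
    ∃ c : ℕ → ZMod 2, NSys P a nu al w c := by
  obtain ⟨c, -, hc⟩ := ex_of (κ := 0) (w := w) (a := a) (nu := nu) (al := al) (Or.inl rfl)
    (subset_refl P) h17 (fun z hz h1 h2 => by
    have hy : ∀ p ∈ P, z.2.1 p = z.2.2.2 := fun p hp => yy (h1 p hp).2
    have hx : ∀ p ∈ P, z.1 p = w p * z.2.2.1 := fun p hp => xx (h1 p hp).1
    have a1 := h2 eV rfl fun p _ => ⟨XX_eV p, YY_eV p⟩
    have a2 := h2 (eU w) (by simp [eU]) fun p hp => ⟨XX_eU (by rintro rfl; exact h17 hp), YY_eU p⟩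
    unfold B1 at a1 a2
    rw [zero_mul, add_zero] at a1 a2
    rw [B_eV] at a1
    rw [B_eU_of_not hD h17] at a2
    have e1 : ∑ q ∈ P, al q * z.2.1 q = 0 := by
      have : ∑ q ∈ P, al q * z.2.1 q = (∑ q ∈ P, al q) * z.2.2.2 := by
        rw [sum_mul]
        exact sum_congr rfl fun q hq => by rw [hy q hq]
      rw [this, hD.h2, zero_mul]
    have e2 : ∑ q ∈ P, nu q * z.1 q = 0 := by
      have : ∑ q ∈ P, nu q * z.1 q = (∑ q ∈ P, nu q) * z.2.2.1 := by
        rw [sum_mul]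
        refine sum_congr rfl fun q hq => ?_
        rw [hx q hq]
        have := hD.h3 q hq
        linear_combination z.2.2.1 * this
      rw [this, hnu, zero_mul]
    rw [e1, zero_add] at a1
    rw [e2, zero_add] at a2
    exact ⟨fun p hp => ⟨by rw [hx p hp, a2, mul_zero], by rw [hy p hp, a1]⟩, a2, a1⟩)
  exact ⟨c, hc⟩

/-- the case `17 ∈ P` -/
theorem exB (hD : Dat P a nu al w) (h17 : 17 ∈ P) :
    ∃ c : ℕ → ZMod 2, c 17 = 1 ∧ NSys P a nu al w c := by
  classical
  have hsum : ∀ z : V, (∀ p ∈ P.erase 17, z.2.1 p = z.2.2.2) → ∑ q ∈ P, al q * z.2.1 q = 0 := by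
    intro z hy
    have e0 : ∑ q ∈ P, al q * z.2.1 q = (∑ q ∈ P, al q) * z.2.2.2 := by
      rw [sum_mul]
      refine sum_congr rfl fun q hq => ?_
      by_cases hq17 : q = 17
      · rw [hq17, hD.a17, zero_mul, zero_mul]
      · rw [hy q (mem_erase.2 ⟨hq17, hq⟩)]
    rw [e0, hD.h2, zero_mul]
  have hsx : ∀ z : V, (∀ p ∈ P.erase 17, z.1 p = w p * z.2.2.1) →
      ∑ q ∈ P.erase 17, nu q * z.1 q = (∑ q ∈ P.erase 17, nu q) * z.2.2.1 := by
    intro z hx
    rw [sum_mul]
    refine sum_congr rfl fun q hq => ?_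
    rw [hx q hq]
    have := hD.h3 q (mem_of_mem_erase hq)
    linear_combination z.2.2.1 * this
  have hsy : ∀ z : V, (∀ p ∈ P.erase 17, z.2.1 p = z.2.2.2) →
      ∑ q ∈ P.erase 17, nu q * z.2.1 q = (∑ q ∈ P.erase 17, nu q) * z.2.2.2 := by
    intro z hy
    rw [sum_mul]
    exact sum_congr rfl fun q hq => by rw [hy q hq]
  have fU : ∀ z : V, z.1 17 = 0 → B1 P a nu al w 1 z (eU w) =
      ∑ q ∈ P.erase 17, nu q * z.1 q + ∑ q ∈ P.erase 17, nu q * z.2.1 q + z.2.2.1 +
      (∑ p ∈ P.erase 17, nu p) * z.2.1 17 + (z.2.1 17 + z.2.2.2) := by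
    intro z hz
    unfold B1
    rw [B_eU hD h17, YY_eU, mul_zero, zero_add, one_mul]
    have e6 : ∑ p ∈ P.erase 17, nu p * (z.1 p + z.2.1 p) = ∑ q ∈ P.erase 17, nu q * z.1 q +
        ∑ q ∈ P.erase 17, nu q * z.2.1 q := by
      rw [← sum_add_distrib]
      exact sum_congr rfl fun q _ => by ring
    have e7 : XX w 17 (eU w) = 1 := by
      simp only [XX, eU, if_true]
      rw [hD.w17]
      ring
    rw [e6, e7]
    unfold YY
    ring
  have f17 : ∀ z : V, z.1 17 = 0 → B1 P a nu al w 1 z (eY 17) =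
      ∑ q ∈ P.erase 17, nu q * z.1 q + z.2.2.1 := by
    intro z hz
    unfold B1
    rw [B_e17 hD h17 z hz]
    have e7 : XX w 17 (eY 17) = 0 := by simp [XX, eY]
    have e8 : YY 17 (eY 17) = 1 := by simp [YY, eY]
    rw [e7, e8]
    unfold XX
    rw [hz, hD.w17]
    ring
  have fV : ∀ z : V, B1 P a nu al w 1 z eV = ∑ q ∈ P, al q * z.2.1 q + z.2.2.2 := by
    intro z
    unfold B1
    rw [B_eV, XX_eV, YY_eV]
    ring
  rcases z2 (∑ q ∈ P.erase 17, nu q) with hs | hs
  · obtain ⟨c, h1, hc⟩ := ex_of (κ := 1) (w := w) (a := a) (nu := nu) (al := al) (Or.inr h17)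
      (erase_subset 17 P) (notMem_erase 17 P) (fun z hz h1 h2 => by
      have hy : ∀ p ∈ P.erase 17, z.2.1 p = z.2.2.2 := fun p hp => yy (h1 p hp).2
      have hx : ∀ p ∈ P.erase 17, z.1 p = w p * z.2.2.1 := fun p hp => xx (h1 p hp).1
      have a1 := h2 eV rfl fun p _ => ⟨XX_eV p, YY_eV p⟩
      have a2 := h2 (eU w) (by simp [eU]) fun p hp => ⟨XX_eU (ne_of_mem_erase hp), YY_eU p⟩
      have a3 := h2 (eY 17) rfl fun p hp => ⟨by simp [XX, eY], by
        simp [YY, eY, ne_of_mem_erase hp]⟩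
      rw [fV, hsum z hy, zero_add] at a1
      rw [f17 z hz, hsx z hx, hs, zero_mul, zero_add] at a3
      rw [fU z hz, hsx z hx, hsy z hy, hs, a1, a3] at a2
      have a4 : z.2.1 17 = 0 := by linear_combination a2
      refine ⟨fun p hp => ?_, a3, a1⟩
      by_cases hp17 : p = 17
      · rw [hp17]
        exact ⟨hz, a4⟩
      · have hp' := mem_erase.2 ⟨hp17, hp⟩
        exact ⟨by rw [hx p hp', a3, mul_zero], by rw [hy p hp', a1]⟩)
    exact ⟨c, h1, hc⟩
  · obtain ⟨p₁, hp₁, hn₁⟩ : ∃ p₁ ∈ P.erase 17, nu p₁ = 1 := by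
      by_contra hcon
      push Not at hcon
      have : ∑ q ∈ P.erase 17, nu q = 0 := sum_eq_zero fun q hq =>
        (z2 (nu q)).resolve_right (hcon q hq)
      rw [this] at hs
      exact absurd hs (by decide)
    have hp₁17 : p₁ ≠ 17 := ne_of_mem_erase hp₁
    obtain ⟨c, h1, hc⟩ := ex_of (κ := 1) (w := w) (a := a) (nu := nu) (al := al) (Or.inr h17)
      (S := (P.erase 17).erase p₁) ((erase_subset _ _).trans (erase_subset 17 P))
      (fun h => notMem_erase 17 P (mem_of_mem_erase h)) (fun z hz h1 h2 => by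
      have a1 := h2 eV rfl fun p _ => ⟨XX_eV p, YY_eV p⟩
      have a2 := h2 (eU w) (by simp [eU]) fun p hp =>
        ⟨XX_eU (ne_of_mem_erase (mem_of_mem_erase hp)), YY_eU p⟩
      have a3 := h2 (eY 17) rfl fun p hp => ⟨by simp [XX, eY], by
        simp [YY, eY, ne_of_mem_erase (mem_of_mem_erase hp)]⟩
      have a5 := h2 (eY p₁) rfl fun p hp => ⟨by simp [XX, eY], by
        simp [YY, eY, ne_of_mem_erase hp]⟩
      have a6 := h2 (eX p₁) (by simp only [eX]; rw [if_neg hp₁17.symm]) fun p hp =>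
        ⟨by simp [XX, eX, ne_of_mem_erase hp], by simp [YY, eX]⟩
      -- the functional `X` at `p₁`
      have s1 : ∑ q ∈ P.erase 17, nu q * z.1 q = (∑ q ∈ P.erase 17, nu q) * z.2.2.1 +
          XX w p₁ z := by
        rw [← add_sum_erase _ _ hp₁, ← add_sum_erase (P.erase 17) nu hp₁, hn₁, add_mul, sum_mul]
        have : ∑ q ∈ (P.erase 17).erase p₁, nu q * z.1 q =
            ∑ q ∈ (P.erase 17).erase p₁, nu q * z.2.2.1 := by
          refine sum_congr rfl fun q hq => ?_
          rw [xx (h1 q hq).1]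
          have := hD.h3 q (mem_of_mem_erase (mem_of_mem_erase hq))
          linear_combination z.2.2.1 * this
        rw [this]
        unfold XX
        have h3 := hD.h3 p₁ (mem_of_mem_erase hp₁)
        rw [hn₁, mul_one] at h3
        rw [h3]
        have := zadd z.2.2.1
        linear_combination -this
      rw [f17 z hz, s1, hs, one_mul] at a3
      have hX1 : XX w p₁ z = 0 := by
        have := zadd z.2.2.1
        linear_combination a3 - this
      have s2 : ∑ q ∈ P.erase 17, nu q * z.2.1 q = (∑ q ∈ P.erase 17, nu q) * z.2.2.2 +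
          YY p₁ z := by
        rw [← add_sum_erase _ _ hp₁, ← add_sum_erase (P.erase 17) nu hp₁, hn₁, add_mul, sum_mul]
        have : ∑ q ∈ (P.erase 17).erase p₁, nu q * z.2.1 q =
            ∑ q ∈ (P.erase 17).erase p₁, nu q * z.2.2.2 := by
          refine sum_congr rfl fun q hq => ?_
          rw [yy (h1 q hq).2]
        rw [this]
        unfold YY
        have := zadd z.2.2.2
        linear_combination -this
      rw [fU z hz, s1, s2, hs, hX1] at a2
      have hY1 : YY p₁ z = 0 := by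
        have e1 := zadd z.2.2.1
        have e2 := zadd z.2.2.2
        have e3 := zadd (z.2.1 17)
        linear_combination a2 - e1 - e2 - e3
      have hall : ∀ p ∈ P.erase 17, XX w p z = 0 ∧ YY p z = 0 := by
        intro p hp
        by_cases h : p = p₁
        · rw [h]
          exact ⟨hX1, hY1⟩
        · exact h1 p (mem_erase.2 ⟨h, hp⟩)
      have hy : ∀ p ∈ P.erase 17, z.2.1 p = z.2.2.2 := fun p hp => yy (hall p hp).2
      have hx : ∀ p ∈ P.erase 17, z.1 p = w p * z.2.2.1 := fun p hp => xx (hall p hp).1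
      rw [fV, hsum z hy, zero_add] at a1
      have t1 : B1 P a nu al w 1 (eY p₁) (eU w) = 1 := by
        rw [fU (eY p₁) rfl]
        have e1 : ∑ q ∈ P.erase 17, nu q * (eY p₁).1 q = 0 :=
          sum_eq_zero fun q _ => by simp [eY]
        have e2 : ∑ q ∈ P.erase 17, nu q * (eY p₁).2.1 q = 1 := by
          rw [sum_eq_single_of_mem p₁ hp₁ fun q _ hq => by simp [eY, hq]]
          simp [eY, hn₁]
        have e3 : (eY p₁).2.1 17 = 0 := by simp only [eY]; rw [if_neg hp₁17.symm]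
        rw [e1, e2, e3]
        simp [eY]
      have t2 : B1 P a nu al w 1 (eY p₁) (eY 17) = 0 := by
        rw [f17 (eY p₁) rfl]
        have e1 : ∑ q ∈ P.erase 17, nu q * (eY p₁).1 q = 0 :=
          sum_eq_zero fun q _ => by simp [eY]
        rw [e1]
        simp [eY]
      have t3 : B1 P a nu al w 1 (eX p₁) (eY 17) = 1 := by
        rw [f17 (eX p₁) (by simp only [eX]; rw [if_neg hp₁17.symm])]
        have e2 : ∑ q ∈ P.erase 17, nu q * (eX p₁).1 q = 1 := by
          rw [sum_eq_single_of_mem p₁ hp₁ fun q _ hq => by simp [eX, hq]]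
          simp [eX, hn₁]
        rw [e2]
        simp [eX]
      have hbase : ∀ z₀ : V, z₀.1 17 = 0 → (∀ p ∈ P.erase 17, z₀.1 p = w p * z.2.2.1) →
          (∀ p ∈ P.erase 17, z₀.2.1 p = 0) → z₀.2.1 17 = z.2.1 17 → z₀.2.2.1 = z.2.2.1 →
          z₀.2.2.2 = 0 → ∀ z', B1 P a nu al w 1 z z' = B1 P a nu al w 1 z₀ z' := by
        intro z₀ k1 k2 k3 k4 k5 k6 z'
        have hZ : ZP P (z + z₀) := by
          refine ⟨fun p hp => ?_, ?_, ?_⟩
          · have e1 : (z + z₀).1 p = z.1 p + z₀.1 p := rfl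
            have e2 : (z + z₀).2.1 p = z.2.1 p + z₀.2.1 p := rfl
            rw [e1, e2]
            by_cases hp17 : p = 17
            · rw [hp17]
              exact ⟨by rw [hz, k1, add_zero], by rw [k4, zadd]⟩
            · have hp' := mem_erase.2 ⟨hp17, hp⟩
              exact ⟨by rw [hx p hp', k2 p hp', zadd], by rw [hy p hp', k3 p hp', a1, add_zero]⟩
          · have e1 : (z + z₀).2.2.1 = z.2.2.1 + z₀.2.2.1 := rfl
            rw [e1, k5, zadd]
          · have e1 : (z + z₀).2.2.2 = z.2.2.2 + z₀.2.2.2 := rfl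
            rw [e1, k6, a1, add_zero]
        have h3 := B1_of_ZP (a := a) (nu := nu) (al := al) (w := w) (κ := 1) (Or.inr h17) hZ z'
        rw [B1_add] at h3
        have := zadd (B1 P a nu al w 1 z₀ z')
        linear_combination h3 - this
      rcases z2 z.2.2.1 with hu | hu
      · rcases z2 (z.2.1 17) with h7 | h7
        · refine ⟨fun p hp => ?_, hu, a1⟩
          by_cases hp17 : p = 17
          · rw [hp17]
            exact ⟨hz, h7⟩
          · have hp' := mem_erase.2 ⟨hp17, hp⟩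
            exact ⟨by rw [hx p hp', hu, mul_zero], by rw [hy p hp', a1]⟩
        · exfalso
          have h3 := hbase (eY 17) rfl (fun p hp => by rw [hu, mul_zero]; rfl)
            (fun p hp => by simp only [eY]; rw [if_neg (ne_of_mem_erase hp)])
            (by rw [h7]; simp [eY]) (by rw [hu]; rfl) rfl (eX p₁)
          rw [a6, B1_symm, t3] at h3
          exact absurd h3 (by decide)
      · exfalso
        rcases z2 (z.2.1 17) with h7 | h7
        · have h3 := hbase (eU w) (by simp [eU]) (fun p hp => by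
              simp only [eU]; rw [if_neg (ne_of_mem_erase hp), hu, mul_one])
            (fun p hp => rfl) (by rw [h7]; rfl) (by rw [hu]; rfl) rfl (eY p₁)
          rw [a5, B1_symm, t1] at h3
          exact absurd h3 (by decide)
        · have h3 := hbase (eU w + eY 17) (by simp [eU, eY]) (fun p hp => by
              have : (eU w + eY 17).1 p = (eU w).1 p + 0 := rfl
              rw [this]
              simp only [eU]
              rw [if_neg (ne_of_mem_erase hp), hu, mul_one, add_zero])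
            (fun p hp => by
              have : (eU w + eY 17).2.1 p = 0 + (eY 17).2.1 p := rfl
              rw [this]
              simp only [eY]
              rw [if_neg (ne_of_mem_erase hp), add_zero])
            (by
              have : (eU w + eY 17).2.1 17 = 0 + (eY 17).2.1 17 := rfl
              rw [this, h7]
              simp [eY]) (by
              have : (eU w + eY 17).2.2.1 = 1 + 0 := rfl
              rw [this, hu, add_zero]) (by
              have : (eU w + eY 17).2.2.2 = 0 + 0 := rfl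
              rw [this, add_zero]) (eY p₁)
          rw [a5, B1_add, B1_symm, t1, B1_symm, t2] at h3
          exact absurd h3 (by decide))
    exact ⟨c, h1, hc⟩

end Pool.Agent.N809.SN
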