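import Pool.Agent.N809.SN.Dir
import Pool.Agent.N919.BS.Fin

/-!
# The pairs of twists
-/

set_option autoImplicit false

open Finset

namespace Pool.Agent.N809.SN

open Pool.Agent.N875.X15
open Pool.Agent.N875.P17
open Pool.Agent.N919.BS (Rt17)

theorem mem17 {n : ℤ} (hn : n ≠ 0) : 17 ∈ PR n ↔ (17 : ℤ) ∣ n := by
  rw [mem_PR hn]
  unfold Ram
  constructor
  · rintro ⟨-, h | h⟩
    · exact_mod_cast h
    · norm_num at h
  · intro h
    exact ⟨by norm_num, Or.inl (by exact_mod_cast h)⟩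

theorem jac_zero {d : ℤ} : jacobiSym d 17 = 0 ↔ (17 : ℤ) ∣ d := by
  have hp : Prime (17 : ℤ) := Int.prime_iff_natAbs_prime.2 (by norm_num)
  have h1 : Int.gcd d ((17 : ℕ) : ℤ) = 1 ↔ ¬ (17 : ℤ) ∣ d := by
    rw [← Int.isCoprime_iff_gcd_eq_one, ← hp.coprime_iff_not_dvd, isCoprime_comm]
    rfl
  rw [jacobiSym.eq_zero_iff_not_coprime, Ne, h1, not_not]

theorem jac_cases (d : ℤ) : jacobiSym d 17 = 0 ∨ jacobiSym d 17 = 1 ∨ jacobiSym d 17 = -1 := by
  rcases jacobiSym.trichotomy d 17 with h | h | h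
  · exact Or.inl h
  · exact Or.inr (Or.inl h)
  · exact Or.inr (Or.inr h)

theorem sum_nn {n : ℤ} (hs : Squarefree n) (h17 : 17 ∉ PR n) (hj : jacobiSym n 17 = 1) :
    ∑ p ∈ PR n, nn p = 0 := by
  have hp17 : Nat.Prime 17 := by norm_num
  have ha : al n 17 = 0 := by
    unfold al
    rw [ps_odd (by norm_num), sgp17]
    rfl
  have h1 : ∑ p ∈ PR n, nn p = ∑ p ∈ PR n, ra 17 (ps n p) := by
    refine sum_congr rfl fun p hp => ?_
    rw [sym hs hp hp17 (by norm_num) (by rintro rfl; exact h17 hp) n, ha, sgp17, mul_zero, add_zero]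
    unfold ww nn
    split_ifs with h
    · rw [h.1, ra17_2, mul_zero]
    · rw [one_mul]
  rw [h1, ra_prod hp17 _ _ fun p hp => gd_ps hs (PR_prime hs.ne_zero hp) hp17
    (by rintro rfl; exact h17 hp), prod_PR hs]
  unfold ra
  rw [ch_odd (by norm_num), hj, if_pos rfl]

lemma pd17 {d : ℤ} {p : ℕ} (hp : p.Prime) : p ∣ 17 * d.natAbs ↔ p = 17 ∨ (p : ℤ) ∣ d := by
  rw [hp.dvd_mul, Int.natCast_dvd, Nat.prime_dvd_prime_iff_eq hp (by norm_num)]

/-- the case `d > 0`, `17` not inert -/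
theorem pos1 {d : ℤ} (hs : Squarefree d) (hd : 0 < d) (hj : jacobiSym d 17 ≠ -1) :
    ∃ t : ℕ, Nat.Coprime t (136 * d.natAbs) ∧ ∀ l : ℕ, l.Prime → l ≡ t [MOD 136 * d.natAbs] →
      Squarefree (-(l : ℤ)) ∧ Squarefree (-(l : ℤ) * d) ∧ Sg (-(l : ℤ)) ∧ Sg (-(l : ℤ) * d) := by
  obtain ⟨t, ht, h⟩ := main_ex hs hd (by
    rcases jac_cases d with h | h | h
    · exact Or.inl ((mem17 hs.ne_zero).2 (jac_zero.1 h))
    · have h17 : 17 ∉ PR d := fun h0 => by
        rw [mem17 hs.ne_zero, ← jac_zero] at h0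
        omega
      exact Or.inr ⟨h17, sum_nn hs h17 h⟩
    · exact absurd h hj) (W := 17 * d.natAbs) (dvd_mul_right _ _)
    (fun p hp h => (pd17 hp).2 (Or.inr h)) (fun p hp h => (pd17 hp).1 h)
  rw [show 8 * (17 * d.natAbs) = 136 * d.natAbs by ring] at ht h
  refine ⟨t, ht, fun l hl hm => ?_⟩
  obtain ⟨h3, h4, h5, h6⟩ := h l hl hm
  refine ⟨?_, sqf_l hs hl h5, sg_one hl h3 h4, h6⟩
  rw [← Int.squarefree_natAbs, Int.natAbs_neg, Int.natAbs_natCast]
  exact hl.squarefree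

/-- the case `d > 0`, `17` inert -/
theorem pos2 {d : ℤ} (hs : Squarefree d) (hd : 0 < d) (hj : jacobiSym d 17 = -1) :
    ∃ t : ℕ, Nat.Coprime t (136 * d.natAbs) ∧ ∀ l : ℕ, l.Prime → l ≡ t [MOD 136 * d.natAbs] →
      Squarefree (-(l : ℤ) * 17) ∧ Squarefree (-(l : ℤ) * (17 * d)) ∧
      Sg (-(l : ℤ) * 17) ∧ Sg (-(l : ℤ) * (17 * d)) := by
  have hp : Prime (17 : ℤ) := Int.prime_iff_natAbs_prime.2 (by norm_num)
  have h17 : ¬ (17 : ℤ) ∣ d := fun h => by
    rw [← jac_zero] at h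
    omega
  have hs' : Squarefree (17 * d) := by
    rw [← Int.squarefree_natAbs, Int.natAbs_mul]
    rw [show (17 : ℤ).natAbs = 17 from rfl, Nat.squarefree_mul]
    · exact ⟨Nat.Prime.prime (by norm_num) |>.squarefree, Int.squarefree_natAbs.2 hs⟩
    · refine ((Nat.Prime.coprime_iff_not_dvd (by norm_num)).2 fun h => h17 ?_)
      exact_mod_cast Int.natCast_dvd.2 h
  have hdv : ∀ p : ℕ, p.Prime → ((p : ℤ) ∣ 17 * d ↔ p = 17 ∨ (p : ℤ) ∣ d) := fun p hpp => by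
    rw [Int.natCast_dvd, Int.natAbs_mul, show (17 : ℤ).natAbs = 17 from rfl, pd17 hpp]
  obtain ⟨t, ht, h⟩ := main_ex hs' (by omega)
    (Or.inl ((mem17 hs'.ne_zero).2 (dvd_mul_right _ _))) (W := 17 * d.natAbs) (dvd_mul_right _ _)
    (fun p hp h => (pd17 hp).2 ((hdv p hp).1 h)) (fun p hp h => Or.inr ((hdv p hp).2 ((pd17 hp).1 h)))
  rw [show 8 * (17 * d.natAbs) = 136 * d.natAbs by ring] at ht h
  refine ⟨t, ht, fun l hl hm => ?_⟩
  obtain ⟨h3, h4, h5, h6⟩ := h l hl hm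
  have h7 : ¬ (l : ℤ) ∣ 17 := fun h => h5 (h.mul_right _)
  exact ⟨sqf_l hp.squarefree hl h7, sqf_l hs' hl h5, sg_17 hl h3 h4, h6⟩

/-- the case `d < 0`, `17` not split -/
theorem neg {d : ℤ} (hs : Squarefree d) (hd : d < 0) (hj : jacobiSym d 17 ≠ 1) {k : ℕ}
    (k1 : k.Prime) (k3 : k % 4 = 3) (k8 : jacobiSym 17 k = -1) (hkd : ¬ (k : ℤ) ∣ d) :
    ∃ t : ℕ, Nat.Coprime t (136 * (k * d.natAbs)) ∧
      ∀ l : ℕ, l.Prime → l ≡ t [MOD 136 * (k * d.natAbs)] →
      Squarefree (-(l : ℤ) * -(k : ℤ)) ∧ Squarefree (-(l : ℤ) * (-(k : ℤ) * d)) ∧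
      Sg (-(l : ℤ) * -(k : ℤ)) ∧ Sg (-(l : ℤ) * (-(k : ℤ) * d)) := by
  have k6 : ra k 17 = 1 := by
    unfold ra
    rw [ch_odd (by omega), k8, if_neg (by norm_num)]
  have k5 : ra 17 (-(k : ℤ)) = 1 := by rw [← ra_l17 k1 k3, k6]
  have hs' := sqf_l hs k1 hkd
  have hk0 : (0 : ℤ) < k := by exact_mod_cast k1.pos
  have hpos : 0 < -(k : ℤ) * d := by nlinarith
  have k7 : jacobiSym (-(k : ℤ)) 17 = -1 := by
    have h0 : ¬ (17 : ℤ) ∣ -(k : ℤ) := by
      intro h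
      rw [dvd_neg] at h
      have h1 : 17 ∣ k := by exact_mod_cast h
      have := (Nat.prime_dvd_prime_iff_eq (by norm_num) k1).1 h1
      omega
    rcases jac_cases (-(k : ℤ)) with h | h | h
    · exact absurd (jac_zero.1 h) h0
    · unfold ra at k5
      rw [ch_odd (by norm_num), h, if_pos rfl] at k5
      exact absurd k5 (by decide)
    · exact h
  have hdv : ∀ p : ℕ, p.Prime → ((p : ℤ) ∣ -(k : ℤ) * d ↔ p ∣ k * d.natAbs) := fun p hpp => by
    rw [Int.natCast_dvd, Int.natAbs_mul, Int.natAbs_neg, Int.natAbs_natCast]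
  obtain ⟨t, ht, h⟩ := main_ex hs' hpos (by
    rcases jac_cases d with h | h | h
    · exact Or.inl ((mem17 hs'.ne_zero).2 ((jac_zero.1 h).mul_left _))
    · exact absurd h hj
    · have h8 : jacobiSym (-(k : ℤ) * d) 17 = 1 := by
        rw [jacobiSym.mul_left, k7, h]
        norm_num
      have h17 : 17 ∉ PR (-(k : ℤ) * d) := fun h0 => by
        rw [mem17 hs'.ne_zero, ← jac_zero] at h0
        omega
      exact Or.inr ⟨h17, sum_nn hs' h17 h8⟩) (W := 17 * (k * d.natAbs)) (dvd_mul_right _ _)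
    (fun p hp h => ((hdv p hp).1 h).mul_left 17) (fun p hp h => by
      rcases hp.dvd_mul.1 h with h | h
      · exact Or.inl ((Nat.prime_dvd_prime_iff_eq hp (by norm_num)).1 h)
      · exact Or.inr ((hdv p hp).2 h))
  rw [show 8 * (17 * (k * d.natAbs)) = 136 * (k * d.natAbs) by ring] at ht h
  refine ⟨t, ht, fun l hl hm => ?_⟩
  obtain ⟨h3, h4, h5, h6⟩ := h l hl hm
  have hlk : l ≠ k := by
    rintro rfl
    exact h5 ((dvd_neg.2 (dvd_refl _)).mul_right _)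
  refine ⟨?_, sqf_l hs' hl h5, sg_two hl h3 h4 k1 k3 k6 hlk, h6⟩
  refine sqf_l ?_ hl fun h => h5 (h.mul_right _)
  rw [← Int.squarefree_natAbs, Int.natAbs_neg, Int.natAbs_natCast]
  exact k1.squarefree

/-- the auxiliary primes -/
theorem exists_k (B : ℕ) : ∃ k : ℕ, k.Prime ∧ B < k ∧ k % 4 = 3 ∧ jacobiSym 17 k = -1 := by
  obtain ⟨k, k1, k2, k3, k4⟩ := prime_ex (fun _ => 1) {17}
    (fun p hp => by rw [mem_singleton] at hp; rw [hp]; norm_num) (max B 17)
  have k5 : ra 17 (-(k : ℤ)) = 1 := k4 17 (mem_singleton_self _)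
  have k6 : ra k 17 = 1 := by rw [ra_l17 k1 k3, k5]
  refine ⟨k, k1, lt_of_le_of_lt (le_max_left _ _) k2, k3, ?_⟩
  have h17 : 17 < k := lt_of_le_of_lt (le_max_right _ _) k2
  have hg : Gd k 17 := by
    rw [gd_odd (by omega)]
    intro h
    have h1 : k ∣ 17 := by exact_mod_cast h
    have := Nat.le_of_dvd (by norm_num) h1
    omega
  rcases ch_pm k1 hg with h | h
  · unfold ra at k6
    rw [h, if_pos rfl] at k6
    exact absurd k6 (by decide)
  · rw [ch_odd (by omega)] at h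
    exact h

/-- the obstruction -/
theorem obst {d m n : ℤ} (hm : Squarefree m) (hn : Squarefree n) (hd : d < 0)
    (hj : jacobiSym d 17 = 1) (hsq : IsSquare (d * m * n)) (h1 : Rt17 m) (h2 : Rt17 n) : False := by
  obtain ⟨k, hk⟩ := hsq
  have hp : Prime (17 : ℤ) := Int.prime_iff_natAbs_prime.2 (by norm_num)
  have hd17 : ¬ (17 : ℤ) ∣ d := fun h => by
    rw [← jac_zero] at h
    omega
  have key : ∀ {m n : ℤ}, Squarefree m → Squarefree n → d * m * n = k * k → 0 < m →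
      jacobiSym m 17 = 1 → n < 0 → jacobiSym n 17 ≠ 1 → False := by
    intro m n hm hn hk h0 h3 h4 h5
    have hm17 : ¬ (17 : ℤ) ∣ m := fun h => by
      rw [← jac_zero] at h
      omega
    have h6 : jacobiSym (d * m * n) 17 = jacobiSym n 17 := by
      rw [jacobiSym.mul_left, jacobiSym.mul_left, hj, h3, one_mul, one_mul]
    rw [hk, jacobiSym.mul_left] at h6
    rcases jac_cases n with h7 | h7 | h7
    · rw [h7] at h6
      have h8 : (17 : ℤ) ∣ k := jac_zero.1 (mul_self_eq_zero.1 h6)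
      have h9 : (17 : ℤ) * 17 ∣ n := by
        have h10 : (17 : ℤ) * 17 ∣ d * m * n := by
          rw [hk]
          exact mul_dvd_mul h8 h8
        have hco : IsCoprime ((17 : ℤ) * 17) (d * m) := by
          have e : IsCoprime (17 : ℤ) (d * m) := (hp.coprime_iff_not_dvd).2 fun h =>
            (hp.dvd_or_dvd h).elim hd17 hm17
          exact e.mul_left e
        exact hco.dvd_of_dvd_mul_left h10
      have h11 := hn 17 h9
      exact hp.not_isUnit h11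
    · exact h5 h7
    · rw [h7] at h6
      nlinarith [mul_self_nonneg (jacobiSym k 17)]
  have hsign : ¬ (0 < m * n) := fun h => by nlinarith [mul_self_nonneg k]
  rcases h1 with ⟨a1, a2⟩ | ⟨a1, a2⟩ <;> rcases h2 with ⟨b1, b2⟩ | ⟨b1, b2⟩
  · exact hsign (mul_pos a1 b1)
  · exact key hm hn hk a1 a2 b1 b2
  · exact key hn hm (by rw [← hk]; ring) b1 b2 a1 a2
  · exact hsign (mul_pos_of_neg_of_neg a1 b1)

end Pool.Agent.N809.SN
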