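import Pool.Agent.N809.SN.Fin

/-!
# Twists which are good for all divisors of an integer at once
-/

set_option autoImplicit false

open Finset

namespace Pool.Agent.N809.SN

open Pool.Agent.N875.X15
open Pool.Agent.N875.P17

/-- a prime `1` modulo `8` with given symbols -/
theorem prime_ex1 (c : ℕ → ZMod 2) (M : Finset ℕ) (hM : ∀ p ∈ M, p.Prime ∧ p ≠ 2) (B : ℕ) :
    ∃ l : ℕ, l.Prime ∧ B < l ∧ l % 8 = 1 ∧ ∀ p ∈ M, ra p (l : ℤ) = c p := by
  classical
  obtain ⟨t, ht1, ht2⟩ := crt 7 c M hM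
  set N : ℕ := 8 * ∏ q ∈ M, q with hN
  have hN0 : N ≠ 0 := mul_ne_zero (by norm_num)
    (prod_ne_zero_iff.2 fun q hq => (hM q hq).1.ne_zero)
  have hcop : Nat.Coprime t N := by
    refine Nat.Coprime.mul_right ?_ ?_
    · have : (8 : ℕ) = 2 ^ 3 := by norm_num
      rw [this]
      exact Nat.Coprime.pow_right 3 (Nat.coprime_two_right.2 (Nat.odd_iff.2 (by omega)))
    · exact Nat.Coprime.prod_right fun q hq =>
        (((hM q hq).1.coprime_iff_not_dvd).2 (ht2 q hq).2).symm
  have : NeZero N := ⟨hN0⟩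
  have hunit : IsUnit (-(t : ZMod N)) := ((ZMod.isUnit_iff_coprime t N).2 hcop).neg
  obtain ⟨l, hl1, hl2, hl3⟩ := Nat.forall_exists_prime_gt_and_eq_mod hunit B
  have hmod : (l : ℤ) ≡ -(t : ℤ) [ZMOD N] := by
    rw [← ZMod.intCast_eq_intCast_iff]
    push_cast
    exact hl3
  refine ⟨l, hl2, hl1, ?_, fun p hp => ?_⟩
  · have h1 : (l : ℤ) ≡ -(t : ℤ) [ZMOD 8] := hmod.of_dvd (by rw [hN]; push_cast; exact dvd_mul_right _ _)
    have h2 : (l : ℤ) % 8 = (-(t : ℤ)) % 8 := h1
    omega
  · rw [← (ht2 p hp).1]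
    apply ra_mod (hM p hp).2
    exact hmod.of_dvd (by rw [hN]; push_cast; exact (Finset.dvd_prod_of_mem (fun q : ℕ => (q : ℤ)) hp).mul_left 8)

lemma al_one {n : ℤ} {q : ℕ} (hq : q % 4 = 1) : al n q = 0 := by
  unfold al
  rw [ps_odd (by omega)]
  unfold sgp
  rw [if_pos hq]
  exact if_neg (by omega)

lemma sgp_one {q : ℕ} (hq : q % 4 = 1) : sgp q = q := by
  unfold sgp
  rw [if_pos hq]

/-- reciprocity at a prime `1` modulo `4` -/
lemma rec1 {l p : ℕ} (hl : l.Prime) (h4 : l % 4 = 1) (hp : p.Prime) (hpl : p ≠ l) {e : ℤ}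
    (he : e = 1 ∨ e = -1) : ra l (e * p) = ra p (l : ℤ) := by
  rw [lemR hp hl (by omega) hpl 1 he, sgp_one h4, al_one h4]
  split_ifs <;> rw [zero_add]

lemma sgp_form (p : ℕ) : ∃ e : ℤ, (e = 1 ∨ e = -1) ∧ sgp p = e * p := by
  unfold sgp
  split_ifs
  · exact ⟨1, Or.inl rfl, by ring⟩
  · exact ⟨-1, Or.inr rfl, by ring⟩

/-- the auxiliary primes -/
structure Aux (P S : Finset ℕ) (f : ℕ → ℕ) (B : ℕ) : Prop where
  pr : ∀ p ∈ S, (f p).Prime
  m8 : ∀ p ∈ S, f p % 8 = 1
  big : ∀ p ∈ S, B < f p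
  s17 : ∀ p ∈ S, ra 17 (f p : ℤ) = 0
  sP : ∀ p ∈ S, ∀ q ∈ P, ra q (f p : ℤ) = if q = p then 1 else 0
  sf : ∀ p ∈ S, ∀ q ∈ S, p ≠ q → ra (f p) (f q : ℤ) = 0 ∧ f p ≠ f q

theorem aux_ex (P : Finset ℕ) (hP : ∀ p ∈ P, p.Prime ∧ p ≠ 2) (h17 : 17 ∉ P) (B : ℕ) :
    ∃ f : ℕ → ℕ, Aux P P f B := by
  classical
  have key : ∀ S : Finset ℕ, S ⊆ P → ∃ f : ℕ → ℕ, Aux P S f B := by
    intro S
    induction S using Finset.induction_on with
    | empty =>
      intro _
      exact ⟨id, ⟨by simp, by simp, by simp, by simp, by simp, by simp⟩⟩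
    | insert p S hp ih =>
      intro hS
      obtain ⟨f, hf⟩ := ih fun x hx => hS (mem_insert_of_mem hx)
      have hpP : p ∈ P := hS (mem_insert_self _ _)
      obtain ⟨l, l1, l2, l3, l4⟩ := prime_ex1 (fun q => if q = p then 1 else 0)
        (insert 17 (P ∪ S.image f)) (fun q hq => by
          rcases mem_insert.1 hq with h | h
          · rw [h]; norm_num
          · rcases mem_union.1 h with h | h
            · exact hP q h
            · obtain ⟨x, hx, rfl⟩ := mem_image.1 h
              have := hf.m8 x hx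
              exact ⟨hf.pr x hx, by omega⟩) (max B (max (P.sup id) (S.sup f)))
      have hlB : B < l := lt_of_le_of_lt (le_max_left _ _) l2
      have hlP : ∀ q ∈ P, q < l := fun q hq =>
        lt_of_le_of_lt ((le_sup (f := id) hq).trans ((le_max_left _ _).trans (le_max_right _ _))) l2
      have hlf : ∀ q ∈ S, f q < l := fun q hq =>
        lt_of_le_of_lt ((le_sup (f := f) hq).trans ((le_max_right _ _).trans (le_max_right _ _))) l2
      have hne : ∀ q ∈ S, q ≠ p := fun q hq => by rintro rfl; exact hp hq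
      have hfp : ∀ q ∈ S, f q ≠ p := fun q hq h => by
        have h1 := hf.sP q hq p hpP
        rw [if_neg (hne q hq).symm, h] at h1
        unfold ra at h1
        rw [ch_odd (hP p hpP).2, jacobiSym.mod_left p p, Int.emod_self,
          jacobiSym.zero_left (hP p hpP).1.one_lt, if_neg (by norm_num)] at h1
        exact absurd h1 (by decide)
      have hup : ∀ q ∈ S, Function.update f p l q = f q := fun q hq =>
        Function.update_of_ne (hne q hq) _ _
      refine ⟨Function.update f p l, ⟨fun q hq => ?_, fun q hq => ?_, fun q hq => ?_,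
        fun q hq => ?_, fun q hq r hr => ?_, fun q hq r hr hqr => ?_⟩⟩
      · rcases mem_insert.1 hq with rfl | hq
        · rwa [Function.update_self]
        · rw [hup q hq]; exact hf.pr q hq
      · rcases mem_insert.1 hq with rfl | hq
        · rwa [Function.update_self]
        · rw [hup q hq]; exact hf.m8 q hq
      · rcases mem_insert.1 hq with rfl | hq
        · rwa [Function.update_self]
        · rw [hup q hq]; exact hf.big q hq
      · rcases mem_insert.1 hq with rfl | hq
        · rw [Function.update_self, l4 17 (mem_insert_self _ _), if_neg]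
          rintro rfl
          exact h17 hpP
        · rw [hup q hq]; exact hf.s17 q hq
      · rcases mem_insert.1 hq with rfl | hq
        · rw [Function.update_self, l4 r (mem_insert_of_mem (mem_union_left _ hr))]
        · rw [hup q hq]; exact hf.sP q hq r hr
      · rcases mem_insert.1 hq with rfl | hq'
        · rcases mem_insert.1 hr with rfl | hr
          · exact absurd rfl hqr
          · rw [Function.update_self, hup r hr]
            refine ⟨?_, (hlf r hr).ne'⟩
            have h1 := rec1 (e := 1) l1 (by omega) (hf.pr r hr) (hlf r hr).ne (Or.inl rfl)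
            rw [one_mul] at h1
            rw [h1, l4 (f r) (mem_insert_of_mem (mem_union_right _ (mem_image_of_mem _ hr))),
              if_neg (hfp r hr)]
        · rcases mem_insert.1 hr with rfl | hr
          · rw [Function.update_self, hup q hq']
            exact ⟨by rw [l4 (f q) (mem_insert_of_mem (mem_union_right _ (mem_image_of_mem _ hq'))),
              if_neg (hfp q hq')], (hlf q hq').ne⟩
          · rw [hup q hq', hup r hr]
            exact hf.sf q hq' r hr hqr
  exact key P subset_rfl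

section

variable {P Q : Finset ℕ} {f : ℕ → ℕ} {l₀ : ℕ}

/-- **the linear algebra**: the twist with the ramified primes `l₀`, `f p` for `p ∈ P`, and `Q` -/
theorem sg_kill {n : ℤ} (hs : Squarefree n) (hPR : PR n = insert l₀ (P.image f ∪ Q)) (hQ : Q ⊆ P)
    (h2 : 2 ∉ PR n) (h17 : 17 ∉ PR n) (hf : Aux P P f (P.sup id))
    (hl : l₀.Prime) (hl4 : l₀ % 4 = 3) (hl17 : nn l₀ = 1) (hlf : ∀ p ∈ P, ra (f p) (-(l₀ : ℤ)) = 1)
    (hlP : l₀ ∉ P) (hal : ∑ p ∈ Q, al n p = 0) (hnu : ∑ p ∈ Q, nn p = 0) : Sg n := by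
  classical
  have hprime : ∀ q ∈ PR n, q.Prime := fun q hq => PR_prime hs.ne_zero hq
  have hne2 : ∀ q ∈ PR n, q ≠ 2 := fun q hq => by rintro rfl; exact h2 hq
  have hfP : ∀ p ∈ P, f p ∉ P := fun p hp h => by
    have h1 : f p ≤ P.sup id := le_sup (f := id) h
    have := hf.big p hp
    omega
  have hl₀f : ∀ p ∈ P, f p ≠ l₀ := fun p hp h => by
    have := hf.m8 p hp
    omega
  have hl₀ : l₀ ∈ PR n := by rw [hPR]; exact mem_insert_self _ _
  have hfm : ∀ p ∈ P, f p ∈ PR n := fun p hp => by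
    rw [hPR]
    exact mem_insert_of_mem (mem_union_left _ (mem_image_of_mem _ hp))
  have hQm : ∀ p ∈ Q, p ∈ PR n := fun p hp => by
    rw [hPR]
    exact mem_insert_of_mem (mem_union_right _ hp)
  have hinj : ∀ p ∈ P, ∀ q ∈ P, f p = f q → p = q := fun p hp q hq h => by
    by_contra hpq
    exact (hf.sf p hp q hq hpq).2 h
  have hdisj : Disjoint (P.image f) Q := by
    rw [disjoint_left]
    intro x hx hx'
    obtain ⟨p, hp, rfl⟩ := mem_image.1 hx
    exact hfP p hp (hQ hx')
  have hl₀u : l₀ ∉ P.image f ∪ Q := fun h => by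
    rcases mem_union.1 h with h | h
    · obtain ⟨p, hp, h1⟩ := mem_image.1 h
      exact hl₀f p hp h1
    · exact hlP (hQ h)
  -- sums over the ramified primes
  have hsum : ∀ g : ℕ → ZMod 2, ∑ q ∈ PR n, g q = g l₀ + (∑ p ∈ P, g (f p) + ∑ q ∈ Q, g q) := by
    intro g
    rw [hPR, sum_insert hl₀u, sum_union hdisj, sum_image fun p hp q hq h => hinj p hp q hq h]
  -- the symbols
  have hps : ∀ q ∈ PR n, ps n q = sgp q := fun q hq => ps_odd (hne2 q hq)
  have half : ∀ p ∈ P, al n (f p) = 0 := fun p hp => al_one (by have := hf.m8 p hp; omega)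
  have hall : al n l₀ = 1 := by
    unfold al
    rw [ps_odd (by omega), sgl hl hl4]
    exact if_pos (by have := hl.pos; omega)
  have hnuf : ∀ p ∈ P, ra (f p) 17 = 0 := fun p hp => by
    have h1 := rec1 (e := 1) (hf.pr p hp) (by have := hf.m8 p hp; omega) (by norm_num : Nat.Prime 17)
      (fun h => h17 (h ▸ hfm p hp)) (Or.inl rfl)
    rw [one_mul] at h1
    have h2 : ((17 : ℕ) : ℤ) = 17 := rfl
    rw [h2] at h1
    rw [h1, hf.s17 p hp]
  -- the symbols of `f p`
  have hfl : ∀ p ∈ P, ra (f p) (ps n l₀) = 1 := fun p hp => by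
    rw [ps_odd (by omega), sgl hl hl4]
    exact hlf p hp
  have hff : ∀ p ∈ P, ∀ q ∈ P, p ≠ q → ra (f p) (ps n (f q)) = 0 := fun p hp q hq hpq => by
    rw [hps _ (hfm q hq), sgp_one (by have := hf.m8 q hq; omega)]
    exact (hf.sf p hp q hq hpq).1
  have hPf : ∀ p ∈ P, ∀ q ∈ Q, ra q (ps n (f p)) = if q = p then 1 else 0 := fun p hp q hq => by
    rw [hps _ (hfm p hp), sgp_one (by have := hf.m8 p hp; omega)]
    exact hf.sP p hp q (hQ hq)
  have hfQ : ∀ p ∈ P, ∀ q ∈ Q, ra (f p) (ps n q) = if q = p then 1 else 0 := fun p hp q hq => by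
    obtain ⟨e, he, h1⟩ := sgp_form q
    rw [hps _ (hQm q hq), h1, rec1 (hf.pr p hp) (by have := hf.m8 p hp; omega)
      (hprime q (hQm q hq)) (fun h => hfP p hp (h ▸ hQ hq)) he]
    exact hf.sP p hp q (hQ hq)
  have hlf' : ∀ p ∈ P, ra l₀ (ps n (f p)) = 1 := fun p hp => by
    have h1 := pair hs hl₀ (hfm p hp) (hl₀f p hp).symm
    have w1 : ww n l₀ = 1 := if_neg fun h => by omega
    have w2 : ww n (f p) = 1 := if_neg fun h => hne2 _ (hfm p hp) h.1
    rw [w1, w2, half p hp, mul_zero] at h1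
    unfold aa at h1
    rw [hfl p hp] at h1
    have := zadd (1 : ZMod 2)
    linear_combination h1 - this
  intro x y hx h1 h2'
  have r1 : ∀ p ∈ PR n, ra p 17 * x p + ∑ q ∈ (PR n).erase p, ra p (ps n q) * (y q + y p) = 0 := by
    intro p hp
    have h3 := h1 p hp (by rintro rfl; exact h17 hp)
    have h4 := Lc_row (P := PR n) (a := aa n) (fun _ => 0) hp y
    rw [zero_mul, add_zero] at h4
    have h5 : ∑ q ∈ PR n, Lm n p q * y q = ∑ q ∈ PR n, Lc (PR n) (aa n) (fun _ => 0) p q * y q :=
      sum_congr rfl fun q _ => by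
        unfold Lm Lc aa
        rw [add_zero]
    rw [h5, h4] at h3
    exact h3
  have r2 : ∀ q ∈ PR n, ∑ p ∈ (PR n).erase q, (ra p (ps n q) * x p + ra q (ps n p) * x q) +
      al n q * y q = 0 := by
    intro q hq
    have h3 := h2' q hq
    have h4 := Lc_col (P := PR n) (a := aa n) (fun _ => 0) hq x
    rw [zero_mul, add_zero] at h4
    have h5 : ∑ p ∈ PR n, Lm n p q * x p = ∑ p ∈ PR n, Lc (PR n) (aa n) (fun _ => 0) p q * x p :=
      sum_congr rfl fun p _ => by
        unfold Lm Lc aa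
        rw [add_zero]
    rw [h5, h4] at h3
    exact h3
  -- an erased sum as a sum with the diagonal term zero
  have her : ∀ (p : ℕ), p ∈ PR n → ∀ g : ℕ → ZMod 2, g p = 0 →
      ∑ q ∈ (PR n).erase p, g q = ∑ q ∈ PR n, g q := fun p hp g hg => by
    rw [← add_sum_erase _ _ hp, hg, zero_add]
  -- the rows and columns of `f p`
  have kr : ∀ p ∈ P, (y l₀ + y (f p)) + (if p ∈ Q then (y p + y (f p)) else 0) = 0 := by
    intro p hp
    have h3 := r1 (f p) (hfm p hp)
    rw [hnuf p hp, zero_mul, zero_add, her (f p) (hfm p hp) _ (by rw [zadd, mul_zero]), hsum,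
      hfl p hp, one_mul] at h3
    have e1 : ∑ q ∈ P, ra (f p) (ps n (f q)) * (y (f q) + y (f p)) = 0 := sum_eq_zero fun q hq => by
      by_cases hpq : p = q
      · rw [hpq, zadd, mul_zero]
      · rw [hff p hp q hq hpq, zero_mul]
    have e2 : ∑ q ∈ Q, ra (f p) (ps n q) * (y q + y (f p)) =
        if p ∈ Q then (y p + y (f p)) else 0 := by
      rw [← sum_ite_eq' Q p fun q => y q + y (f p)]
      exact sum_congr rfl fun q hq => by
        rw [hfQ p hp q hq]
        split_ifs <;> ring
    rw [e1, e2, zero_add] at h3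
    exact h3
  have kc : ∀ p ∈ P, (x l₀ + x (f p)) + (if p ∈ Q then (x p + x (f p)) else 0) = 0 := by
    intro p hp
    have h3 := r2 (f p) (hfm p hp)
    rw [half p hp, zero_mul, add_zero, her (f p) (hfm p hp) _ (zadd _), hsum, hfl p hp,
      hlf' p hp] at h3
    have e1 : ∑ q ∈ P, (ra (f q) (ps n (f p)) * x (f q) + ra (f p) (ps n (f q)) * x (f p)) = 0 :=
      sum_eq_zero fun q hq => by
        by_cases hpq : p = q
        · rw [hpq, zadd]
        · rw [hff p hp q hq hpq, hff q hq p hp (Ne.symm hpq), zero_mul, zero_mul, add_zero]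
    have e2 : ∑ q ∈ Q, (ra q (ps n (f p)) * x q + ra (f p) (ps n q) * x (f p)) =
        if p ∈ Q then (x p + x (f p)) else 0 := by
      rw [← sum_ite_eq' Q p fun q => x q + x (f p)]
      exact sum_congr rfl fun q hq => by
        rw [hfQ p hp q hq, hPf p hp q hq]
        split_ifs <;> ring
    rw [e1, e2, zero_add] at h3
    linear_combination h3
  have yQ : ∀ p ∈ Q, y p = y l₀ := fun p hp => by
    have h3 := kr p (hQ hp)
    rw [if_pos hp] at h3
    have a1 := zadd (y (f p))
    have a2 := zadd (y l₀)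
    linear_combination h3 - a1 - a2
  have xQ : ∀ p ∈ Q, x p = x l₀ := fun p hp => by
    have h3 := kc p (hQ hp)
    rw [if_pos hp] at h3
    have a1 := zadd (x (f p))
    have a2 := zadd (x l₀)
    linear_combination h3 - a1 - a2
  -- the sum of the columns
  have y0 : y l₀ = 0 := by
    have h3 : ∑ q ∈ PR n, (∑ p ∈ (PR n).erase q, (ra p (ps n q) * x p + ra q (ps n p) * x q) +
        al n q * y q) = 0 := sum_eq_zero r2
    rw [sum_add_distrib] at h3
    have h4 : ∑ q ∈ PR n, ∑ p ∈ (PR n).erase q, (ra p (ps n q) * x p + ra q (ps n p) * x q) = 0 := by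
      have e1 : ∑ q ∈ PR n, ∑ p ∈ (PR n).erase q, (ra p (ps n q) * x p + ra q (ps n p) * x q) =
          ∑ q ∈ PR n, ∑ p ∈ (PR n).erase q, ra p (ps n q) * x p +
          ∑ q ∈ PR n, ∑ p ∈ (PR n).erase q, ra q (ps n p) * x q := by
        rw [← sum_add_distrib]
        exact sum_congr rfl fun q _ => sum_add_distrib
      rw [e1, ← swap fun p q => ra p (ps n q) * x p, zadd]
    rw [h4, zero_add, hsum, hall, one_mul] at h3
    have e1 : ∑ p ∈ P, al n (f p) * y (f p) = 0 := sum_eq_zero fun p hp => by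
      rw [half p hp, zero_mul]
    have e2 : ∑ q ∈ Q, al n q * y q = 0 := by
      have : ∑ q ∈ Q, al n q * y q = (∑ q ∈ Q, al n q) * y l₀ := by
        rw [sum_mul]
        exact sum_congr rfl fun q hq => by rw [yQ q hq]
      rw [this, hal, zero_mul]
    rw [e1, e2, add_zero, add_zero] at h3
    exact h3
  -- the sum of the rows
  have x0 : x l₀ = 0 := by
    have h3 : ∑ p ∈ PR n, (ra p 17 * x p + ∑ q ∈ (PR n).erase p, ra p (ps n q) * (y q + y p)) = 0 :=
      sum_eq_zero r1
    rw [sum_add_distrib] at h3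
    have h4 : ∑ p ∈ PR n, ∑ q ∈ (PR n).erase p, ra p (ps n q) * (y q + y p) = 0 := by
      have e1 : ∑ p ∈ PR n, ∑ q ∈ (PR n).erase p, ra p (ps n q) * (y q + y p) =
          ∑ p ∈ PR n, ∑ q ∈ (PR n).erase p, ra p (ps n q) * y q +
          ∑ p ∈ PR n, ∑ q ∈ (PR n).erase p, ra p (ps n q) * y p := by
        rw [← sum_add_distrib]
        refine sum_congr rfl fun p _ => ?_
        rw [← sum_add_distrib]
        exact sum_congr rfl fun q _ => by ring
      rw [e1, swap fun p q => ra p (ps n q) * y q, ← sum_add_distrib]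
      have hals : ∑ q ∈ PR n, al n q = 1 := by
        rw [hsum, hall, hal, add_zero, sum_eq_zero fun p hp => half p hp, add_zero]
      have e2 : ∀ q ∈ PR n, ∑ p ∈ (PR n).erase q, ra p (ps n q) * y q +
          ∑ p ∈ (PR n).erase q, ra q (ps n p) * y q = 0 := by
        intro q hq
        rw [← sum_add_distrib]
        have e3 : ∑ p ∈ (PR n).erase q, (ra p (ps n q) * y q + ra q (ps n p) * y q) =
            ∑ p ∈ (PR n).erase q, al n p * (al n q * y q) := sum_congr rfl fun p hp => by
          have h5 := pair hs (mem_of_mem_erase hp) hq (ne_of_mem_erase hp)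
          have w1 : ww n p = 1 := if_neg fun h => hne2 _ (mem_of_mem_erase hp) h.1
          have w2 : ww n q = 1 := if_neg fun h => hne2 _ hq h.1
          rw [w1, w2] at h5
          unfold aa at h5
          linear_combination y q * h5
        rw [e3, ← sum_mul]
        rw [← add_sum_erase _ _ hq] at hals
        rcases z2 (al n q) with h | h
        · rw [h]; ring
        · rw [h] at hals ⊢
          have h6 : ∑ p ∈ (PR n).erase q, al n p = 0 := by linear_combination hals
          rw [h6, zero_mul]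
      exact sum_eq_zero e2
    rw [h4, add_zero, hsum] at h3
    have e1 : ∑ p ∈ P, ra (f p) 17 * x (f p) = 0 := sum_eq_zero fun p hp => by
      rw [hnuf p hp, zero_mul]
    have e2 : ∑ q ∈ Q, ra q 17 * x q = 0 := by
      have : ∑ q ∈ Q, ra q 17 * x q = (∑ q ∈ Q, nn q) * x l₀ := by
        rw [sum_mul]
        exact sum_congr rfl fun q hq => by rw [xQ q hq]; rfl
      rw [this, hnu, zero_mul]
    have e3 : ra l₀ 17 = 1 := hl17
    rw [e1, e2, e3, add_zero, add_zero, one_mul] at h3
    exact h3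
  -- the remaining unknowns
  have fin : ∀ p ∈ P, x (f p) = 0 ∧ y (f p) = 0 := by
    intro p hp
    by_cases hpQ : p ∈ Q
    · have h3 := r1 p (hQm p hpQ)
      rw [xQ p hpQ, x0, mul_zero, zero_add, her p (hQm p hpQ) _ (by rw [zadd, mul_zero]), hsum,
        yQ p hpQ, y0] at h3
      have e1 : ∑ q ∈ Q, ra p (ps n q) * (y q + 0) = 0 := sum_eq_zero fun q hq => by
        rw [yQ q hq, y0]; ring
      have e2 : ∑ q ∈ P, ra p (ps n (f q)) * (y (f q) + 0) = y (f p) := by
        rw [sum_eq_single_of_mem p hp fun q hq hqp => by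
          rw [hPf q hq p hpQ, if_neg (Ne.symm hqp), zero_mul]]
        rw [hPf p hp p hpQ, if_pos rfl]
        ring
      rw [e1, e2] at h3
      have h4 := r2 p (hQm p hpQ)
      rw [yQ p hpQ, y0, mul_zero, add_zero, her p (hQm p hpQ) _ (zadd _), hsum, xQ p hpQ, x0] at h4
      have e3 : ∑ q ∈ Q, (ra q (ps n p) * x q + ra p (ps n q) * 0) = 0 := sum_eq_zero fun q hq => by
        rw [xQ q hq, x0]; ring
      have e4 : ∑ q ∈ P, (ra (f q) (ps n p) * x (f q) + ra p (ps n (f q)) * 0) = x (f p) := by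
        rw [sum_eq_single_of_mem p hp fun q hq hqp => by
          rw [hfQ q hq p hpQ, if_neg (Ne.symm hqp)]; ring]
        rw [hfQ p hp p hpQ, if_pos rfl]
        ring
      rw [e3, e4] at h4
      exact ⟨by linear_combination h4, by linear_combination h3⟩
    · have h3 := kr p hp
      have h4 := kc p hp
      rw [if_neg hpQ, add_zero, y0, zero_add] at h3
      rw [if_neg hpQ, add_zero, x0, zero_add] at h4
      exact ⟨h4, h3⟩
  intro p hp
  rw [hPR] at hp
  rcases mem_insert.1 hp with rfl | hp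
  · exact ⟨x0, y0⟩
  · rcases mem_union.1 hp with hp | hp
    · obtain ⟨q, hq, rfl⟩ := mem_image.1 hp
      exact fin q hq
    · exact ⟨by rw [xQ p hp, x0], by rw [yQ p hp, y0]⟩

end

end Pool.Agent.N809.SN
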