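import Pool.Agent.N809.SN.Kill

/-!
# Twists which are good for all divisors of an integer at once: real and imaginary fields
-/

set_option autoImplicit false

open Finset

namespace Pool.Agent.N809.SN

open Pool.Agent.N875.X15
open Pool.Agent.N875.P17

section

variable {P Q : Finset ℕ} {f : ℕ → ℕ} {l₀ k₀ : ℕ}

/-- **the linear algebra**: the twist with the ramified primes `l₀`, `k₀`, `f p` for `p ∈ P`, and `Q` -/
theorem sg_kill2 {n : ℤ} (hs : Squarefree n) (hPR : PR n = insert l₀ (insert k₀ (P.image f ∪ Q)))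
    (hQ : Q ⊆ P)
    (h2 : 2 ∉ PR n) (h17 : 17 ∉ PR n) (hf : Aux P P f (P.sup id))
    (hl : l₀.Prime) (hl4 : l₀ % 4 = 3) (hl17 : nn l₀ = 1) (hlf : ∀ p ∈ P, ra (f p) (-(l₀ : ℤ)) = 1)
    (hlP : l₀ ∉ P) (hk : k₀.Prime) (hk4 : k₀ % 4 = 3) (hk17 : nn k₀ = 1) (hkl : l₀ ≠ k₀)
    (hkP : k₀ ∉ P) (hkf : ∀ p ∈ P, ra (f p) (-(k₀ : ℤ)) = 0) (hkQ : ∀ p ∈ P, ra p (-(k₀ : ℤ)) = 0)
    (hkl0 : ra k₀ (-(l₀ : ℤ)) = 0) {σ : ZMod 2} (hal : ∑ p ∈ Q, al n p = σ)
    (hnu : ∑ p ∈ Q, nn p = σ) : Sg n := by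
  classical
  have hprime : ∀ q ∈ PR n, q.Prime := fun q hq => PR_prime hs.ne_zero hq
  have hne2 : ∀ q ∈ PR n, q ≠ 2 := fun q hq => by rintro rfl; exact h2 hq
  have hfP : ∀ p ∈ P, f p ∉ P := fun p hp h => by
    have h1 : f p ≤ P.sup id := le_sup (f := id) h
    have := hf.big p hp
    omega
  have hl₀f : ∀ p ∈ P, f p ≠ l₀ := fun p hp h => by
    have := hf.m8 p hp
    omega
  have hl₀ : l₀ ∈ PR n := by rw [hPR]; exact mem_insert_self _ _
  have hfm : ∀ p ∈ P, f p ∈ PR n := fun p hp => by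
    rw [hPR]
    exact mem_insert_of_mem (mem_insert_of_mem (mem_union_left _ (mem_image_of_mem _ hp)))
  have hQm : ∀ p ∈ Q, p ∈ PR n := fun p hp => by
    rw [hPR]
    exact mem_insert_of_mem (mem_insert_of_mem (mem_union_right _ hp))
  have hinj : ∀ p ∈ P, ∀ q ∈ P, f p = f q → p = q := fun p hp q hq h => by
    by_contra hpq
    exact (hf.sf p hp q hq hpq).2 h
  have hdisj : Disjoint (P.image f) Q := by
    rw [disjoint_left]
    intro x hx hx'
    obtain ⟨p, hp, rfl⟩ := mem_image.1 hx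
    exact hfP p hp (hQ hx')
  have hk₀ : k₀ ∈ PR n := by rw [hPR]; exact mem_insert_of_mem (mem_insert_self _ _)
  have hk₀f : ∀ p ∈ P, f p ≠ k₀ := fun p hp h => by
    have := hf.m8 p hp
    omega
  have hk₀u : k₀ ∉ P.image f ∪ Q := fun h => by
    rcases mem_union.1 h with h | h
    · obtain ⟨p, hp, h1⟩ := mem_image.1 h
      exact hk₀f p hp h1
    · exact hkP (hQ h)
  have hl₀u : l₀ ∉ insert k₀ (P.image f ∪ Q) := fun h => by
    rcases mem_insert.1 h with h | h
    · exact hkl h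
    · rcases mem_union.1 h with h | h
      · obtain ⟨p, hp, h1⟩ := mem_image.1 h
        exact hl₀f p hp h1
      · exact hlP (hQ h)
  -- sums over the ramified primes
  have hsum : ∀ g : ℕ → ZMod 2, ∑ q ∈ PR n, g q =
      g l₀ + (g k₀ + (∑ p ∈ P, g (f p) + ∑ q ∈ Q, g q)) := by
    intro g
    rw [hPR, sum_insert hl₀u, sum_insert hk₀u, sum_union hdisj, sum_image fun p hp q hq h => hinj p hp q hq h]
  -- the symbols
  have hps : ∀ q ∈ PR n, ps n q = sgp q := fun q hq => ps_odd (hne2 q hq)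
  have half : ∀ p ∈ P, al n (f p) = 0 := fun p hp => al_one (by have := hf.m8 p hp; omega)
  have hall : al n l₀ = 1 := by
    unfold al
    rw [ps_odd (by omega), sgl hl hl4]
    exact if_pos (by have := hl.pos; omega)
  have hallk : al n k₀ = 1 := by
    unfold al
    rw [ps_odd (by omega), sgl hk hk4]
    exact if_pos (by have := hk.pos; omega)
  have wof : ∀ q ∈ PR n, ww n q = 1 := fun q hq => if_neg fun h => hne2 _ hq h.1
  have hfk : ∀ p ∈ P, ra (f p) (ps n k₀) = 0 := fun p hp => by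
    rw [ps_odd (by omega), sgl hk hk4]
    exact hkf p hp
  have hkf' : ∀ p ∈ P, ra k₀ (ps n (f p)) = 0 := fun p hp => by
    have h1 := pair hs hk₀ (hfm p hp) (hk₀f p hp).symm
    rw [wof _ hk₀, wof _ (hfm p hp), half p hp, mul_zero] at h1
    unfold aa at h1
    rw [hfk p hp] at h1
    linear_combination h1
  have hkl1 : ra k₀ (ps n l₀) = 0 := by
    rw [ps_odd (by omega), sgl hl hl4]
    exact hkl0
  have hkl2 : ra l₀ (ps n k₀) = 1 := by
    have h1 := pair hs hl₀ hk₀ hkl
    rw [wof _ hl₀, wof _ hk₀, hall, hallk] at h1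
    unfold aa at h1
    rw [hkl1] at h1
    linear_combination h1
  have hQk : ∀ p ∈ Q, ra p (ps n k₀) = 0 := fun p hp => by
    rw [ps_odd (by omega), sgl hk hk4]
    exact hkQ p (hQ hp)
  have hkQ' : ∀ p ∈ Q, ra k₀ (ps n p) = al n p := fun p hp => by
    have h1 := pair hs hk₀ (hQm p hp) (by rintro rfl; exact hkP (hQ hp))
    rw [wof _ hk₀, wof _ (hQm p hp), hallk] at h1
    unfold aa at h1
    rw [hQk p hp] at h1
    linear_combination h1
  have hnuf : ∀ p ∈ P, ra (f p) 17 = 0 := fun p hp => by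
    have h1 := rec1 (e := 1) (hf.pr p hp) (by have := hf.m8 p hp; omega) (by norm_num : Nat.Prime 17)
      (fun h => h17 (h ▸ hfm p hp)) (Or.inl rfl)
    rw [one_mul] at h1
    have h2 : ((17 : ℕ) : ℤ) = 17 := rfl
    rw [h2] at h1
    rw [h1, hf.s17 p hp]
  -- the symbols of `f p`
  have hfl : ∀ p ∈ P, ra (f p) (ps n l₀) = 1 := fun p hp => by
    rw [ps_odd (by omega), sgl hl hl4]
    exact hlf p hp
  have hff : ∀ p ∈ P, ∀ q ∈ P, p ≠ q → ra (f p) (ps n (f q)) = 0 := fun p hp q hq hpq => by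
    rw [hps _ (hfm q hq), sgp_one (by have := hf.m8 q hq; omega)]
    exact (hf.sf p hp q hq hpq).1
  have hPf : ∀ p ∈ P, ∀ q ∈ Q, ra q (ps n (f p)) = if q = p then 1 else 0 := fun p hp q hq => by
    rw [hps _ (hfm p hp), sgp_one (by have := hf.m8 p hp; omega)]
    exact hf.sP p hp q (hQ hq)
  have hfQ : ∀ p ∈ P, ∀ q ∈ Q, ra (f p) (ps n q) = if q = p then 1 else 0 := fun p hp q hq => by
    obtain ⟨e, he, h1⟩ := sgp_form q
    rw [hps _ (hQm q hq), h1, rec1 (hf.pr p hp) (by have := hf.m8 p hp; omega)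
      (hprime q (hQm q hq)) (fun h => hfP p hp (h ▸ hQ hq)) he]
    exact hf.sP p hp q (hQ hq)
  have hlf' : ∀ p ∈ P, ra l₀ (ps n (f p)) = 1 := fun p hp => by
    have h1 := pair hs hl₀ (hfm p hp) (hl₀f p hp).symm
    have w1 : ww n l₀ = 1 := if_neg fun h => by omega
    have w2 : ww n (f p) = 1 := if_neg fun h => hne2 _ (hfm p hp) h.1
    rw [w1, w2, half p hp, mul_zero] at h1
    unfold aa at h1
    rw [hfl p hp] at h1
    have := zadd (1 : ZMod 2)
    linear_combination h1 - this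
  intro x y hx h1 h2'
  have r1 : ∀ p ∈ PR n, ra p 17 * x p + ∑ q ∈ (PR n).erase p, ra p (ps n q) * (y q + y p) = 0 := by
    intro p hp
    have h3 := h1 p hp (by rintro rfl; exact h17 hp)
    have h4 := Lc_row (P := PR n) (a := aa n) (fun _ => 0) hp y
    rw [zero_mul, add_zero] at h4
    have h5 : ∑ q ∈ PR n, Lm n p q * y q = ∑ q ∈ PR n, Lc (PR n) (aa n) (fun _ => 0) p q * y q :=
      sum_congr rfl fun q _ => by
        unfold Lm Lc aa
        rw [add_zero]
    rw [h5, h4] at h3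
    exact h3
  have r2 : ∀ q ∈ PR n, ∑ p ∈ (PR n).erase q, (ra p (ps n q) * x p + ra q (ps n p) * x q) +
      al n q * y q = 0 := by
    intro q hq
    have h3 := h2' q hq
    have h4 := Lc_col (P := PR n) (a := aa n) (fun _ => 0) hq x
    rw [zero_mul, add_zero] at h4
    have h5 : ∑ p ∈ PR n, Lm n p q * x p = ∑ p ∈ PR n, Lc (PR n) (aa n) (fun _ => 0) p q * x p :=
      sum_congr rfl fun p _ => by
        unfold Lm Lc aa
        rw [add_zero]
    rw [h5, h4] at h3
    exact h3
  -- an erased sum as a sum with the diagonal term zero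
  have her : ∀ (p : ℕ), p ∈ PR n → ∀ g : ℕ → ZMod 2, g p = 0 →
      ∑ q ∈ (PR n).erase p, g q = ∑ q ∈ PR n, g q := fun p hp g hg => by
    rw [← add_sum_erase _ _ hp, hg, zero_add]
  -- the rows and columns of `f p`
  have kr : ∀ p ∈ P, (y l₀ + y (f p)) + (if p ∈ Q then (y p + y (f p)) else 0) = 0 := by
    intro p hp
    have h3 := r1 (f p) (hfm p hp)
    rw [hnuf p hp, zero_mul, zero_add, her (f p) (hfm p hp) _ (by rw [zadd, mul_zero]), hsum,
      hfl p hp, one_mul, hfk p hp, zero_mul, zero_add] at h3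
    have e1 : ∑ q ∈ P, ra (f p) (ps n (f q)) * (y (f q) + y (f p)) = 0 := sum_eq_zero fun q hq => by
      by_cases hpq : p = q
      · rw [hpq, zadd, mul_zero]
      · rw [hff p hp q hq hpq, zero_mul]
    have e2 : ∑ q ∈ Q, ra (f p) (ps n q) * (y q + y (f p)) =
        if p ∈ Q then (y p + y (f p)) else 0 := by
      rw [← sum_ite_eq' Q p fun q => y q + y (f p)]
      exact sum_congr rfl fun q hq => by
        rw [hfQ p hp q hq]
        split_ifs <;> ring
    rw [e1, e2, zero_add] at h3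
    exact h3
  have kc : ∀ p ∈ P, (x l₀ + x (f p)) + (if p ∈ Q then (x p + x (f p)) else 0) = 0 := by
    intro p hp
    have h3 := r2 (f p) (hfm p hp)
    rw [half p hp, zero_mul, add_zero, her (f p) (hfm p hp) _ (zadd _), hsum, hfl p hp,
      hlf' p hp, hfk p hp, hkf' p hp] at h3
    have e1 : ∑ q ∈ P, (ra (f q) (ps n (f p)) * x (f q) + ra (f p) (ps n (f q)) * x (f p)) = 0 :=
      sum_eq_zero fun q hq => by
        by_cases hpq : p = q
        · rw [hpq, zadd]
        · rw [hff p hp q hq hpq, hff q hq p hp (Ne.symm hpq), zero_mul, zero_mul, add_zero]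
    have e2 : ∑ q ∈ Q, (ra q (ps n (f p)) * x q + ra (f p) (ps n q) * x (f p)) =
        if p ∈ Q then (x p + x (f p)) else 0 := by
      rw [← sum_ite_eq' Q p fun q => x q + x (f p)]
      exact sum_congr rfl fun q hq => by
        rw [hfQ p hp q hq, hPf p hp q hq]
        split_ifs <;> ring
    rw [e1, e2, zero_add] at h3
    linear_combination h3
  have yQ : ∀ p ∈ Q, y p = y l₀ := fun p hp => by
    have h3 := kr p (hQ hp)
    rw [if_pos hp] at h3
    have a1 := zadd (y (f p))
    have a2 := zadd (y l₀)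
    linear_combination h3 - a1 - a2
  have xQ : ∀ p ∈ Q, x p = x l₀ := fun p hp => by
    have h3 := kc p (hQ hp)
    rw [if_pos hp] at h3
    have a1 := zadd (x (f p))
    have a2 := zadd (x l₀)
    linear_combination h3 - a1 - a2
  -- the sum of the columns
  have eq1 : y l₀ + y k₀ + σ * y l₀ = 0 := by
    have h3 : ∑ q ∈ PR n, (∑ p ∈ (PR n).erase q, (ra p (ps n q) * x p + ra q (ps n p) * x q) +
        al n q * y q) = 0 := sum_eq_zero r2
    rw [sum_add_distrib] at h3
    have h4 : ∑ q ∈ PR n, ∑ p ∈ (PR n).erase q, (ra p (ps n q) * x p + ra q (ps n p) * x q) = 0 := by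
      have e1 : ∑ q ∈ PR n, ∑ p ∈ (PR n).erase q, (ra p (ps n q) * x p + ra q (ps n p) * x q) =
          ∑ q ∈ PR n, ∑ p ∈ (PR n).erase q, ra p (ps n q) * x p +
          ∑ q ∈ PR n, ∑ p ∈ (PR n).erase q, ra q (ps n p) * x q := by
        rw [← sum_add_distrib]
        exact sum_congr rfl fun q _ => sum_add_distrib
      rw [e1, ← swap fun p q => ra p (ps n q) * x p, zadd]
    rw [h4, zero_add, hsum, hall, hallk, one_mul, one_mul] at h3
    have e1 : ∑ p ∈ P, al n (f p) * y (f p) = 0 := sum_eq_zero fun p hp => by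
      rw [half p hp, zero_mul]
    have e2 : ∑ q ∈ Q, al n q * y q = σ * y l₀ := by
      rw [← hal, sum_mul]
      exact sum_congr rfl fun q hq => by rw [yQ q hq]
    rw [e1, e2] at h3
    linear_combination h3
  -- the sum of the rows
  have eq2 : x l₀ + x k₀ + σ * x l₀ = 0 := by
    have h3 : ∑ p ∈ PR n, (ra p 17 * x p + ∑ q ∈ (PR n).erase p, ra p (ps n q) * (y q + y p)) = 0 :=
      sum_eq_zero r1
    rw [sum_add_distrib] at h3
    have h4 : ∑ p ∈ PR n, ∑ q ∈ (PR n).erase p, ra p (ps n q) * (y q + y p) = 0 := by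
      have e1 : ∑ p ∈ PR n, ∑ q ∈ (PR n).erase p, ra p (ps n q) * (y q + y p) =
          ∑ p ∈ PR n, ∑ q ∈ (PR n).erase p, ra p (ps n q) * y q +
          ∑ p ∈ PR n, ∑ q ∈ (PR n).erase p, ra p (ps n q) * y p := by
        rw [← sum_add_distrib]
        refine sum_congr rfl fun p _ => ?_
        rw [← sum_add_distrib]
        exact sum_congr rfl fun q _ => by ring
      rw [e1, swap fun p q => ra p (ps n q) * y q, ← sum_add_distrib]
      have hals : ∑ q ∈ PR n, al n q = σ := by
        rw [hsum, hall, hallk, hal, sum_eq_zero fun p hp => half p hp, zero_add]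
        have := zadd (1 : ZMod 2)
        linear_combination this
      have hcs : ∑ q ∈ PR n, al n q * y q = 0 := by
        rw [hsum, hall, hallk, one_mul, one_mul]
        have e1 : ∑ p ∈ P, al n (f p) * y (f p) = 0 := sum_eq_zero fun p hp => by
          rw [half p hp, zero_mul]
        have e2 : ∑ q ∈ Q, al n q * y q = σ * y l₀ := by
          rw [← hal, sum_mul]
          exact sum_congr rfl fun q hq => by rw [yQ q hq]
        rw [e1, e2]
        linear_combination eq1
      have e2 : ∀ q ∈ PR n, ∑ p ∈ (PR n).erase q, ra p (ps n q) * y q +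
          ∑ p ∈ (PR n).erase q, ra q (ps n p) * y q = (σ + 1) * (al n q * y q) := by
        intro q hq
        rw [← sum_add_distrib]
        have e3 : ∑ p ∈ (PR n).erase q, (ra p (ps n q) * y q + ra q (ps n p) * y q) =
            ∑ p ∈ (PR n).erase q, al n p * (al n q * y q) := sum_congr rfl fun p hp => by
          have h5 := pair hs (mem_of_mem_erase hp) hq (ne_of_mem_erase hp)
          rw [wof _ (mem_of_mem_erase hp), wof _ hq] at h5
          unfold aa at h5
          linear_combination y q * h5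
        rw [e3, ← sum_mul]
        rw [← add_sum_erase _ _ hq] at hals
        rcases z2 (al n q) with h | h
        · rw [h]; ring
        · rw [h] at hals ⊢
          have h6 : ∑ p ∈ (PR n).erase q, al n p = σ + 1 := by
            have := zadd (1 : ZMod 2)
            linear_combination hals - this
          rw [h6]
      rw [sum_congr rfl e2, ← mul_sum, hcs, mul_zero]
    rw [h4, add_zero, hsum] at h3
    have e1 : ∑ p ∈ P, ra (f p) 17 * x (f p) = 0 := sum_eq_zero fun p hp => by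
      rw [hnuf p hp, zero_mul]
    have e2 : ∑ q ∈ Q, ra q 17 * x q = σ * x l₀ := by
      rw [← hnu, sum_mul]
      exact sum_congr rfl fun q hq => by rw [xQ q hq]; rfl
    have e3 : ra l₀ 17 = 1 := hl17
    have e4 : ra k₀ 17 = 1 := hk17
    rw [e1, e2, e3, e4] at h3
    linear_combination h3
  -- the row and the column of `k₀`
  have eq3 : x k₀ + σ * (y l₀ + y k₀) = 0 := by
    have h3 := r1 k₀ hk₀
    have e4 : ra k₀ 17 = 1 := hk17
    rw [e4, her k₀ hk₀ _ (by rw [zadd, mul_zero]), hsum, hkl1, zadd, mul_zero] at h3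
    have e1 : ∑ q ∈ P, ra k₀ (ps n (f q)) * (y (f q) + y k₀) = 0 := sum_eq_zero fun q hq => by
      rw [hkf' q hq, zero_mul]
    have e2 : ∑ q ∈ Q, ra k₀ (ps n q) * (y q + y k₀) = σ * (y l₀ + y k₀) := by
      rw [← hal, sum_mul]
      exact sum_congr rfl fun q hq => by rw [hkQ' q hq, yQ q hq]
    rw [e1, e2] at h3
    linear_combination h3
  have eq4 : x l₀ + σ * x k₀ + y k₀ = 0 := by
    have h3 := r2 k₀ hk₀
    rw [her k₀ hk₀ _ (zadd _), hsum, hkl1, hkl2, hallk, zadd] at h3
    have e1 : ∑ q ∈ P, (ra (f q) (ps n k₀) * x (f q) + ra k₀ (ps n (f q)) * x k₀) = 0 :=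
      sum_eq_zero fun q hq => by
        rw [hkf' q hq, hfk q hq]; ring
    have e2 : ∑ q ∈ Q, (ra q (ps n k₀) * x q + ra k₀ (ps n q) * x k₀) = σ * x k₀ := by
      rw [← hal, sum_mul]
      exact sum_congr rfl fun q hq => by rw [hkQ' q hq, hQk q hq]; ring
    rw [e1, e2] at h3
    linear_combination h3
  obtain ⟨x0, y0, xk, yk⟩ : x l₀ = 0 ∧ y l₀ = 0 ∧ x k₀ = 0 ∧ y k₀ = 0 := by
    have key : ∀ a b c d s : ZMod 2, b + d + s * b = 0 → a + c + s * a = 0 →
        c + s * (b + d) = 0 → a + s * c + d = 0 → a = 0 ∧ b = 0 ∧ c = 0 ∧ d = 0 := by decide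
    exact key _ _ _ _ σ eq1 eq2 eq3 eq4
  -- the remaining unknowns
  have fin : ∀ p ∈ P, x (f p) = 0 ∧ y (f p) = 0 := by
    intro p hp
    by_cases hpQ : p ∈ Q
    · have h3 := r1 p (hQm p hpQ)
      rw [xQ p hpQ, x0, mul_zero, zero_add, her p (hQm p hpQ) _ (by rw [zadd, mul_zero]), hsum,
        yQ p hpQ, y0, yk] at h3
      have e1 : ∑ q ∈ Q, ra p (ps n q) * (y q + 0) = 0 := sum_eq_zero fun q hq => by
        rw [yQ q hq, y0]; ring
      have e2 : ∑ q ∈ P, ra p (ps n (f q)) * (y (f q) + 0) = y (f p) := by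
        rw [sum_eq_single_of_mem p hp fun q hq hqp => by
          rw [hPf q hq p hpQ, if_neg (Ne.symm hqp), zero_mul]]
        rw [hPf p hp p hpQ, if_pos rfl]
        ring
      rw [e1, e2] at h3
      have h4 := r2 p (hQm p hpQ)
      rw [yQ p hpQ, y0, mul_zero, add_zero, her p (hQm p hpQ) _ (zadd _), hsum, xQ p hpQ, x0,
        xk] at h4
      have e3 : ∑ q ∈ Q, (ra q (ps n p) * x q + ra p (ps n q) * 0) = 0 := sum_eq_zero fun q hq => by
        rw [xQ q hq, x0]; ring
      have e4 : ∑ q ∈ P, (ra (f q) (ps n p) * x (f q) + ra p (ps n (f q)) * 0) = x (f p) := by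
        rw [sum_eq_single_of_mem p hp fun q hq hqp => by
          rw [hfQ q hq p hpQ, if_neg (Ne.symm hqp)]; ring]
        rw [hfQ p hp p hpQ, if_pos rfl]
        ring
      rw [e3, e4] at h4
      exact ⟨by linear_combination h4, by linear_combination h3⟩
    · have h3 := kr p hp
      have h4 := kc p hp
      rw [if_neg hpQ, add_zero, y0, zero_add] at h3
      rw [if_neg hpQ, add_zero, x0, zero_add] at h4
      exact ⟨h4, h3⟩
  intro p hp
  rw [hPR] at hp
  rcases mem_insert.1 hp with rfl | hp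
  · exact ⟨x0, y0⟩
  · rcases mem_insert.1 hp with rfl | hp
    · exact ⟨xk, yk⟩
    · rcases mem_union.1 hp with hp | hp
      · obtain ⟨q, hq, rfl⟩ := mem_image.1 hp
        exact fin q hq
      · exact ⟨by rw [xQ p hp, x0], by rw [yQ p hp, y0]⟩

end

end Pool.Agent.N809.SN
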