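import Pool.Agent.N809.SN.Kill2

/-!
# Twists which are good for all divisors of an integer at once: the twists divisible by `17`
-/

set_option autoImplicit false

open Finset

namespace Pool.Agent.N809.SN

open Pool.Agent.N875.X15
open Pool.Agent.N875.P17

section

variable {P Q : Finset ℕ} {f : ℕ → ℕ} {l₀ k₀ : ℕ}

/-- **the linear algebra**: the twist with the ramified primes `17`, `l₀`, `k₀`, `f p` for `p ∈ P`, and `Q` -/
theorem sg_kill3 {n : ℤ} (hs : Squarefree n)
    (hPR : PR n = insert 17 (insert l₀ (insert k₀ (P.image f ∪ Q))))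
    (hQ : Q ⊆ P) (h2 : 2 ∉ PR n) (h17P : 17 ∉ P) (hf : Aux P P f (P.sup id))
    (hf17 : ∀ p ∈ P, f p ≠ 17)
    (hl : l₀.Prime) (hl4 : l₀ % 4 = 3) (hl17 : nn l₀ = 1) (hlf : ∀ p ∈ P, ra (f p) (-(l₀ : ℤ)) = 1)
    (hlP : l₀ ∉ P) (hk : k₀.Prime) (hk4 : k₀ % 4 = 1) (hk17 : nn k₀ = 1) (hk17' : k₀ ≠ 17)
    (hkP : k₀ ∉ P) (hkf0 : ∀ p ∈ P, f p ≠ k₀) (hkf : ∀ p ∈ P, ra (f p) (k₀ : ℤ) = 0)
    (hkQ : ∀ p ∈ P, ra p (k₀ : ℤ) = 0) (hkl0 : ra k₀ (-(l₀ : ℤ)) = 1)
    (hal : ∑ p ∈ Q, al n p = 0) : Sg n := by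
  classical
  have hprime : ∀ q ∈ PR n, q.Prime := fun q hq => PR_prime hs.ne_zero hq
  have hne2 : ∀ q ∈ PR n, q ≠ 2 := fun q hq => by rintro rfl; exact h2 hq
  have hfP : ∀ p ∈ P, f p ∉ P := fun p hp h => by
    have h1 : f p ≤ P.sup id := le_sup (f := id) h
    have := hf.big p hp
    omega
  have hl₀f : ∀ p ∈ P, f p ≠ l₀ := fun p hp h => by
    have := hf.m8 p hp
    omega
  have hkl : l₀ ≠ k₀ := by omega
  have hl₀17 : l₀ ≠ 17 := by omega
  have h17m : 17 ∈ PR n := by rw [hPR]; exact mem_insert_self _ _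
  have hl₀ : l₀ ∈ PR n := by rw [hPR]; exact mem_insert_of_mem (mem_insert_self _ _)
  have hk₀ : k₀ ∈ PR n := by
    rw [hPR]; exact mem_insert_of_mem (mem_insert_of_mem (mem_insert_self _ _))
  have hfm : ∀ p ∈ P, f p ∈ PR n := fun p hp => by
    rw [hPR]
    exact mem_insert_of_mem (mem_insert_of_mem (mem_insert_of_mem
      (mem_union_left _ (mem_image_of_mem _ hp))))
  have hQm : ∀ p ∈ Q, p ∈ PR n := fun p hp => by
    rw [hPR]
    exact mem_insert_of_mem (mem_insert_of_mem (mem_insert_of_mem (mem_union_right _ hp)))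
  have hinj : ∀ p ∈ P, ∀ q ∈ P, f p = f q → p = q := fun p hp q hq h => by
    by_contra hpq
    exact (hf.sf p hp q hq hpq).2 h
  have hdisj : Disjoint (P.image f) Q := by
    rw [disjoint_left]
    intro x hx hx'
    obtain ⟨p, hp, rfl⟩ := mem_image.1 hx
    exact hfP p hp (hQ hx')
  have hk₀u : k₀ ∉ P.image f ∪ Q := fun h => by
    rcases mem_union.1 h with h | h
    · obtain ⟨p, hp, h1⟩ := mem_image.1 h
      exact hkf0 p hp h1
    · exact hkP (hQ h)
  have hl₀u : l₀ ∉ insert k₀ (P.image f ∪ Q) := fun h => by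
    rcases mem_insert.1 h with h | h
    · exact hkl h
    · rcases mem_union.1 h with h | h
      · obtain ⟨p, hp, h1⟩ := mem_image.1 h
        exact hl₀f p hp h1
      · exact hlP (hQ h)
  have h17u : 17 ∉ insert l₀ (insert k₀ (P.image f ∪ Q)) := fun h => by
    rcases mem_insert.1 h with h | h
    · exact hl₀17 h.symm
    · rcases mem_insert.1 h with h | h
      · exact hk17' h.symm
      · rcases mem_union.1 h with h | h
        · obtain ⟨p, hp, h1⟩ := mem_image.1 h
          exact hf17 p hp h1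
        · exact h17P (hQ h)
  -- sums over the ramified primes
  have hsum : ∀ g : ℕ → ZMod 2, ∑ q ∈ PR n, g q =
      g 17 + (g l₀ + (g k₀ + (∑ p ∈ P, g (f p) + ∑ q ∈ Q, g q))) := by
    intro g
    rw [hPR, sum_insert h17u, sum_insert hl₀u, sum_insert hk₀u, sum_union hdisj,
      sum_image fun p hp q hq h => hinj p hp q hq h]
  -- the symbols
  have hps : ∀ q ∈ PR n, ps n q = sgp q := fun q hq => ps_odd (hne2 q hq)
  have half : ∀ p ∈ P, al n (f p) = 0 := fun p hp => al_one (by have := hf.m8 p hp; omega)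
  have hal17 : al n 17 = 0 := al_one (by norm_num)
  have hall : al n l₀ = 1 := by
    unfold al
    rw [ps_odd (by omega), sgl hl hl4]
    exact if_pos (by have := hl.pos; omega)
  have hallk : al n k₀ = 0 := al_one hk4
  have wof : ∀ q ∈ PR n, ww n q = 1 := fun q hq => if_neg fun h => hne2 _ hq h.1
  have hp17 : Nat.Prime 17 := by norm_num
  -- the symbols of `17`
  have hq17 : ∀ q ∈ PR n, q ≠ 17 → ra q (ps n 17) = ra q 17 := fun q hq hq17 => by
    rw [ps_odd (by norm_num), sgp17]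
  have h17q : ∀ q ∈ PR n, q ≠ 17 → ra 17 (ps n q) = ra q 17 := fun q hq hq17' => by
    have h1 := pair hs h17m hq (Ne.symm hq17')
    rw [wof _ h17m, wof _ hq, hal17, zero_mul] at h1
    unfold aa at h1
    rw [hq17 q hq hq17'] at h1
    have := zadd (ra q 17)
    linear_combination h1 - this
  have hnuf : ∀ p ∈ P, ra (f p) 17 = 0 := fun p hp => by
    rw [← h17q _ (hfm p hp) (hf17 p hp), hps _ (hfm p hp),
      sgp_one (by have := hf.m8 p hp; omega)]
    exact hf.s17 p hp
  -- the symbols of `f p`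
  have hfl : ∀ p ∈ P, ra (f p) (ps n l₀) = 1 := fun p hp => by
    rw [ps_odd (by omega), sgl hl hl4]
    exact hlf p hp
  have hff : ∀ p ∈ P, ∀ q ∈ P, p ≠ q → ra (f p) (ps n (f q)) = 0 := fun p hp q hq hpq => by
    rw [hps _ (hfm q hq), sgp_one (by have := hf.m8 q hq; omega)]
    exact (hf.sf p hp q hq hpq).1
  have hPf : ∀ p ∈ P, ∀ q ∈ Q, ra q (ps n (f p)) = if q = p then 1 else 0 := fun p hp q hq => by
    rw [hps _ (hfm p hp), sgp_one (by have := hf.m8 p hp; omega)]
    exact hf.sP p hp q (hQ hq)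
  have hfQ : ∀ p ∈ P, ∀ q ∈ Q, ra (f p) (ps n q) = if q = p then 1 else 0 := fun p hp q hq => by
    obtain ⟨e, he, h1⟩ := sgp_form q
    rw [hps _ (hQm q hq), h1, rec1 (hf.pr p hp) (by have := hf.m8 p hp; omega)
      (hprime q (hQm q hq)) (fun h => hfP p hp (h ▸ hQ hq)) he]
    exact hf.sP p hp q (hQ hq)
  have hlf' : ∀ p ∈ P, ra l₀ (ps n (f p)) = 1 := fun p hp => by
    have h1 := pair hs hl₀ (hfm p hp) (hl₀f p hp).symm
    rw [wof _ hl₀, wof _ (hfm p hp), half p hp, mul_zero] at h1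
    unfold aa at h1
    rw [hfl p hp] at h1
    have := zadd (1 : ZMod 2)
    linear_combination h1 - this
  -- the symbols of `k₀`
  have hpsk : ps n k₀ = (k₀ : ℤ) := by rw [hps _ hk₀, sgp_one hk4]
  have hfk : ∀ p ∈ P, ra (f p) (ps n k₀) = 0 := fun p hp => by rw [hpsk]; exact hkf p hp
  have hkf' : ∀ p ∈ P, ra k₀ (ps n (f p)) = 0 := fun p hp => by
    have h1 := pair hs hk₀ (hfm p hp) (hkf0 p hp).symm
    rw [wof _ hk₀, wof _ (hfm p hp), half p hp, mul_zero] at h1
    unfold aa at h1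
    rw [hfk p hp] at h1
    linear_combination h1
  have hkl1 : ra k₀ (ps n l₀) = 1 := by
    rw [ps_odd (by omega), sgl hl hl4]
    exact hkl0
  have hkl2 : ra l₀ (ps n k₀) = 1 := by
    have h1 := pair hs hl₀ hk₀ hkl
    rw [wof _ hl₀, wof _ hk₀, hallk, mul_zero] at h1
    unfold aa at h1
    rw [hkl1] at h1
    have := zadd (1 : ZMod 2)
    linear_combination h1 - this
  have hQk : ∀ p ∈ Q, ra p (ps n k₀) = 0 := fun p hp => by rw [hpsk]; exact hkQ p (hQ hp)
  have hkQ' : ∀ p ∈ Q, ra k₀ (ps n p) = 0 := fun p hp => by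
    have h1 := pair hs hk₀ (hQm p hp) (by rintro rfl; exact hkP (hQ hp))
    rw [wof _ hk₀, wof _ (hQm p hp), hallk, zero_mul] at h1
    unfold aa at h1
    rw [hQk p hp] at h1
    linear_combination h1
  intro x y hx h1 h2'
  have r1 : ∀ p ∈ PR n, p ≠ 17 →
      ra p 17 * x p + ∑ q ∈ (PR n).erase p, ra p (ps n q) * (y q + y p) = 0 := by
    intro p hp hp17
    have h3 := h1 p hp hp17
    have h4 := Lc_row (P := PR n) (a := aa n) (fun _ => 0) hp y
    rw [zero_mul, add_zero] at h4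
    have h5 : ∑ q ∈ PR n, Lm n p q * y q = ∑ q ∈ PR n, Lc (PR n) (aa n) (fun _ => 0) p q * y q :=
      sum_congr rfl fun q _ => by
        unfold Lm Lc aa
        rw [add_zero]
    rw [h5, h4] at h3
    exact h3
  have r2 : ∀ q ∈ PR n, ∑ p ∈ (PR n).erase q, (ra p (ps n q) * x p + ra q (ps n p) * x q) +
      al n q * y q = 0 := by
    intro q hq
    have h3 := h2' q hq
    have h4 := Lc_col (P := PR n) (a := aa n) (fun _ => 0) hq x
    rw [zero_mul, add_zero] at h4
    have h5 : ∑ p ∈ PR n, Lm n p q * x p = ∑ p ∈ PR n, Lc (PR n) (aa n) (fun _ => 0) p q * x p :=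
      sum_congr rfl fun p _ => by
        unfold Lm Lc aa
        rw [add_zero]
    rw [h5, h4] at h3
    exact h3
  -- an erased sum as a sum with the diagonal term zero
  have her : ∀ (p : ℕ), p ∈ PR n → ∀ g : ℕ → ZMod 2, g p = 0 →
      ∑ q ∈ (PR n).erase p, g q = ∑ q ∈ PR n, g q := fun p hp g hg => by
    rw [← add_sum_erase _ _ hp, hg, zero_add]
  -- the rows and columns of `f p`
  have kr : ∀ p ∈ P, (y l₀ + y (f p)) + (if p ∈ Q then (y p + y (f p)) else 0) = 0 := by
    intro p hp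
    have h3 := r1 (f p) (hfm p hp) (hf17 p hp)
    rw [hnuf p hp, zero_mul, zero_add, her (f p) (hfm p hp) _ (by rw [zadd, mul_zero]), hsum,
      hq17 _ (hfm p hp) (hf17 p hp), hnuf p hp, zero_mul, zero_add,
      hfl p hp, one_mul, hfk p hp, zero_mul, zero_add] at h3
    have e1 : ∑ q ∈ P, ra (f p) (ps n (f q)) * (y (f q) + y (f p)) = 0 := sum_eq_zero fun q hq => by
      by_cases hpq : p = q
      · rw [hpq, zadd, mul_zero]
      · rw [hff p hp q hq hpq, zero_mul]
    have e2 : ∑ q ∈ Q, ra (f p) (ps n q) * (y q + y (f p)) =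
        if p ∈ Q then (y p + y (f p)) else 0 := by
      rw [← sum_ite_eq' Q p fun q => y q + y (f p)]
      exact sum_congr rfl fun q hq => by
        rw [hfQ p hp q hq]
        split_ifs <;> ring
    rw [e1, e2, zero_add] at h3
    exact h3
  have kc : ∀ p ∈ P, (x l₀ + x (f p)) + (if p ∈ Q then (x p + x (f p)) else 0) = 0 := by
    intro p hp
    have h3 := r2 (f p) (hfm p hp)
    rw [half p hp, zero_mul, add_zero, her (f p) (hfm p hp) _ (zadd _), hsum,
      hq17 _ (hfm p hp) (hf17 p hp), h17q _ (hfm p hp) (hf17 p hp), hnuf p hp, hfl p hp,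
      hlf' p hp, hfk p hp, hkf' p hp] at h3
    have e1 : ∑ q ∈ P, (ra (f q) (ps n (f p)) * x (f q) + ra (f p) (ps n (f q)) * x (f p)) = 0 :=
      sum_eq_zero fun q hq => by
        by_cases hpq : p = q
        · rw [hpq, zadd]
        · rw [hff p hp q hq hpq, hff q hq p hp (Ne.symm hpq), zero_mul, zero_mul, add_zero]
    have e2 : ∑ q ∈ Q, (ra q (ps n (f p)) * x q + ra (f p) (ps n q) * x (f p)) =
        if p ∈ Q then (x p + x (f p)) else 0 := by
      rw [← sum_ite_eq' Q p fun q => x q + x (f p)]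
      exact sum_congr rfl fun q hq => by
        rw [hfQ p hp q hq, hPf p hp q hq]
        split_ifs <;> ring
    rw [e1, e2, zero_add] at h3
    linear_combination h3
  have yQ : ∀ p ∈ Q, y p = y l₀ := fun p hp => by
    have h3 := kr p (hQ hp)
    rw [if_pos hp] at h3
    have a1 := zadd (y (f p))
    have a2 := zadd (y l₀)
    linear_combination h3 - a1 - a2
  have xQ : ∀ p ∈ Q, x p = x l₀ := fun p hp => by
    have h3 := kc p (hQ hp)
    rw [if_pos hp] at h3
    have a1 := zadd (x (f p))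
    have a2 := zadd (x l₀)
    linear_combination h3 - a1 - a2
  set τ : ZMod 2 := ∑ p ∈ Q, ra p 17 with hτ
  have hnl : ra l₀ 17 = 1 := hl17
  have hnk : ra k₀ 17 = 1 := hk17
  -- the sum of the columns
  have y0 : y l₀ = 0 := by
    have h3 : ∑ q ∈ PR n, (∑ p ∈ (PR n).erase q, (ra p (ps n q) * x p + ra q (ps n p) * x q) +
        al n q * y q) = 0 := sum_eq_zero r2
    rw [sum_add_distrib] at h3
    have h4 : ∑ q ∈ PR n, ∑ p ∈ (PR n).erase q, (ra p (ps n q) * x p + ra q (ps n p) * x q) = 0 := by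
      have e1 : ∑ q ∈ PR n, ∑ p ∈ (PR n).erase q, (ra p (ps n q) * x p + ra q (ps n p) * x q) =
          ∑ q ∈ PR n, ∑ p ∈ (PR n).erase q, ra p (ps n q) * x p +
          ∑ q ∈ PR n, ∑ p ∈ (PR n).erase q, ra q (ps n p) * x q := by
        rw [← sum_add_distrib]
        exact sum_congr rfl fun q _ => sum_add_distrib
      rw [e1, ← swap fun p q => ra p (ps n q) * x p, zadd]
    rw [h4, zero_add, hsum, hal17, hall, hallk, one_mul, zero_mul, zero_mul] at h3
    have e1 : ∑ p ∈ P, al n (f p) * y (f p) = 0 := sum_eq_zero fun p hp => by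
      rw [half p hp, zero_mul]
    have e2 : ∑ q ∈ Q, al n q * y q = 0 := by
      have : ∑ q ∈ Q, al n q * y q = (∑ q ∈ Q, al n q) * y l₀ := by
        rw [sum_mul]
        exact sum_congr rfl fun q hq => by rw [yQ q hq]
      rw [this, hal, zero_mul]
    rw [e1, e2] at h3
    linear_combination h3
  -- the column of `17`
  have eqc : (1 + τ) * x l₀ + x k₀ = 0 := by
    have h3 := r2 17 h17m
    rw [hal17, zero_mul, add_zero, her 17 h17m _ (zadd _), hsum, hx, hq17 _ hl₀ hl₀17,
      hq17 _ hk₀ hk17', hnl, hnk] at h3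
    have e1 : ∑ p ∈ P, (ra (f p) (ps n 17) * x (f p) + ra 17 (ps n (f p)) * 0) = 0 :=
      sum_eq_zero fun p hp => by
        rw [hq17 _ (hfm p hp) (hf17 p hp), hnuf p hp]; ring
    have e2 : ∑ p ∈ Q, (ra p (ps n 17) * x p + ra 17 (ps n p) * 0) = τ * x l₀ := by
      rw [hτ, sum_mul]
      exact sum_congr rfl fun p hp => by
        rw [hq17 _ (hQm p hp) (by rintro rfl; exact h17P (hQ hp)), xQ p hp]; ring
    rw [e1, e2] at h3
    linear_combination h3
  -- the sum of the rows
  have eqr : y k₀ + τ * y 17 = 0 := by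
    have h3 : ∑ p ∈ (PR n).erase 17,
        (ra p 17 * x p + ∑ q ∈ (PR n).erase p, ra p (ps n q) * (y q + y p)) = 0 :=
      sum_eq_zero fun p hp => r1 p (mem_of_mem_erase hp) (ne_of_mem_erase hp)
    rw [sum_add_distrib] at h3
    have h4 : ∑ p ∈ PR n, ∑ q ∈ (PR n).erase p, ra p (ps n q) * (y q + y p) = 0 := by
      have e1 : ∑ p ∈ PR n, ∑ q ∈ (PR n).erase p, ra p (ps n q) * (y q + y p) =
          ∑ p ∈ PR n, ∑ q ∈ (PR n).erase p, ra p (ps n q) * y q +
          ∑ p ∈ PR n, ∑ q ∈ (PR n).erase p, ra p (ps n q) * y p := by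
        rw [← sum_add_distrib]
        refine sum_congr rfl fun p _ => ?_
        rw [← sum_add_distrib]
        exact sum_congr rfl fun q _ => by ring
      rw [e1, swap fun p q => ra p (ps n q) * y q, ← sum_add_distrib]
      have hals : ∑ q ∈ PR n, al n q = 1 := by
        rw [hsum, hal17, hall, hallk, hal, sum_eq_zero fun p hp => half p hp]
        ring
      have e2 : ∀ q ∈ PR n, ∑ p ∈ (PR n).erase q, ra p (ps n q) * y q +
          ∑ p ∈ (PR n).erase q, ra q (ps n p) * y q = 0 := by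
        intro q hq
        rw [← sum_add_distrib]
        have e3 : ∑ p ∈ (PR n).erase q, (ra p (ps n q) * y q + ra q (ps n p) * y q) =
            ∑ p ∈ (PR n).erase q, al n p * (al n q * y q) := sum_congr rfl fun p hp => by
          have h5 := pair hs (mem_of_mem_erase hp) hq (ne_of_mem_erase hp)
          rw [wof _ (mem_of_mem_erase hp), wof _ hq] at h5
          unfold aa at h5
          linear_combination y q * h5
        rw [e3, ← sum_mul]
        rw [← add_sum_erase _ _ hq] at hals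
        rcases z2 (al n q) with h | h
        · rw [h]; ring
        · rw [h] at hals ⊢
          have h6 : ∑ p ∈ (PR n).erase q, al n p = 0 := by linear_combination hals
          rw [h6, zero_mul]
      exact sum_eq_zero e2
    rw [← add_sum_erase _ _ h17m] at h4
    have h5 : ∑ q ∈ (PR n).erase 17, ra 17 (ps n q) * (y q + y 17) =
        (y l₀ + y 17) + (y k₀ + y 17) + τ * (y l₀ + y 17) := by
      rw [her 17 h17m _ (by rw [zadd, mul_zero]), hsum, zadd, mul_zero, h17q _ hl₀ hl₀17,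
        h17q _ hk₀ hk17', hnl, hnk]
      have e1 : ∑ p ∈ P, ra 17 (ps n (f p)) * (y (f p) + y 17) = 0 := sum_eq_zero fun p hp => by
        rw [h17q _ (hfm p hp) (hf17 p hp), hnuf p hp, zero_mul]
      have e2 : ∑ p ∈ Q, ra 17 (ps n p) * (y p + y 17) = τ * (y l₀ + y 17) := by
        rw [hτ, sum_mul]
        exact sum_congr rfl fun p hp => by
          rw [h17q _ (hQm p hp) (by rintro rfl; exact h17P (hQ hp)), yQ p hp]
      rw [e1, e2]
      ring
    have h6 : ∑ p ∈ (PR n).erase 17, ra p 17 * x p = (1 + τ) * x l₀ + x k₀ := by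
      have h7 : ∑ p ∈ (PR n).erase 17, ra p 17 * x p = ∑ p ∈ PR n, ra p 17 * x p := by
        rw [← add_sum_erase _ _ h17m, hx, mul_zero, zero_add]
      rw [h7, hsum, hx, hnl, hnk]
      have e1 : ∑ p ∈ P, ra (f p) 17 * x (f p) = 0 := sum_eq_zero fun p hp => by
        rw [hnuf p hp, zero_mul]
      have e2 : ∑ p ∈ Q, ra p 17 * x p = τ * x l₀ := by
        rw [hτ, sum_mul]
        exact sum_congr rfl fun p hp => by rw [xQ p hp]
      rw [e1, e2]
      ring
    rw [h5, y0] at h4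
    rw [h6, eqc] at h3
    have h8 := zadd (y 17)
    linear_combination h4 - h3 - h8
  -- the row and the column of `k₀`
  have eq3 : x k₀ + y 17 = 0 := by
    have h3 := r1 k₀ hk₀ hk17'
    rw [hnk, her k₀ hk₀ _ (by rw [zadd, mul_zero]), hsum, hq17 _ hk₀ hk17', hnk, hkl1, zadd,
      mul_zero, y0] at h3
    have e1 : ∑ q ∈ P, ra k₀ (ps n (f q)) * (y (f q) + y k₀) = 0 := sum_eq_zero fun q hq => by
      rw [hkf' q hq, zero_mul]
    have e2 : ∑ q ∈ Q, ra k₀ (ps n q) * (y q + y k₀) = 0 := sum_eq_zero fun q hq => by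
      rw [hkQ' q hq, zero_mul]
    rw [e1, e2] at h3
    have h8 := zadd (y k₀)
    linear_combination h3 - h8
  have x0 : x l₀ = 0 := by
    have h3 := r2 k₀ hk₀
    rw [hallk, zero_mul, add_zero, her k₀ hk₀ _ (zadd _), hsum, hx, hq17 _ hk₀ hk17', hnk, hkl1,
      hkl2, zadd] at h3
    have e1 : ∑ q ∈ P, (ra (f q) (ps n k₀) * x (f q) + ra k₀ (ps n (f q)) * x k₀) = 0 :=
      sum_eq_zero fun q hq => by
        rw [hkf' q hq, hfk q hq]; ring
    have e2 : ∑ q ∈ Q, (ra q (ps n k₀) * x q + ra k₀ (ps n q) * x k₀) = 0 :=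
      sum_eq_zero fun q hq => by
        rw [hkQ' q hq, hQk q hq]; ring
    rw [e1, e2] at h3
    have h8 := zadd (x k₀)
    linear_combination h3 - h8
  have xk : x k₀ = 0 := by
    rw [x0] at eqc
    linear_combination eqc
  have y17 : y 17 = 0 := by
    rw [xk] at eq3
    linear_combination eq3
  have yk : y k₀ = 0 := by
    rw [y17] at eqr
    linear_combination eqr
  -- the remaining unknowns
  have fin : ∀ p ∈ P, x (f p) = 0 ∧ y (f p) = 0 := by
    intro p hp
    by_cases hpQ : p ∈ Q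
    · have hp17' : p ≠ 17 := by rintro rfl; exact h17P hp
      have h3 := r1 p (hQm p hpQ) hp17'
      rw [xQ p hpQ, x0, mul_zero, zero_add, her p (hQm p hpQ) _ (by rw [zadd, mul_zero]), hsum,
        yQ p hpQ, y0, yk, y17] at h3
      have e1 : ∑ q ∈ Q, ra p (ps n q) * (y q + 0) = 0 := sum_eq_zero fun q hq => by
        rw [yQ q hq, y0]; ring
      have e2 : ∑ q ∈ P, ra p (ps n (f q)) * (y (f q) + 0) = y (f p) := by
        rw [sum_eq_single_of_mem p hp fun q hq hqp => by
          rw [hPf q hq p hpQ, if_neg (Ne.symm hqp), zero_mul]]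
        rw [hPf p hp p hpQ, if_pos rfl]
        ring
      rw [e1, e2] at h3
      have h4 := r2 p (hQm p hpQ)
      rw [yQ p hpQ, y0, mul_zero, add_zero, her p (hQm p hpQ) _ (zadd _), hsum, xQ p hpQ, x0,
        xk, hx] at h4
      have e3 : ∑ q ∈ Q, (ra q (ps n p) * x q + ra p (ps n q) * 0) = 0 := sum_eq_zero fun q hq => by
        rw [xQ q hq, x0]; ring
      have e4 : ∑ q ∈ P, (ra (f q) (ps n p) * x (f q) + ra p (ps n (f q)) * 0) = x (f p) := by
        rw [sum_eq_single_of_mem p hp fun q hq hqp => by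
          rw [hfQ q hq p hpQ, if_neg (Ne.symm hqp)]; ring]
        rw [hfQ p hp p hpQ, if_pos rfl]
        ring
      rw [e3, e4] at h4
      exact ⟨by linear_combination h4, by linear_combination h3⟩
    · have h3 := kr p hp
      have h4 := kc p hp
      rw [if_neg hpQ, add_zero, y0, zero_add] at h3
      rw [if_neg hpQ, add_zero, x0, zero_add] at h4
      exact ⟨h4, h3⟩
  intro p hp
  rw [hPR] at hp
  rcases mem_insert.1 hp with rfl | hp
  · exact ⟨hx, y17⟩
  · rcases mem_insert.1 hp with rfl | hp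
    · exact ⟨x0, y0⟩
    · rcases mem_insert.1 hp with rfl | hp
      · exact ⟨xk, yk⟩
      · rcases mem_union.1 hp with hp | hp
        · obtain ⟨q, hq, rfl⟩ := mem_image.1 hp
          exact fin q hq
        · exact ⟨by rw [xQ p hp, x0], by rw [yQ p hp, y0]⟩

end

end Pool.Agent.N809.SN
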