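import Pool.Agent.N809.SN.Kill2

/-!
# Twists which are good for all divisors of an integer at once: the existence
-/

set_option autoImplicit false

open Finset

namespace Pool.Agent.N809.SN

open Pool.Agent.N875.X15
open Pool.Agent.N875.P17

/-- **twists which are good over all multiquadratic fields of discriminant dividing a power of `N`** -/
theorem kill_ex2 (N : ℕ) (hN : N ≠ 0) (B : ℕ) : ∃ m : ℤ, Squarefree m ∧ (B : ℤ) < |m| ∧
    ∀ D : ℤ, Squarefree D → D % 4 = 1 → (∀ p : ℕ, p.Prime → (p : ℤ) ∣ D → p ∣ N) →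
      jacobiSym D 17 = D.sign → Squarefree (m * D) ∧ Sg (m * D) := by
  classical
  set P : Finset ℕ := (N.primeFactors.erase 2).erase 17 with hPd
  have hP : ∀ p ∈ P, p.Prime ∧ p ≠ 2 := fun p hp => by
    have h1 := mem_of_mem_erase hp
    exact ⟨(Nat.mem_primeFactors.1 (mem_of_mem_erase h1)).1, ne_of_mem_erase h1⟩
  have h17 : 17 ∉ P := notMem_erase _ _
  obtain ⟨f, hf0⟩ := aux_ex P hP h17 (max (P.sup id) (max B 17))
  have hf : Aux P P f (P.sup id) := { hf0 with
    big := fun p hp => lt_of_le_of_lt (le_max_left _ _) (hf0.big p hp) }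
  have hf17 : ∀ p ∈ P, 17 < f p := fun p hp =>
    lt_of_le_of_lt ((le_max_right _ _).trans (le_max_right _ _)) (hf0.big p hp)
  obtain ⟨k, k1, k2, k3, k4⟩ := prime_ex (fun q => if q = 17 then 1 else 0)
    (insert 17 (P ∪ P.image f)) (fun p hp => by
      rcases mem_insert.1 hp with h | h
      · rw [h]; norm_num
      · rcases mem_union.1 h with h | h
        · exact (hP p h).1
        · obtain ⟨q, hq, rfl⟩ := mem_image.1 h
          exact hf.pr q hq) (max B (max (P.sup id) (max N 17)))
  have hkN : N < k := lt_of_le_of_lt ((le_max_left _ _).trans ((le_max_right _ _).trans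
    (le_max_right _ _))) k2
  have hk17 : 17 < k := lt_of_le_of_lt ((le_max_right _ _).trans ((le_max_right _ _).trans
    (le_max_right _ _))) k2
  have hkP : k ∉ P := fun h => by
    have h1 : k ≤ P.sup id := le_sup (f := id) h
    have h2 : P.sup id < k := lt_of_le_of_lt ((le_max_left _ _).trans (le_max_right _ _)) k2
    omega
  have hk17' : ra 17 (-(k : ℤ)) = 1 := by
    rw [k4 17 (mem_insert_self _ _), if_pos rfl]
  have hnk : nn k = 1 := by
    unfold nn
    rw [ra_l17 k1 k3, hk17']
  have hkQ : ∀ p ∈ P, ra p (-(k : ℤ)) = 0 := fun p hp => by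
    rw [k4 p (mem_insert_of_mem (mem_union_left _ hp)), if_neg]
    rintro rfl
    exact h17 hp
  have hkf : ∀ p ∈ P, ra (f p) (-(k : ℤ)) = 0 := fun p hp => by
    rw [k4 (f p) (mem_insert_of_mem (mem_union_right _ (mem_image_of_mem _ hp))), if_neg]
    have := hf17 p hp
    omega
  have hfk : ∀ p ∈ P, f p ≠ k := fun p hp h => by
    have := hf.m8 p hp
    omega
  obtain ⟨l, l1, l2, l3, l4⟩ := prime_ex (fun q => if q = k then 0 else 1)
    (insert 17 (insert k (P.image f))) (fun p hp => by
      rcases mem_insert.1 hp with h | h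
      · rw [h]; norm_num
      · rcases mem_insert.1 h with h | h
        · rw [h]; exact k1
        · obtain ⟨q, hq, rfl⟩ := mem_image.1 h
          exact hf.pr q hq) (max B (max (P.sup id) (max k 17)))
  have hlk : k < l := lt_of_le_of_lt ((le_max_left _ _).trans ((le_max_right _ _).trans
    (le_max_right _ _))) l2
  have hlB : B < l := lt_of_le_of_lt (le_max_left _ _) l2
  have hl17 : 17 < l := lt_trans hk17 hlk
  have hlP : l ∉ P := fun h => by
    have h1 : l ≤ P.sup id := le_sup (f := id) h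
    have h2 : P.sup id < l := lt_of_le_of_lt ((le_max_left _ _).trans (le_max_right _ _)) l2
    omega
  have hnl : nn l = 1 := by
    unfold nn
    rw [ra_l17 l1 l3, l4 17 (mem_insert_self _ _), if_neg (by omega)]
  have hlf : ∀ p ∈ P, ra (f p) (-(l : ℤ)) = 1 := fun p hp => by
    rw [l4 (f p) (mem_insert_of_mem (mem_insert_of_mem (mem_image_of_mem _ hp))),
      if_neg (hfk p hp)]
  have hkl0 : ra k (-(l : ℤ)) = 0 := by
    rw [l4 k (mem_insert_of_mem (mem_insert_self _ _)), if_pos rfl]
  have hfl : ∀ p ∈ P, f p ≠ l := fun p hp h => by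
    have := hf.m8 p hp
    omega
  have hinj : ∀ p ∈ P, ∀ q ∈ P, f p = f q → p = q := fun p hp q hq h => by
    by_contra hpq
    exact (hf.sf p hp q hq hpq).2 h
  have hfP : ∀ p ∈ P, f p ∉ P := fun p hp h => by
    have h1 : f p ≤ P.sup id := le_sup (f := id) h
    have := hf.big p hp
    omega
  set M : ℕ := ∏ q ∈ P.image f, q with hM
  have hMpr : ∀ q ∈ P.image f, q.Prime := fun q hq => by
    obtain ⟨p, hp, rfl⟩ := mem_image.1 hq
    exact hf.pr p hp
  have hM0 : M ≠ 0 := prod_ne_zero_iff.2 fun q hq => (hMpr q hq).ne_zero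
  have hMf : M.primeFactors = P.image f := Nat.primeFactors_prod hMpr
  have hMsq : ∀ S : Finset ℕ, (∀ q ∈ S, q.Prime) → Squarefree (∏ q ∈ S, q) := by
    intro S
    induction S using Finset.induction_on with
    | empty => intro _; exact squarefree_one
    | insert a s ha ih =>
      intro hS
      rw [prod_insert ha, Nat.squarefree_mul]
      · exact ⟨(hS a (mem_insert_self _ _)).squarefree, ih fun x hx => hS x (mem_insert_of_mem hx)⟩
      · refine Nat.Coprime.prod_right fun x hx => ?_
        refine (Nat.coprime_primes (hS a (mem_insert_self _ _)) (hS x (mem_insert_of_mem hx))).2 ?_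
        rintro rfl
        exact ha hx
  have hMmod : M % 4 = 1 := by
    have key : ∀ S : Finset ℕ, (∀ q ∈ S, q % 4 = 1) → (∏ q ∈ S, q) % 4 = 1 := by
      intro S
      induction S using Finset.induction_on with
      | empty => intro _; rfl
      | insert a s ha ih =>
        intro hS
        rw [prod_insert ha, Nat.mul_mod, hS a (mem_insert_self _ _),
          ih fun x hx => hS x (mem_insert_of_mem hx)]
    refine key _ fun q hq => ?_
    obtain ⟨p, hp, rfl⟩ := mem_image.1 hq
    have := hf.m8 p hp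
    omega
  have hkM : Nat.Coprime k M := Nat.Coprime.prod_right fun q hq => by
    obtain ⟨p, hp, rfl⟩ := mem_image.1 hq
    exact (Nat.coprime_primes k1 (hf.pr p hp)).2 (hfk p hp).symm
  have hlM : Nat.Coprime l (k * M) := Nat.Coprime.mul_right
    ((Nat.coprime_primes l1 k1).2 hlk.ne') (Nat.Coprime.prod_right fun q hq => by
    obtain ⟨p, hp, rfl⟩ := mem_image.1 hq
    exact (Nat.coprime_primes l1 (hf.pr p hp)).2 (hfl p hp).symm)
  have hkM0 : k * M ≠ 0 := mul_ne_zero k1.ne_zero hM0
  have hmsq : Squarefree ((l * (k * M) : ℕ) : ℤ) := by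
    rw [Int.squarefree_natCast, Nat.squarefree_mul hlM, Nat.squarefree_mul hkM]
    exact ⟨l1.squarefree, k1.squarefree, hMsq _ hMpr⟩
  refine ⟨((l * (k * M) : ℕ) : ℤ), hmsq, ?_, fun D hDs hD4 hDN hDj => ?_⟩
  · rw [Nat.abs_cast]
    have h2 : l ≤ l * (k * M) := Nat.le_mul_of_pos_right l (Nat.pos_of_ne_zero hkM0)
    exact_mod_cast lt_of_lt_of_le hlB h2
  · set Q : Finset ℕ := D.natAbs.primeFactors with hQd
    have hD0 : D.natAbs ≠ 0 := Int.natAbs_ne_zero.2 hDs.ne_zero
    have hQP : Q ⊆ P := fun p hp => by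
      obtain ⟨h1, h2, -⟩ := Nat.mem_primeFactors.1 hp
      have h3 : (p : ℤ) ∣ D := Int.natCast_dvd.2 h2
      refine mem_erase.2 ⟨?_, mem_erase.2 ⟨?_, Nat.mem_primeFactors.2 ⟨h1, hDN p h1 h3, hN⟩⟩⟩
      · rintro rfl
        have h4 : (17 : ℤ) ∣ D := by exact_mod_cast h3
        rw [← jac_zero] at h4
        rw [h4] at hDj
        exact hDs.ne_zero (Int.sign_eq_zero_iff_zero.1 hDj.symm)
      · rintro rfl
        have h4 : (2 : ℤ) ∣ D := by exact_mod_cast h3
        omega
    have hcD : Nat.Coprime (l * (k * M)) D.natAbs := by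
      refine Nat.Coprime.symm (Nat.coprime_of_dvd fun p hp h1 h2 => ?_)
      have h3 : p ∈ P := hQP (Nat.mem_primeFactors.2 ⟨hp, h1, hD0⟩)
      rcases hp.dvd_mul.1 h2 with h4 | h4
      · exact hlP ((Nat.prime_dvd_prime_iff_eq hp l1).1 h4 ▸ h3)
      · rcases hp.dvd_mul.1 h4 with h4 | h4
        · exact hkP ((Nat.prime_dvd_prime_iff_eq hp k1).1 h4 ▸ h3)
        · have h5 : p ∈ P.image f := by
            rw [← hMf]
            exact Nat.mem_primeFactors.2 ⟨hp, h4, hM0⟩
          obtain ⟨q, hq, rfl⟩ := mem_image.1 h5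
          exact hfP q hq h3
    have hnabs : (((l * (k * M) : ℕ) : ℤ) * D).natAbs = l * (k * M) * D.natAbs := by
      rw [Int.natAbs_mul, Int.natAbs_natCast]
    have hns : Squarefree (((l * (k * M) : ℕ) : ℤ) * D) := by
      rw [← Int.squarefree_natAbs, hnabs, Nat.squarefree_mul hcD]
      exact ⟨Int.squarefree_natCast.1 hmsq, Int.squarefree_natAbs.2 hDs⟩
    have hn4 : (((l * (k * M) : ℕ) : ℤ) * D) % 4 = 1 := by
      have h1 : (l : ℤ) % 4 = 3 := by omega
      have h2 : (M : ℤ) % 4 = 1 := by omega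
      have h3 : (k : ℤ) % 4 = 3 := by omega
      push_cast
      rw [Int.mul_emod, Int.mul_emod (l : ℤ), Int.mul_emod (k : ℤ), h1, h2, h3, hD4]
      norm_num
    have hPR : PR (((l * (k * M) : ℕ) : ℤ) * D) = insert l (insert k (P.image f ∪ Q)) := by
      unfold PR
      rw [if_pos hn4, hnabs, Nat.primeFactors_mul (mul_ne_zero l1.ne_zero hkM0) hD0,
        Nat.primeFactors_mul l1.ne_zero hkM0, Nat.primeFactors_mul k1.ne_zero hM0, hMf,
        l1.primeFactors, k1.primeFactors]
      ext x
      simp only [mem_union, mem_insert, mem_singleton, or_assoc]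
      exact Iff.rfl
    have hPRD : PR D = Q := by
      unfold PR
      rw [if_pos hD4]
    have h2n : 2 ∉ PR (((l * (k * M) : ℕ) : ℤ) * D) := by
      rw [two_mem_PR hns.ne_zero]
      omega
    have h17n : 17 ∉ PR (((l * (k * M) : ℕ) : ℤ) * D) := by
      rw [hPR, mem_insert, mem_insert, mem_union]
      rintro (h | h | h | h)
      · omega
      · omega
      · obtain ⟨q, hq, h1⟩ := mem_image.1 h
        have := hf17 q hq
        omega
      · exact h17 (hQP h)
    have h17D : 17 ∉ PR D := by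
      rw [hPRD]
      exact fun h => h17 (hQP h)
    have halc : ∀ n : ℤ, ∑ p ∈ Q, al n p = ∑ p ∈ Q, al D p := fun n =>
      sum_congr rfl fun p hp => by
        have hp2 : p ≠ 2 := (hP p (hQP hp)).2
        unfold al
        rw [ps_odd hp2, ps_odd hp2]
    obtain ⟨σ, hσ1, hσ2⟩ : ∃ σ : ZMod 2, ∑ p ∈ Q, al D p = σ ∧ ∑ p ∈ Q, nn p = σ := by
      rcases lt_or_gt_of_ne hDs.ne_zero with hD | hD
      · -- `D < 0`
        have hkD : ¬ (k : ℤ) ∣ D := fun h => by
          have h1 := hDN k k1 h
          have := Nat.le_of_dvd (Nat.pos_of_ne_zero hN) h1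
          omega
        have hs' := sqf_l hDs k1 hkD
        have hk0 : (0 : ℤ) < k := by exact_mod_cast k1.pos
        have hpos : 0 < -(k : ℤ) * D := by nlinarith
        have hPk := PR_l hDs k1 k3 hkD
        have hkn := l_notMem hDs k3 hkD
        rw [hPRD] at hPk hkn
        have hj : jacobiSym (-(k : ℤ) * D) 17 = 1 := by
          have h7 : jacobiSym (-(k : ℤ)) 17 = -1 := by
            rcases jac_cases (-(k : ℤ)) with h | h | h
            · have h8 : (17 : ℤ) ∣ -(k : ℤ) := jac_zero.1 h
              rw [dvd_neg] at h8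
              have h9 : 17 ∣ k := by exact_mod_cast h8
              have := (Nat.prime_dvd_prime_iff_eq (by norm_num) k1).1 h9
              omega
            · unfold ra at hk17'
              rw [ch_odd (by norm_num), h, if_pos rfl] at hk17'
              exact absurd hk17' (by decide)
            · exact h
          rw [jacobiSym.mul_left, h7, hDj, Int.sign_eq_neg_one_of_neg hD]
          norm_num
        refine ⟨1, ?_, ?_⟩
        · have h1 : ∑ p ∈ PR (-(k : ℤ) * D), al (-(k : ℤ) * D) p = 0 := sum_al (fun q hq => by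
            intro h0
            have := prod_PR hs'
            rw [prod_eq_zero hq h0] at this
            omega) (by rw [prod_PR hs']; exact hpos)
          rw [hPk, sum_insert hkn, halc] at h1
          have h2 : al (-(k : ℤ) * D) k = 1 := by
            unfold al
            rw [ps_odd (by omega), sgl k1 k3]
            exact if_pos (by omega)
          rw [h2] at h1
          have := zadd (1 : ZMod 2)
          linear_combination h1 - this
        · have h17k : 17 ∉ PR (-(k : ℤ) * D) := by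
            rw [hPk, mem_insert]
            rintro (h | h)
            · omega
            · exact h17 (hQP h)
          have h1 := sum_nn hs' h17k hj
          rw [hPk, sum_insert hkn, hnk] at h1
          have := zadd (1 : ZMod 2)
          linear_combination h1 - this
      · refine ⟨0, ?_, ?_⟩
        · have h1 : ∑ p ∈ PR D, al D p = 0 := sum_al (fun q hq => by
            intro h0
            have := prod_PR hDs
            rw [prod_eq_zero hq h0] at this
            omega) (by rw [prod_PR hDs]; exact hD)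
          rwa [hPRD] at h1
        · have h1 := sum_nn hDs h17D (by rw [hDj, Int.sign_eq_one_of_pos hD])
          rwa [hPRD] at h1
    refine ⟨hns, sg_kill2 (P := P) (Q := Q) (f := f) (l₀ := l) (k₀ := k) hns hPR hQP h2n h17n hf
      l1 l3 hnl hlf hlP k1 k3 hnk hlk.ne' hkP hkf hkQ hkl0 (σ := σ) ?_ hσ2⟩
    rw [halc, hσ1]

/-- products of the `d i` -/
theorem prod_ex2 {r : ℕ} (d : Fin r → ℤ) (h0 : ∀ i, d i ≠ 0)
    (hd : ∀ i, d i % 4 = 1 ∧ jacobiSym (d i) 17 = (d i).sign)
    (B : ℕ) : ∃ m : ℤ, Squarefree m ∧ (B : ℤ) < |m| ∧ ∀ T : Finset (Fin r), ∃ D k : ℤ,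
      D ≠ 0 ∧ k ≠ 0 ∧ ∏ i ∈ T, d i = D * k ^ 2 ∧ Squarefree (m * D) ∧ Sg (m * D) := by
  classical
  obtain ⟨m, h1, h2, h3⟩ := kill_ex2 (∏ i, d i).natAbs
    (Int.natAbs_ne_zero.2 (prod_ne_zero_iff.2 fun i _ => h0 i)) B
  refine ⟨m, h1, h2, fun T => ?_⟩
  have hne : ∏ i ∈ T, d i ≠ 0 := prod_ne_zero_iff.2 fun i _ => h0 i
  have hmod : (∏ i ∈ T, d i) % 4 = 1 := by
    have key : ∀ S : Finset (Fin r), (∏ i ∈ S, d i) % 4 = 1 := by
      intro S
      induction S using Finset.induction_on with
      | empty => rfl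
      | insert a s ha ih => rw [prod_insert ha, Int.mul_emod, (hd a).1, ih]; norm_num
    exact key T
  have hjac : jacobiSym (∏ i ∈ T, d i) 17 = (∏ i ∈ T, d i).sign := by
    have key : ∀ S : Finset (Fin r), jacobiSym (∏ i ∈ S, d i) 17 = (∏ i ∈ S, d i).sign := by
      intro S
      induction S using Finset.induction_on with
      | empty => rw [prod_empty, jacobiSym.one_left]; rfl
      | insert a s ha ih => rw [prod_insert ha, jacobiSym.mul_left, (hd a).2, ih, Int.sign_mul]
    exact key T
  obtain ⟨a, b, hab, hsq⟩ := Nat.sq_mul_squarefree (∏ i ∈ T, d i).natAbs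
  have hn0 : (∏ i ∈ T, d i).natAbs ≠ 0 := Int.natAbs_ne_zero.2 hne
  have ha0 : a ≠ 0 := by
    rintro rfl
    rw [mul_zero] at hab
    exact hn0 hab.symm
  have hb0 : b ≠ 0 := by
    rintro rfl
    rw [zero_pow two_ne_zero, zero_mul] at hab
    exact hn0 hab.symm
  set D : ℤ := (∏ i ∈ T, d i).sign * a with hD
  have hsg : (∏ i ∈ T, d i).sign = 1 ∨ (∏ i ∈ T, d i).sign = -1 := by
    rcases lt_or_gt_of_ne hne with h | h
    · exact Or.inr (Int.sign_eq_neg_one_of_neg h)
    · exact Or.inl (Int.sign_eq_one_of_pos h)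
  have he : ∏ i ∈ T, d i = D * (b : ℤ) ^ 2 := by
    have e1 : ∏ i ∈ T, d i = (∏ i ∈ T, d i).sign * ((∏ i ∈ T, d i).natAbs : ℤ) :=
      (Int.sign_mul_natAbs _).symm
    rw [hD]
    nth_rw 1 [e1]
    rw [← hab]
    push_cast
    ring
  have hDabs : D.natAbs = a := by
    rw [hD, Int.natAbs_mul, Int.natAbs_natCast]
    rcases hsg with h | h <;> rw [h] <;> simp
  have hDsq : Squarefree D := by
    rw [← Int.squarefree_natAbs, hDabs]
    exact hsq
  have hb : ((b : ℤ) ^ 2) % 4 = 1 := by
    have h4 : (b : ℤ) % 2 = 1 := by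
      by_contra h
      have h5 : (2 : ℤ) ∣ b := by omega
      have h6 : (2 : ℤ) ∣ ∏ i ∈ T, d i := by
        rw [he]
        exact (h5.trans (dvd_pow_self _ two_ne_zero)).mul_left _
      omega
    have h5 : (b : ℤ) % 4 = 1 ∨ (b : ℤ) % 4 = 3 := by omega
    rcases h5 with h5 | h5 <;> rw [pow_two, Int.mul_emod, h5] <;> norm_num
  have ha4 : D % 4 = 1 := by
    rw [he, Int.mul_emod, hb, mul_one, Int.emod_emod_of_dvd _ (dvd_refl 4)] at hmod
    exact hmod
  have hbpos : (0 : ℤ) < (b : ℤ) ^ 2 := by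
    have : (0 : ℤ) < b := by exact_mod_cast Nat.pos_of_ne_zero hb0
    positivity
  have hsgn : (∏ i ∈ T, d i).sign = D.sign := by
    rw [he, Int.sign_mul, Int.sign_eq_one_of_pos hbpos, mul_one]
  have hj : jacobiSym D 17 = D.sign := by
    rw [hsgn, he, jacobiSym.mul_left, jacobiSym.pow_left] at hjac
    have hD0 : D ≠ 0 := hDsq.ne_zero
    have hDs2 : D.sign ≠ 0 := fun h => hD0 (Int.sign_eq_zero_iff_zero.1 h)
    rcases jac_cases (b : ℤ) with h | h | h
    · rw [h] at hjac
      norm_num at hjac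
      exact absurd hjac.symm hDs2
    · rw [h] at hjac
      norm_num at hjac
      exact hjac
    · rw [h] at hjac
      norm_num at hjac
      exact hjac
  refine ⟨D, b, hDsq.ne_zero, by exact_mod_cast hb0, he, h3 D hDsq ha4 (fun p hp hpa => ?_) hj⟩
  rw [← Int.natCast_dvd]
  refine (hpa.trans ?_).trans (prod_dvd_prod_of_subset T univ d (subset_univ T))
  rw [he]
  exact dvd_mul_right _ _

end Pool.Agent.N809.SN
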