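import Pool.Agent.N809.SN.Mul2
import Pool.Agent.N809.SN.Kill3

/-!
# Twists which are good over all real multiquadratic fields of discriminant prime to `34`
-/

set_option autoImplicit false

open Finset

namespace Pool.Agent.N809.SN

open Pool.Agent.N875.X15
open Pool.Agent.N875.P17

/-- **twists which are good over all real multiquadratic fields of discriminant dividing a power of
`N`, `N` prime to `17`** -/
theorem kill_ex3 (N : ℕ) (hN : N ≠ 0) (hN17 : ¬ 17 ∣ N) (B : ℕ) :
    ∃ m : ℤ, Squarefree m ∧ (B : ℤ) < |m| ∧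
    ∀ D : ℤ, 0 < D → Squarefree D → D % 4 = 1 → (∀ p : ℕ, p.Prime → (p : ℤ) ∣ D → p ∣ N) →
      Squarefree (m * D) ∧ Sg (m * D) := by
  classical
  set P : Finset ℕ := N.primeFactors.erase 2 with hPd
  have hP : ∀ p ∈ P, p.Prime ∧ p ≠ 2 := fun p hp =>
    ⟨(Nat.mem_primeFactors.1 (mem_of_mem_erase hp)).1, ne_of_mem_erase hp⟩
  have h17 : 17 ∉ P := fun h => hN17 (Nat.mem_primeFactors.1 (mem_of_mem_erase h)).2.1
  obtain ⟨f, hf0⟩ := aux_ex P hP h17 (max (P.sup id) (max B 17))
  have hf : Aux P P f (P.sup id) := { hf0 with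
    big := fun p hp => lt_of_le_of_lt (le_max_left _ _) (hf0.big p hp) }
  have hf17 : ∀ p ∈ P, 17 < f p := fun p hp =>
    lt_of_le_of_lt ((le_max_right _ _).trans (le_max_right _ _)) (hf0.big p hp)
  obtain ⟨k, k1, k2, k3, k4⟩ := prime_ex1 (fun q => if q = 17 then 1 else 0)
    (insert 17 (P ∪ P.image f)) (fun p hp => by
      rcases mem_insert.1 hp with h | h
      · rw [h]; norm_num
      · rcases mem_union.1 h with h | h
        · exact hP p h
        · obtain ⟨q, hq, rfl⟩ := mem_image.1 h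
          have := hf17 q hq
          exact ⟨hf.pr q hq, by omega⟩) (max (P.sup f) (max (P.sup id) 17))
  have hkf0 : ∀ p ∈ P, f p ≠ k := fun p hp h => by
    have h1 : f p ≤ P.sup f := le_sup (f := f) hp
    have h2 : P.sup f < k := lt_of_le_of_lt (le_max_left _ _) k2
    omega
  have hk17 : 17 < k := lt_of_le_of_lt ((le_max_right _ _).trans (le_max_right _ _)) k2
  have hkP : k ∉ P := fun h => by
    have h1 : k ≤ P.sup id := le_sup (f := id) h
    have h2 : P.sup id < k := lt_of_le_of_lt ((le_max_left _ _).trans (le_max_right _ _)) k2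
    omega
  have hp17 : Nat.Prime 17 := by norm_num
  have hnk : nn k = 1 := by
    unfold nn
    have h1 := rec1 (e := 1) k1 (by omega) hp17 (by omega) (Or.inl rfl)
    rw [one_mul] at h1
    have h2 : ((17 : ℕ) : ℤ) = 17 := rfl
    rw [h2] at h1
    rw [h1, k4 17 (mem_insert_self _ _), if_pos rfl]
  have hkQ : ∀ p ∈ P, ra p (k : ℤ) = 0 := fun p hp => by
    rw [k4 p (mem_insert_of_mem (mem_union_left _ hp)), if_neg]
    rintro rfl
    exact h17 hp
  have hkf : ∀ p ∈ P, ra (f p) (k : ℤ) = 0 := fun p hp => by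
    rw [k4 (f p) (mem_insert_of_mem (mem_union_right _ (mem_image_of_mem _ hp))), if_neg]
    have := hf17 p hp
    omega
  obtain ⟨l, l1, l2, l3, l4⟩ := prime_ex (fun _ => 1)
    (insert 17 (insert k (P.image f))) (fun p hp => by
      rcases mem_insert.1 hp with h | h
      · rw [h]; norm_num
      · rcases mem_insert.1 h with h | h
        · rw [h]; exact k1
        · obtain ⟨q, hq, rfl⟩ := mem_image.1 h
          exact hf.pr q hq) (max B (max (P.sup id) (max k 17)))
  have hlB : B < l := lt_of_le_of_lt (le_max_left _ _) l2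
  have hlk : k < l := lt_of_le_of_lt ((le_max_left _ _).trans ((le_max_right _ _).trans
    (le_max_right _ _))) l2
  have hlP : l ∉ P := fun h => by
    have h1 : l ≤ P.sup id := le_sup (f := id) h
    have h2 : P.sup id < l := lt_of_le_of_lt ((le_max_left _ _).trans (le_max_right _ _)) l2
    omega
  have hnl : nn l = 1 := by
    unfold nn
    rw [ra_l17 l1 l3, l4 17 (mem_insert_self _ _)]
  have hlf : ∀ p ∈ P, ra (f p) (-(l : ℤ)) = 1 := fun p hp =>
    l4 (f p) (mem_insert_of_mem (mem_insert_of_mem (mem_image_of_mem _ hp)))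
  have hkl0 : ra k (-(l : ℤ)) = 1 := l4 k (mem_insert_of_mem (mem_insert_self _ _))
  have hfl : ∀ p ∈ P, f p ≠ l := fun p hp h => by
    have := hf.m8 p hp
    omega
  have hfP : ∀ p ∈ P, f p ∉ P := fun p hp h => by
    have h1 : f p ≤ P.sup id := le_sup (f := id) h
    have := hf.big p hp
    omega
  set M : ℕ := ∏ q ∈ P.image f, q with hM
  have hMpr : ∀ q ∈ P.image f, q.Prime := fun q hq => by
    obtain ⟨p, hp, rfl⟩ := mem_image.1 hq
    exact hf.pr p hp
  have hM0 : M ≠ 0 := prod_ne_zero_iff.2 fun q hq => (hMpr q hq).ne_zero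
  have hMf : M.primeFactors = P.image f := Nat.primeFactors_prod hMpr
  have hMsq : ∀ S : Finset ℕ, (∀ q ∈ S, q.Prime) → Squarefree (∏ q ∈ S, q) := by
    intro S
    induction S using Finset.induction_on with
    | empty => intro _; exact squarefree_one
    | insert a s ha ih =>
      intro hS
      rw [prod_insert ha, Nat.squarefree_mul]
      · exact ⟨(hS a (mem_insert_self _ _)).squarefree, ih fun x hx => hS x (mem_insert_of_mem hx)⟩
      · refine Nat.Coprime.prod_right fun x hx => ?_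
        refine (Nat.coprime_primes (hS a (mem_insert_self _ _)) (hS x (mem_insert_of_mem hx))).2 ?_
        rintro rfl
        exact ha hx
  have hMmod : M % 4 = 1 := by
    have key : ∀ S : Finset ℕ, (∀ q ∈ S, q % 4 = 1) → (∏ q ∈ S, q) % 4 = 1 := by
      intro S
      induction S using Finset.induction_on with
      | empty => intro _; rfl
      | insert a s ha ih =>
        intro hS
        rw [prod_insert ha, Nat.mul_mod, hS a (mem_insert_self _ _),
          ih fun x hx => hS x (mem_insert_of_mem hx)]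
    refine key _ fun q hq => ?_
    obtain ⟨p, hp, rfl⟩ := mem_image.1 hq
    have := hf.m8 p hp
    omega
  have hkM : Nat.Coprime k M := Nat.Coprime.prod_right fun q hq => by
    obtain ⟨p, hp, rfl⟩ := mem_image.1 hq
    exact (Nat.coprime_primes k1 (hf.pr p hp)).2 (hkf0 p hp).symm
  have hlM : Nat.Coprime l (k * M) := Nat.Coprime.mul_right
    ((Nat.coprime_primes l1 k1).2 hlk.ne') (Nat.Coprime.prod_right fun q hq => by
    obtain ⟨p, hp, rfl⟩ := mem_image.1 hq
    exact (Nat.coprime_primes l1 (hf.pr p hp)).2 (hfl p hp).symm)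
  have h17M : Nat.Coprime 17 (l * (k * M)) := Nat.Coprime.mul_right
    ((Nat.coprime_primes hp17 l1).2 (by omega)) (Nat.Coprime.mul_right
    ((Nat.coprime_primes hp17 k1).2 (by omega)) (Nat.Coprime.prod_right fun q hq => by
    obtain ⟨p, hp, rfl⟩ := mem_image.1 hq
    exact (Nat.coprime_primes hp17 (hf.pr p hp)).2 (by have := hf17 p hp; omega)))
  have hkM0 : k * M ≠ 0 := mul_ne_zero k1.ne_zero hM0
  have hlkM0 : l * (k * M) ≠ 0 := mul_ne_zero l1.ne_zero hkM0
  set W : ℕ := 17 * (l * (k * M)) with hW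
  have hW0 : W ≠ 0 := mul_ne_zero (by norm_num) hlkM0
  have hmsq : Squarefree W := by
    rw [hW, Nat.squarefree_mul h17M, Nat.squarefree_mul hlM, Nat.squarefree_mul hkM]
    exact ⟨hp17.prime.squarefree, l1.squarefree, k1.squarefree, hMsq _ hMpr⟩
  refine ⟨-(W : ℤ), ?_, ?_, fun D hD hDs hD4 hDN => ?_⟩
  · rw [← Int.squarefree_natAbs, Int.natAbs_neg, Int.natAbs_natCast]
    exact hmsq
  · rw [abs_neg, Nat.abs_cast]
    have h2 : l ≤ W := by
      rw [hW]
      exact (Nat.le_mul_of_pos_right l (Nat.pos_of_ne_zero hkM0)).trans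
        (Nat.le_mul_of_pos_left _ (by norm_num))
    exact_mod_cast lt_of_lt_of_le hlB h2
  · set Q : Finset ℕ := D.natAbs.primeFactors with hQd
    have hD0 : D.natAbs ≠ 0 := Int.natAbs_ne_zero.2 hDs.ne_zero
    have hQP : Q ⊆ P := fun p hp => by
      obtain ⟨h1, h2, -⟩ := Nat.mem_primeFactors.1 hp
      have h3 : (p : ℤ) ∣ D := Int.natCast_dvd.2 h2
      refine mem_erase.2 ⟨?_, Nat.mem_primeFactors.2 ⟨h1, hDN p h1 h3, hN⟩⟩
      rintro rfl
      have h4 : (2 : ℤ) ∣ D := by exact_mod_cast h3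
      omega
    have hcD : Nat.Coprime W D.natAbs := by
      refine Nat.Coprime.symm (Nat.coprime_of_dvd fun p hp h1 h2 => ?_)
      have h3 : p ∈ P := hQP (Nat.mem_primeFactors.2 ⟨hp, h1, hD0⟩)
      rcases hp.dvd_mul.1 h2 with h4 | h4
      · exact h17 ((Nat.prime_dvd_prime_iff_eq hp hp17).1 h4 ▸ h3)
      · rcases hp.dvd_mul.1 h4 with h4 | h4
        · exact hlP ((Nat.prime_dvd_prime_iff_eq hp l1).1 h4 ▸ h3)
        · rcases hp.dvd_mul.1 h4 with h4 | h4
          · exact hkP ((Nat.prime_dvd_prime_iff_eq hp k1).1 h4 ▸ h3)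
          · have h5 : p ∈ P.image f := by
              rw [← hMf]
              exact Nat.mem_primeFactors.2 ⟨hp, h4, hM0⟩
            obtain ⟨q, hq, rfl⟩ := mem_image.1 h5
            exact hfP q hq h3
    have hnabs : (-(W : ℤ) * D).natAbs = W * D.natAbs := by
      rw [Int.natAbs_mul, Int.natAbs_neg, Int.natAbs_natCast]
    have hns : Squarefree (-(W : ℤ) * D) := by
      rw [← Int.squarefree_natAbs, hnabs, Nat.squarefree_mul hcD]
      exact ⟨hmsq, Int.squarefree_natAbs.2 hDs⟩
    have hn4 : (-(W : ℤ) * D) % 4 = 1 := by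
      have h0 : W % 4 = 3 := by
        rw [hW, Nat.mul_mod, Nat.mul_mod l, Nat.mul_mod k, l3, hMmod]
        have h3 : k % 4 = 1 := by omega
        rw [h3]
      have h1 : (-(W : ℤ)) % 4 = 1 := by omega
      rw [Int.mul_emod, h1, hD4]
      norm_num
    have hPR : PR (-(W : ℤ) * D) = insert 17 (insert l (insert k (P.image f ∪ Q))) := by
      unfold PR
      rw [if_pos hn4, hnabs, Nat.primeFactors_mul hW0 hD0, hW,
        Nat.primeFactors_mul (by norm_num) hlkM0, Nat.primeFactors_mul l1.ne_zero hkM0,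
        Nat.primeFactors_mul k1.ne_zero hM0, hMf, l1.primeFactors, k1.primeFactors,
        hp17.primeFactors]
      ext x
      simp only [mem_union, mem_insert, mem_singleton, or_assoc]
      exact Iff.rfl
    have hPRD : PR D = Q := by
      unfold PR
      rw [if_pos hD4]
    have h2n : 2 ∉ PR (-(W : ℤ) * D) := by
      rw [two_mem_PR hns.ne_zero]
      omega
    refine ⟨hns, sg_kill3 (P := P) (Q := Q) (f := f) (l₀ := l) (k₀ := k) hns hPR hQP h2n h17 hf
      (fun p hp => by have := hf17 p hp; omega) l1 l3 hnl hlf hlP k1 (by omega) hnk (by omega)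
      hkP hkf0 hkf hkQ hkl0 ?_⟩
    have h1 : ∑ p ∈ PR D, al D p = 0 := sum_al (fun q hq => by
      intro h0
      have := prod_PR hDs
      rw [prod_eq_zero hq h0] at this
      omega) (by rw [prod_PR hDs]; exact hD)
    rw [hPRD] at h1
    rw [← h1]
    refine sum_congr rfl fun p hp => ?_
    have hp2 : p ≠ 2 := (hP p (hQP hp)).2
    unfold al
    rw [ps_odd hp2, ps_odd hp2]

/-- products of the `d i` -/
theorem prod_ex3 {r : ℕ} (d : Fin r → ℤ) (hd : ∀ i, 0 < d i ∧ d i % 4 = 1 ∧ ¬ (17 : ℤ) ∣ d i)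
    (B : ℕ) : ∃ m : ℤ, Squarefree m ∧ (B : ℤ) < |m| ∧ ∀ T : Finset (Fin r), ∃ D k : ℤ,
      D ≠ 0 ∧ k ≠ 0 ∧ ∏ i ∈ T, d i = D * k ^ 2 ∧ Squarefree (m * D) ∧ Sg (m * D) := by
  classical
  have hp : Prime (17 : ℤ) := Int.prime_iff_natAbs_prime.2 (by norm_num)
  obtain ⟨m, h1, h2, h3⟩ := kill_ex3 (∏ i, d i).natAbs
    (Int.natAbs_ne_zero.2 (prod_ne_zero_iff.2 fun i _ => (hd i).1.ne')) (fun h => by
      have h4 : (17 : ℤ) ∣ ∏ i, d i := Int.natCast_dvd.2 h
      obtain ⟨i, -, hi⟩ := (Prime.dvd_finsetProd_iff hp _).1 h4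
      exact (hd i).2.2 hi) B
  refine ⟨m, h1, h2, fun T => ?_⟩
  have hpos : 0 < ∏ i ∈ T, d i := prod_pos fun i _ => (hd i).1
  have hmod : (∏ i ∈ T, d i) % 4 = 1 := by
    have key : ∀ S : Finset (Fin r), (∏ i ∈ S, d i) % 4 = 1 := by
      intro S
      induction S using Finset.induction_on with
      | empty => rfl
      | insert a s ha ih => rw [prod_insert ha, Int.mul_emod, (hd a).2.1, ih]; norm_num
    exact key T
  obtain ⟨a, b, hab, hsq⟩ := Nat.sq_mul_squarefree (∏ i ∈ T, d i).natAbs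
  have hn0 : (∏ i ∈ T, d i).natAbs ≠ 0 := Int.natAbs_ne_zero.2 hpos.ne'
  have ha0 : a ≠ 0 := by
    rintro rfl
    rw [mul_zero] at hab
    exact hn0 hab.symm
  have hb0 : b ≠ 0 := by
    rintro rfl
    rw [zero_pow two_ne_zero, zero_mul] at hab
    exact hn0 hab.symm
  have he : ∏ i ∈ T, d i = (a : ℤ) * (b : ℤ) ^ 2 := by
    rw [← Int.natAbs_of_nonneg hpos.le, ← hab]
    push_cast
    ring
  have hb : ((b : ℤ) ^ 2) % 4 = 1 := by
    have h4 : (b : ℤ) % 2 = 1 := by
      by_contra h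
      have h5 : (2 : ℤ) ∣ b := by omega
      have h6 : (2 : ℤ) ∣ ∏ i ∈ T, d i := by
        rw [he]
        exact (h5.trans (dvd_pow_self _ two_ne_zero)).mul_left _
      omega
    have h5 : (b : ℤ) % 4 = 1 ∨ (b : ℤ) % 4 = 3 := by omega
    rcases h5 with h5 | h5 <;> rw [pow_two, Int.mul_emod, h5] <;> norm_num
  have ha4 : (a : ℤ) % 4 = 1 := by
    rw [he, Int.mul_emod, hb, mul_one, Int.emod_emod_of_dvd _ (dvd_refl 4)] at hmod
    exact hmod
  have ha0' : (0 : ℤ) < a := by exact_mod_cast Nat.pos_of_ne_zero ha0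
  refine ⟨a, b, ha0'.ne', by exact_mod_cast hb0, he, h3 a ha0' ?_ ha4 (fun p hp hpa => ?_)⟩
  · exact Int.squarefree_natCast.2 hsq
  · rw [← Int.natCast_dvd]
    refine (hpa.trans ?_).trans (prod_dvd_prod_of_subset T univ d (subset_univ T))
    rw [he]
    exact dvd_mul_right _ _

end Pool.Agent.N809.SN
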