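import Pool.Agent.N809.SN.Fin

/-!
# The obstruction by the signs
-/

set_option autoImplicit false

open Finset

namespace Pool.Agent.N809.SN

open Pool.Agent.N919.BS (Rt17)

lemma not17_of {d m n : ℤ} (hd : ¬ (17 : ℤ) ∣ d) (hm : ¬ (17 : ℤ) ∣ m) (hn : Squarefree n)
    (hsq : IsSquare (d * m * n)) : ¬ (17 : ℤ) ∣ n := by
  intro h
  obtain ⟨k, hk⟩ := hsq
  have hp : Prime (17 : ℤ) := Int.prime_iff_natAbs_prime.2 (by norm_num)
  have h1 : (17 : ℤ) ∣ k * k := by
    rw [← hk]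
    exact h.mul_left _
  have h8 : (17 : ℤ) ∣ k := (hp.dvd_or_dvd h1).elim id id
  have h10 : (17 : ℤ) * 17 ∣ d * m * n := by
    rw [hk]
    exact mul_dvd_mul h8 h8
  have hco : IsCoprime ((17 : ℤ) * 17) (d * m) := by
    have e : IsCoprime (17 : ℤ) (d * m) := (hp.coprime_iff_not_dvd).2 fun h =>
      (hp.dvd_or_dvd h).elim hd hm
    exact e.mul_left e
  exact hp.not_isUnit (hn 17 (hco.dvd_of_dvd_mul_left h10))

lemma rt_sign {m : ℤ} (h : Rt17 m) (h17 : ¬ (17 : ℤ) ∣ m) : jacobiSym m 17 = m.sign := by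
  rw [← jac_zero] at h17
  rcases h with ⟨h1, h2⟩ | ⟨h1, h2⟩
  · rw [h2, Int.sign_eq_one_of_pos h1]
  · rw [Int.sign_eq_neg_one_of_neg h1]
    rcases jac_cases m with h3 | h3 | h3
    · exact absurd h3 h17
    · exact absurd h3 h2
    · exact h3

lemma rt_neg {m : ℤ} (h : Rt17 m) (h17 : (17 : ℤ) ∣ m) : m < 0 := by
  rw [← jac_zero] at h17
  rcases h with ⟨-, h2⟩ | ⟨h1, -⟩
  · omega
  · exact h1

/-- the signs of two twists -/
theorem obst2 {d m n : ℤ} (hd17 : ¬ (17 : ℤ) ∣ d) (hm : Squarefree m) (hn : Squarefree n)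
    (hsq : IsSquare (d * m * n)) (h1 : Rt17 m) (h2 : Rt17 n) :
    (¬ (17 : ℤ) ∣ m → jacobiSym d 17 = d.sign) ∧ ((17 : ℤ) ∣ m → 0 < d) := by
  have hsq' : IsSquare (d * n * m) := by rwa [mul_right_comm]
  have hd0 : d ≠ 0 := by rintro rfl; exact hd17 (dvd_zero _)
  constructor
  · intro h17
    have hn17 := not17_of hd17 h17 hn hsq
    obtain ⟨k, hk⟩ := hsq
    have e1 : jacobiSym (d * m * n) 17 = jacobiSym d 17 * m.sign * n.sign := by
      rw [jacobiSym.mul_left, jacobiSym.mul_left, rt_sign h1 h17, rt_sign h2 hn17]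
    have hk0 : k ≠ 0 := by
      rintro rfl
      rw [mul_zero] at hk
      exact (mul_ne_zero (mul_ne_zero hd0 hm.ne_zero) hn.ne_zero) hk
    have e2 : (d * m * n).sign = 1 := by
      rw [hk]
      exact Int.sign_eq_one_of_pos (mul_self_pos.2 hk0)
    rw [Int.sign_mul, Int.sign_mul] at e2
    have hk17 : ¬ (17 : ℤ) ∣ k := by
      intro h
      have hp : Prime (17 : ℤ) := Int.prime_iff_natAbs_prime.2 (by norm_num)
      have h3 : (17 : ℤ) ∣ d * m * n := by rw [hk]; exact h.mul_right _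
      rcases hp.dvd_or_dvd h3 with h4 | h4
      · rcases hp.dvd_or_dvd h4 with h5 | h5
        · exact hd17 h5
        · exact h17 h5
      · exact hn17 h4
    rw [hk, jacobiSym.mul_left] at e1
    have hk1 : jacobiSym k 17 * jacobiSym k 17 = 1 := by
      rw [← jac_zero] at hk17
      rcases jac_cases k with h | h | h
      · exact absurd h hk17
      · rw [h]; norm_num
      · rw [h]; norm_num
    rw [hk1] at e1
    have hms : m.sign = 1 ∨ m.sign = -1 := by
      rcases lt_or_gt_of_ne hm.ne_zero with h | h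
      · exact Or.inr (Int.sign_eq_neg_one_of_neg h)
      · exact Or.inl (Int.sign_eq_one_of_pos h)
    have hns : n.sign = 1 ∨ n.sign = -1 := by
      rcases lt_or_gt_of_ne hn.ne_zero with h | h
      · exact Or.inr (Int.sign_eq_neg_one_of_neg h)
      · exact Or.inl (Int.sign_eq_one_of_pos h)
    rcases hms with h3 | h3 <;> rcases hns with h4 | h4 <;> rw [h3, h4] at e1 e2 <;> linarith
  · intro h17
    have hn17 : (17 : ℤ) ∣ n := by
      by_contra h
      exact not17_of hd17 h hm hsq' h17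
    have a1 := rt_neg h1 h17
    have a2 := rt_neg h2 hn17
    obtain ⟨k, hk⟩ := hsq
    have a3 : 0 < m * n := mul_pos_of_neg_of_neg a1 a2
    by_contra h
    have a4 : d < 0 := lt_of_le_of_ne (not_lt.1 h) hd0
    nlinarith [mul_self_nonneg k]

/-- squarefree parts -/
theorem sqf_part {m : ℤ} (hm : m ≠ 0) : ∃ a k : ℤ, Squarefree a ∧ k ≠ 0 ∧ m = a * k ^ 2 := by
  obtain ⟨a, b, hab, hsq⟩ := Nat.sq_mul_squarefree m.natAbs
  have hn0 : m.natAbs ≠ 0 := Int.natAbs_ne_zero.2 hm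
  have hb0 : b ≠ 0 := by
    rintro rfl
    rw [zero_pow two_ne_zero, zero_mul] at hab
    exact hn0 hab.symm
  rcases le_or_gt 0 m with h | h
  · refine ⟨a, b, Int.squarefree_natCast.2 hsq, by exact_mod_cast hb0, ?_⟩
    have e : (m.natAbs : ℤ) = (b : ℤ) ^ 2 * a := by rw [← hab]; push_cast; ring
    rw [Int.natAbs_of_nonneg h] at e
    rw [e]; ring
  · refine ⟨-a, b, Int.squarefree_natAbs.1 (by rw [Int.natAbs_neg, Int.natAbs_natCast]; exact hsq),
      by exact_mod_cast hb0, ?_⟩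
    have e : (m.natAbs : ℤ) = (b : ℤ) ^ 2 * a := by rw [← hab]; push_cast; ring
    rw [Int.ofNat_natAbs_of_nonpos h.le] at e
    linarith

/-- the product of three squarefree parts -/
theorem sq_of {d m n k l m' : ℤ} (hk : k ≠ 0) (hm : m' = m * k ^ 2) (hn : m' * d = n * l ^ 2) :
    IsSquare (d * m * n) := by
  have e : (d * m * n) * k ^ 2 = (n * l) ^ 2 := by
    rw [hm] at hn
    calc (d * m * n) * k ^ 2 = m * k ^ 2 * d * n := by ring
      _ = (n * l) ^ 2 := by rw [hn]; ring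
  have h1 : k ^ 2 ∣ (n * l) ^ 2 := ⟨d * m * n, by rw [← e]; ring⟩
  obtain ⟨c, hc⟩ := (Int.pow_dvd_pow_iff two_ne_zero).1 h1
  refine ⟨c, ?_⟩
  rw [hc] at e
  have hk2 : k ^ 2 ≠ 0 := pow_ne_zero 2 hk
  exact mul_right_cancel₀ hk2 (by rw [e]; ring)

end Pool.Agent.N809.SN
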