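import Pool.Agent.N809.SN.Ex
import Pool.Agent.N875.P17.Mat

/-!
# The symbols of a twist with one more prime
-/

set_option autoImplicit false

open Finset

namespace Pool.Agent.N809.SN

open Pool.Agent.N875.X15
open Pool.Agent.N875.P17

/-- the Rédei symbols -/
def aa (n : ℤ) (p q : ℕ) : ZMod 2 := ra p (ps n q)

/-- the symbols of `17` -/
def nn (p : ℕ) : ZMod 2 := ra p 17

/-- the exceptional prime discriminant `-4` -/
def ww (n : ℤ) (p : ℕ) : ZMod 2 := if p = 2 ∧ d2 n = -1 then 0 else 1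

lemma jac_ra {q : ℕ} {a b : ℤ} {p : ℕ} (hq : q ≠ 2) (h : jacobiSym a q = ch p b) :
    ra q a = ra p b := by
  unfold ra
  rw [ch_odd hq, h]

/-- reciprocity -/
theorem lemR {p q : ℕ} (hp : p.Prime) (hq : q.Prime) (hq2 : q ≠ 2) (hpq : p ≠ q) (m : ℤ) {e : ℤ}
    (he : e = 1 ∨ e = -1) :
    ra q (e * p) = (if e = -1 then al m q else 0) + ra p (sgp q) := by
  have h1 : ra q (p : ℤ) = ra p (sgp q) := jac_ra hq2 (recip_ch hp hq hq2).symm
  rcases he with rfl | rfl
  · rw [one_mul, if_neg (by norm_num), zero_add, h1]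
  · rw [if_pos rfl, ra_mul hq _ (gd_nat hp hq hq2 hpq), ra_neg_one (m := m) hq hq2, h1]
    rw [gd_odd hq2]
    intro h
    rw [dvd_neg] at h
    have h2 : q ∣ 1 := by exact_mod_cast h
    exact hq.one_lt.ne' (Nat.dvd_one.1 h2)

lemma PR_prime {n : ℤ} (hn : n ≠ 0) {p : ℕ} (hp : p ∈ PR n) : p.Prime := ((mem_PR hn).1 hp).1

/-- the form of the prime discriminants -/
theorem ps_form {n : ℤ} (hs : Squarefree n) {p : ℕ} (hp : p ∈ PR n) :
    (p = 2 ∧ d2 n = -1) ∨ ∃ e : ℤ, (e = 1 ∨ e = -1) ∧ ps n p = e * p := by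
  by_cases h2 : p = 2
  · subst h2
    have h4 := (two_mem_PR hs.ne_zero).1 hp
    obtain ⟨h5, h6⟩ := d2_spec hs
    have h7 := oe_mod n
    rw [ps_two]
    rcases h6 with ⟨-, h8 | h8⟩ | ⟨-, h8 | h8⟩
    · rw [h8, one_mul] at h5
      rw [← h5] at h7
      exact absurd h7 h4
    · exact Or.inl ⟨rfl, h8⟩
    · exact Or.inr ⟨1, Or.inl rfl, by rw [h8]; norm_num⟩
    · exact Or.inr ⟨-1, Or.inr rfl, by rw [h8]; norm_num⟩
  · right
    rw [ps_odd h2]
    unfold sgp
    split_ifs
    · exact ⟨1, Or.inl rfl, by ring⟩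
    · exact ⟨-1, Or.inr rfl, by ring⟩

lemma al_form {n : ℤ} {p : ℕ} (hp : 0 < p) {e : ℤ} (he : e = 1 ∨ e = -1) (h : ps n p = e * p) :
    al n p = if e = -1 then 1 else 0 := by
  unfold al
  rw [h]
  rcases he with rfl | rfl
  · rw [if_neg (by omega), if_neg (by norm_num)]
  · rw [if_pos (by omega), if_pos rfl]

lemma al_of_exc {n : ℤ} (h : d2 n = -1) : al n 2 = 1 := by
  unfold al
  rw [ps_two, h]
  rfl

lemma ite_al (c : Prop) [Decidable c] (x : ZMod 2) : (if c then x else 0) = (if c then 1 else 0) * x := by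
  split_ifs <;> ring

/-- the symbol of an odd prime `q` -/
theorem sym {n : ℤ} (hs : Squarefree n) {p q : ℕ} (hp : p ∈ PR n) (hq : q.Prime) (hq2 : q ≠ 2)
    (hpq : p ≠ q) (m : ℤ) :
    ra q (ps n p) = ww n p * ra p (sgp q) + al n p * al m q := by
  have hpp := PR_prime hs.ne_zero hp
  rcases ps_form hs hp with ⟨h1, h2⟩ | ⟨e, he, h1⟩
  · subst h1
    rw [ps_two, h2, ra_neg_one (m := m) hq hq2, al_of_exc h2]
    unfold ww
    rw [if_pos ⟨rfl, h2⟩]
    ring
  · have hw : ww n p = 1 := by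
      unfold ww
      refine if_neg ?_
      rintro ⟨rfl, h2⟩
      rw [ps_two, h2] at h1
      rcases he with rfl | rfl <;> norm_num at h1
    rw [h1, lemR hpp hq hq2 hpq m he, hw, al_form hpp.pos he h1, ite_al]
    ring

/-- the pairs -/
theorem pair {n : ℤ} (hs : Squarefree n) {p q : ℕ} (hp : p ∈ PR n) (hq : q ∈ PR n) (hpq : p ≠ q) :
    ww n p * aa n p q + ww n q * aa n q p = al n p * al n q := by
  have key : ∀ {p q : ℕ}, p ∈ PR n → q ∈ PR n → p ≠ q → q ≠ 2 →
      ww n p * aa n p q + ww n q * aa n q p = al n p * al n q := by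
    intro p q hp hq hpq hq2
    have hqq := PR_prime hs.ne_zero hq
    have hw : ww n q = 1 := by
      unfold ww
      exact if_neg fun h => hq2 h.1
    unfold aa
    rw [sym hs hp hqq hq2 hpq n, ps_odd hq2, hw]
    have := zadd (ww n p * ra p (sgp q))
    linear_combination this
  by_cases hq2 : q = 2
  · have h := key hq hp hpq.symm (by rw [← hq2]; exact hpq)
    linear_combination h
  · exact key hp hq hpq hq2

theorem ra17_2 : ra 2 17 = 0 := by
  unfold ra
  rw [ch_two]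
  norm_num

theorem sgp17 : sgp 17 = 17 := by
  unfold sgp
  norm_num

theorem dat {n : ℤ} (hs : Squarefree n) (hn : 0 < n) : Dat (PR n) (aa n) nn (al n) (ww n) := by
  have h2 : ∑ q ∈ PR n, al n q = 0 := sum_al (fun q hq => by
      intro h0
      have := prod_PR hs
      rw [prod_eq_zero hq h0] at this
      omega) (by rw [prod_PR hs]; exact hn)
  have ha17 : al n 17 = 0 := by
    unfold al
    rw [ps_odd (by norm_num), sgp17]
    rfl
  refine ⟨fun q hq => ?_, h2, fun p hp => ?_, ?_, ha17, fun h17 q hq hq17 => ?_,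
    fun h17 q hq hq17 => ?_⟩
  · have h1 : ∑ p ∈ (PR n).erase q, (ww n p * aa n p q + ww n q * aa n q p) =
        ∑ p ∈ (PR n).erase q, al n p * al n q :=
      sum_congr rfl fun p hp => pair hs (mem_of_mem_erase hp) hq (ne_of_mem_erase hp)
    rw [h1, ← sum_mul]
    rw [← add_sum_erase _ _ hq] at h2
    rcases z2 (al n q) with h | h
    · rw [h, mul_zero]
    · rw [h] at h2 ⊢
      have h3 := zadd (1 : ZMod 2)
      linear_combination h2 - h3
  · unfold ww nn
    split_ifs with h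
    · rw [h.1, ra17_2, mul_zero]
    · rw [one_mul]
  · unfold ww
    rw [if_neg (by rintro ⟨h, -⟩; norm_num at h)]
  · unfold aa nn
    rw [sym hs hq (by norm_num) (by norm_num) hq17 n, ha17, sgp17]
    unfold ww
    split_ifs with h
    · rw [h.1, ra17_2]
      ring
    · ring
  · unfold aa nn
    rw [ps_odd (by norm_num), sgp17]

section

variable {n : ℤ} (hs : Squarefree n) {l : ℕ} (hl : l.Prime) (h4 : l % 4 = 3) (hln : ¬ (l : ℤ) ∣ n)

include hl h4 in
lemma sgl : sgp l = -(l : ℤ) := by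
  unfold sgp
  rw [if_neg (by omega)]

include hs hl hln in
lemma sqf_l : Squarefree (-(l : ℤ) * n) := by
  rw [neg_mul, ← Int.squarefree_natAbs, Int.natAbs_neg, Int.natAbs_mul, Int.natAbs_natCast,
    Nat.squarefree_mul ((hl.coprime_iff_not_dvd).2 fun h => hln (Int.natCast_dvd.2 h))]
  exact ⟨hl.squarefree, Int.squarefree_natAbs.2 hs⟩

include hs hl h4 hln in
theorem PR_l : PR (-(l : ℤ) * n) = insert l (PR n) := by
  have hm0 : (-(l : ℤ) * n) ≠ 0 := (sqf_l hs hl hln).ne_zero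
  have hmod : (-(l : ℤ) * n) % 4 = n % 4 := by
    have h1 : (-(l : ℤ)) % 4 = 1 := by omega
    rw [Int.mul_emod, h1, one_mul, Int.emod_emod_of_dvd _ (dvd_refl 4)]
  ext p
  rw [mem_insert, mem_PR hm0, mem_PR hs.ne_zero]
  unfold Ram
  rw [hmod]
  constructor
  · rintro ⟨h1, h2 | h2⟩
    · rw [neg_mul, dvd_neg] at h2
      rcases (Nat.prime_iff_prime_int.1 h1).dvd_or_dvd h2 with h3 | h3
      · left
        exact (Nat.prime_dvd_prime_iff_eq h1 hl).1 (by exact_mod_cast h3)
      · exact Or.inr ⟨h1, Or.inl h3⟩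
    · exact Or.inr ⟨h1, Or.inr h2⟩
  · rintro (rfl | ⟨h1, h2 | h2⟩)
    · exact ⟨hl, Or.inl (by rw [neg_mul, dvd_neg]; exact dvd_mul_right _ _)⟩
    · exact ⟨h1, Or.inl (h2.mul_left _)⟩
    · exact ⟨h1, Or.inr h2⟩

include hs h4 hln in
lemma l_notMem : l ∉ PR n := fun h => by
  rcases ((mem_PR hs.ne_zero).1 h).2 with h1 | h1
  · exact hln h1
  · omega

include hs hl h4 hln in
theorem d2_l : d2 (-(l : ℤ) * n) = d2 n := by
  have hl2 : l ≠ 2 := by omega
  have h1 : oe (-(l : ℤ) * n) = -(l : ℤ) * oe n := by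
    unfold oe
    have e1 : (-(l : ℤ) * n).natAbs = l * n.natAbs := by
      rw [Int.natAbs_mul, Int.natAbs_neg, Int.natAbs_natCast]
    have e2 : (l * n.natAbs).primeFactors = insert l n.natAbs.primeFactors := by
      rw [Nat.primeFactors_mul hl.ne_zero (Int.natAbs_ne_zero.2 hs.ne_zero), hl.primeFactors]
      rfl
    have e3 : l ∉ n.natAbs.primeFactors.erase 2 := fun h =>
      hln (Int.natCast_dvd.2 (Nat.mem_primeFactors.1 (mem_of_mem_erase h)).2.1)
    rw [e1, e2, erase_insert_of_ne hl2, prod_insert e3, sgl hl h4]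
  have h2 := (d2_spec hs).1
  have h0 : oe (-(l : ℤ) * n) ≠ 0 := by
    have := oe_mod (-(l : ℤ) * n)
    intro h
    rw [h] at this
    norm_num at this
  have h3 : -(l : ℤ) * n = d2 n * oe (-(l : ℤ) * n) := by
    rw [h1]
    nth_rw 1 [h2]
    ring
  have h4 : d2 (-(l : ℤ) * n) = (-(l : ℤ) * n) / oe (-(l : ℤ) * n) := rfl
  rw [h4]
  nth_rw 1 [h3]
  exact Int.mul_ediv_cancel _ h0

include hs hl h4 hln in
theorem ps_l (q : ℕ) : ps (-(l : ℤ) * n) q = ps n q := by
  unfold ps
  rw [d2_l hs hl h4 hln]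

include hs hl h4 hln in
/-- **the criterion for the twist with one more prime** -/
theorem sg_of (hnu : ra l 17 = 1) {c : ℕ → ZMod 2} (hc : ∀ p ∈ PR n, ra p (-(l : ℤ)) = c p)
    (hN : NSys (PR n) (aa n) nn (al n) (ww n) c) : Sg (-(l : ℤ) * n) := by
  classical
  have hl2 : l ≠ 2 := by omega
  have hlP := l_notMem hs h4 hln
  have hps := ps_l hs hl h4 hln
  have hal : ∀ q, al (-(l : ℤ) * n) q = al n q := fun q => by
    unfold al
    rw [hps]
  have hall : al n l = 1 := by
    unfold al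
    rw [ps_odd hl2, sgl hl h4]
    exact if_pos (by have := hl.pos; omega)
  have hsl : sgp l = -(l : ℤ) := sgl hl h4
  have hpl : ∀ p ∈ PR n, ra p (ps (-(l : ℤ) * n) l) = c p := fun p hp => by
    rw [hps, ps_odd hl2, hsl]
    exact hc p hp
  have hlq : ∀ q ∈ PR n, ra l (ps (-(l : ℤ) * n) q) = ww n q * c q + al n q := fun q hq => by
    rw [hps, sym hs hq hl hl2 (by rintro rfl; exact hlP hq) n, hsl, hc q hq, hall, mul_one]
  have hne : ∀ p ∈ PR n, p ≠ l := fun p hp => by rintro rfl; exact hlP hp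
  have L1 : ∀ p ∈ PR n, ∀ q ∈ PR n, Lm (-(l : ℤ) * n) p q = Lc (PR n) (aa n) c p q := by
    intro p hp q hq
    unfold Lm Lc
    rw [PR_l hs hl h4 hln]
    split_ifs with h
    · rw [erase_insert_of_ne (hne p hp).symm, sum_insert fun h => hlP (mem_of_mem_erase h),
        hpl p hp, add_comm]
      congr 1
      exact sum_congr rfl fun r _ => by rw [hps]; rfl
    · rw [hps]
      rfl
  have L2 : ∀ p ∈ PR n, Lm (-(l : ℤ) * n) p l = c p := fun p hp => by
    unfold Lm
    rw [if_neg (hne p hp), hpl p hp]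
  have L3 : ∀ q ∈ PR n, Lm (-(l : ℤ) * n) l q = ww n q * c q + al n q := fun q hq => by
    unfold Lm
    rw [if_neg (hne q hq).symm, hlq q hq]
  have L4 : Lm (-(l : ℤ) * n) l l = ∑ q ∈ PR n, (ww n q * c q + al n q) := by
    unfold Lm
    rw [if_pos rfl, PR_l hs hl h4 hln, erase_insert hlP]
    exact sum_congr rfl fun q hq => hlq q hq
  intro x y hx h1 h2
  rw [PR_l hs hl h4 hln] at h1 h2 ⊢
  have hl17 : l ≠ 17 := by omega
  have H := hN x y (x l) (y l) hx (fun p hp hp17 => by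
    have h3 := h1 p (mem_insert_of_mem hp) hp17
    rw [sum_insert hlP, L2 p hp] at h3
    have e : ∑ q ∈ PR n, Lm (-(l : ℤ) * n) p q * y q =
        ∑ q ∈ PR n, Lc (PR n) (aa n) c p q * y q := sum_congr rfl fun q hq => by
      rw [L1 p hp q hq]
    rw [e] at h3
    have e2 : nn p = ra p 17 := rfl
    rw [e2]
    linear_combination h3) (by
    have h3 := h1 l (mem_insert_self _ _) hl17
    rw [sum_insert hlP, L4, hnu] at h3
    have e : ∑ q ∈ PR n, Lm (-(l : ℤ) * n) l q * y q =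
        ∑ q ∈ PR n, (ww n q * c q + al n q) * y q := sum_congr rfl fun q hq => by
      rw [L3 q hq]
    rw [e] at h3
    linear_combination h3) (fun q hq => by
    have h3 := h2 q (mem_insert_of_mem hq)
    rw [sum_insert hlP, L3 q hq, hal] at h3
    have e : ∑ p ∈ PR n, Lm (-(l : ℤ) * n) p q * x p =
        ∑ p ∈ PR n, Lc (PR n) (aa n) c p q * x p := sum_congr rfl fun p hp => by
      rw [L1 p hp q hq]
    rw [e] at h3
    linear_combination h3) (by
    have h3 := h2 l (mem_insert_self _ _)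
    rw [sum_insert hlP, L4, hal, hall] at h3
    have e : ∑ p ∈ PR n, Lm (-(l : ℤ) * n) p l * x p = ∑ p ∈ PR n, c p * x p :=
      sum_congr rfl fun p hp => by rw [L2 p hp]
    rw [e] at h3
    linear_combination h3)
  intro p hp
  rcases mem_insert.1 hp with rfl | hp
  · exact ⟨H.2.1, H.2.2⟩
  · exact H.1 p hp

end

end Pool.Agent.N809.SN
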