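import Pool.Agent.N809.SN.Tog

/-!
# The linear system of a twist with one more prime
-/

set_option autoImplicit false

open Finset

namespace Pool.Agent.N809.SN

/-- the vectors -/
abbrev V := (ℕ → ZMod 2) × (ℕ → ZMod 2) × ZMod 2 × ZMod 2

/-- the data of the primes of `P` -/
structure Dat (P : Finset ℕ) (a : ℕ → ℕ → ZMod 2) (nu al w : ℕ → ZMod 2) : Prop where
  h1 : ∀ q ∈ P, ∑ p ∈ P.erase q, (w p * a p q + w q * a q p) = al q
  h2 : ∑ q ∈ P, al q = 0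
  h3 : ∀ p ∈ P, w p * nu p = nu p
  w17 : w 17 = 1
  a17 : al 17 = 0
  r17 : 17 ∈ P → ∀ q ∈ P, q ≠ 17 → a 17 q = nu q
  c17 : 17 ∈ P → ∀ q ∈ P, q ≠ 17 → a q 17 = nu q

section

variable (P : Finset ℕ) (a : ℕ → ℕ → ZMod 2) (nu al w : ℕ → ZMod 2)

/-- the form without the couplings -/
def B0 (z z' : V) : ZMod 2 :=
  ∑ p ∈ P, nu p * (z.1 p * z'.1 p) + z.2.2.1 * z'.2.2.1 + ∑ q ∈ P, al q * (z.2.1 q * z'.2.1 q) +
    z.2.2.2 * z'.2.2.2 +
    ∑ p ∈ P, ∑ q ∈ P.erase p, a p q * (z'.1 p * (z.2.1 q + z.2.1 p) + z.1 p * (z'.2.1 q + z'.2.1 p)) +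
    ∑ q ∈ P, al q * (z'.2.2.1 * (z.2.1 q + z.2.2.2) + z.2.2.1 * (z'.2.1 q + z'.2.2.2))

/-- the functionals -/
def XX (p : ℕ) (z : V) : ZMod 2 := z.1 p + w p * z.2.2.1

/-- the functionals -/
def YY (p : ℕ) (z : V) : ZMod 2 := z.2.1 p + z.2.2.2

/-- the matrix on `P` -/
def Lc (c : ℕ → ZMod 2) (p q : ℕ) : ZMod 2 :=
  if p = q then ∑ r ∈ P.erase p, a p r + c p else a p q

/-- the system is nonsingular -/
def NSys (c : ℕ → ZMod 2) : Prop := ∀ x y : ℕ → ZMod 2, ∀ u v : ZMod 2, x 17 = 0 →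
  (∀ p ∈ P, p ≠ 17 → nu p * x p + (∑ q ∈ P, Lc P a c p q * y q + c p * v) = 0) →
  (u + (∑ q ∈ P, (w q * c q + al q) * y q + (∑ q ∈ P, (w q * c q + al q)) * v) = 0) →
  (∀ q ∈ P, (∑ p ∈ P, Lc P a c p q * x p + (w q * c q + al q) * u) + al q * y q = 0) →
  ((∑ p ∈ P, c p * x p + (∑ q ∈ P, (w q * c q + al q)) * u) + v = 0) →
  (∀ p ∈ P, x p = 0 ∧ y p = 0) ∧ u = 0 ∧ v = 0

end

section

variable {P : Finset ℕ} {a : ℕ → ℕ → ZMod 2} {nu al w : ℕ → ZMod 2}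

theorem B0_symm (z z' : V) : B0 P a nu al z z' = B0 P a nu al z' z := by
  unfold B0
  have e1 : ∑ p ∈ P, nu p * (z.1 p * z'.1 p) = ∑ p ∈ P, nu p * (z'.1 p * z.1 p) :=
    sum_congr rfl fun p _ => by ring
  have e2 : ∑ q ∈ P, al q * (z.2.1 q * z'.2.1 q) = ∑ q ∈ P, al q * (z'.2.1 q * z.2.1 q) :=
    sum_congr rfl fun p _ => by ring
  have e3 : ∑ p ∈ P, ∑ q ∈ P.erase p, a p q * (z'.1 p * (z.2.1 q + z.2.1 p) +
      z.1 p * (z'.2.1 q + z'.2.1 p)) = ∑ p ∈ P, ∑ q ∈ P.erase p, a p q *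
      (z.1 p * (z'.2.1 q + z'.2.1 p) + z'.1 p * (z.2.1 q + z.2.1 p)) :=
    sum_congr rfl fun p _ => sum_congr rfl fun q _ => by ring
  have e4 : ∑ q ∈ P, al q * (z'.2.2.1 * (z.2.1 q + z.2.2.2) + z.2.2.1 * (z'.2.1 q + z'.2.2.2)) =
      ∑ q ∈ P, al q * (z.2.2.1 * (z'.2.1 q + z'.2.2.2) + z'.2.2.1 * (z.2.1 q + z.2.2.2)) :=
    sum_congr rfl fun p _ => by ring
  rw [e1, e2, e3, e4]
  ring

theorem B0_add (z₁ z₂ z' : V) :
    B0 P a nu al (z₁ + z₂) z' = B0 P a nu al z₁ z' + B0 P a nu al z₂ z' := by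
  unfold B0
  have e1 : ∑ p ∈ P, nu p * ((z₁ + z₂).1 p * z'.1 p) = ∑ p ∈ P, nu p * (z₁.1 p * z'.1 p) +
      ∑ p ∈ P, nu p * (z₂.1 p * z'.1 p) := by
    rw [← sum_add_distrib]
    exact sum_congr rfl fun p _ => by
      have : (z₁ + z₂).1 p = z₁.1 p + z₂.1 p := rfl
      rw [this]; ring
  have e2 : ∑ q ∈ P, al q * ((z₁ + z₂).2.1 q * z'.2.1 q) = ∑ q ∈ P, al q * (z₁.2.1 q * z'.2.1 q) +
      ∑ q ∈ P, al q * (z₂.2.1 q * z'.2.1 q) := by
    rw [← sum_add_distrib]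
    exact sum_congr rfl fun p _ => by
      have : (z₁ + z₂).2.1 p = z₁.2.1 p + z₂.2.1 p := rfl
      rw [this]; ring
  have e3 : ∑ p ∈ P, ∑ q ∈ P.erase p, a p q * (z'.1 p * ((z₁ + z₂).2.1 q + (z₁ + z₂).2.1 p) +
      (z₁ + z₂).1 p * (z'.2.1 q + z'.2.1 p)) = ∑ p ∈ P, ∑ q ∈ P.erase p, a p q *
      (z'.1 p * (z₁.2.1 q + z₁.2.1 p) + z₁.1 p * (z'.2.1 q + z'.2.1 p)) +
      ∑ p ∈ P, ∑ q ∈ P.erase p, a p q *
      (z'.1 p * (z₂.2.1 q + z₂.2.1 p) + z₂.1 p * (z'.2.1 q + z'.2.1 p)) := by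
    rw [← sum_add_distrib]
    refine sum_congr rfl fun p _ => ?_
    rw [← sum_add_distrib]
    exact sum_congr rfl fun q _ => by
      have h1 : (z₁ + z₂).2.1 p = z₁.2.1 p + z₂.2.1 p := rfl
      have h2 : (z₁ + z₂).2.1 q = z₁.2.1 q + z₂.2.1 q := rfl
      have h3 : (z₁ + z₂).1 p = z₁.1 p + z₂.1 p := rfl
      rw [h1, h2, h3]; ring
  have e4 : ∑ q ∈ P, al q * (z'.2.2.1 * ((z₁ + z₂).2.1 q + (z₁ + z₂).2.2.2) +
      (z₁ + z₂).2.2.1 * (z'.2.1 q + z'.2.2.2)) =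
      ∑ q ∈ P, al q * (z'.2.2.1 * (z₁.2.1 q + z₁.2.2.2) + z₁.2.2.1 * (z'.2.1 q + z'.2.2.2)) +
      ∑ q ∈ P, al q * (z'.2.2.1 * (z₂.2.1 q + z₂.2.2.2) + z₂.2.2.1 * (z'.2.1 q + z'.2.2.2)) := by
    rw [← sum_add_distrib]
    exact sum_congr rfl fun q _ => by
      have h2 : (z₁ + z₂).2.1 q = z₁.2.1 q + z₂.2.1 q := rfl
      have h3 : (z₁ + z₂).2.2.1 = z₁.2.2.1 + z₂.2.2.1 := rfl
      have h4 : (z₁ + z₂).2.2.2 = z₁.2.2.2 + z₂.2.2.2 := rfl
      rw [h2, h3, h4]; ring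
  have h3 : (z₁ + z₂).2.2.1 = z₁.2.2.1 + z₂.2.2.1 := rfl
  have h4 : (z₁ + z₂).2.2.2 = z₁.2.2.2 + z₂.2.2.2 := rfl
  rw [e1, e2, e3, e4, h3, h4]
  ring

theorem XX_add (p : ℕ) (z z' : V) : XX w p (z + z') = XX w p z + XX w p z' := by
  have h1 : (z + z').1 p = z.1 p + z'.1 p := rfl
  have h3 : (z + z').2.2.1 = z.2.2.1 + z'.2.2.1 := rfl
  unfold XX
  rw [h1, h3]
  ring

theorem YY_add (p : ℕ) (z z' : V) : YY p (z + z') = YY p z + YY p z' := by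
  have h1 : (z + z').2.1 p = z.2.1 p + z'.2.1 p := rfl
  have h3 : (z + z').2.2.2 = z.2.2.2 + z'.2.2.2 := rfl
  unfold YY
  rw [h1, h3]
  ring

/-- the swap of the double sum -/
theorem swap (F : ℕ → ℕ → ZMod 2) : ∑ p ∈ P, ∑ q ∈ P.erase p, F p q =
    ∑ q ∈ P, ∑ p ∈ P.erase q, F p q :=
  sum_comm' fun p q => by
    rw [mem_erase, mem_erase]
    constructor
    · rintro ⟨h1, h2, h3⟩
      exact ⟨⟨h2.symm, h1⟩, h3⟩
    · rintro ⟨⟨h1, h2⟩, h3⟩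
      exact ⟨h2, h1.symm, h3⟩

theorem Lc_row (c : ℕ → ZMod 2) {p : ℕ} (hp : p ∈ P) (y : ℕ → ZMod 2) :
    ∑ q ∈ P, Lc P a c p q * y q = ∑ q ∈ P.erase p, a p q * (y q + y p) + c p * y p := by
  rw [← add_sum_erase _ _ hp]
  have h1 : ∑ q ∈ P.erase p, Lc P a c p q * y q = ∑ q ∈ P.erase p, a p q * y q :=
    sum_congr rfl fun q hq => by
      unfold Lc
      rw [if_neg (ne_of_mem_erase hq).symm]
  have h2 : ∑ q ∈ P.erase p, a p q * (y q + y p) = ∑ q ∈ P.erase p, a p q * y q +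
      (∑ q ∈ P.erase p, a p q) * y p := by
    rw [sum_mul, ← sum_add_distrib]
    exact sum_congr rfl fun q _ => by ring
  have h3 : Lc P a c p p = ∑ r ∈ P.erase p, a p r + c p := if_pos rfl
  rw [h1, h2, h3]
  ring

theorem Lc_col (c : ℕ → ZMod 2) {q : ℕ} (hq : q ∈ P) (x : ℕ → ZMod 2) :
    ∑ p ∈ P, Lc P a c p q * x p = ∑ p ∈ P.erase q, (a p q * x p + a q p * x q) + c q * x q := by
  rw [← add_sum_erase _ _ hq]
  have h1 : ∑ p ∈ P.erase q, Lc P a c p q * x p = ∑ p ∈ P.erase q, a p q * x p :=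
    sum_congr rfl fun p hp => by
      unfold Lc
      rw [if_neg (ne_of_mem_erase hp)]
  have h2 : ∑ p ∈ P.erase q, (a p q * x p + a q p * x q) = ∑ p ∈ P.erase q, a p q * x p +
      (∑ p ∈ P.erase q, a q p) * x q := by
    rw [sum_mul, ← sum_add_distrib]
  have h3 : Lc P a c q q = ∑ r ∈ P.erase q, a q r + c q := if_pos rfl
  rw [h1, h2, h3]
  ring

/-- the rows give the form -/
theorem rows {c : ℕ → ZMod 2} {x y : ℕ → ZMod 2} {u v : ZMod 2}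
    (r1 : ∀ p ∈ P, p ≠ 17 → nu p * x p + (∑ q ∈ P, Lc P a c p q * y q + c p * v) = 0)
    (r2 : u + (∑ q ∈ P, (w q * c q + al q) * y q + (∑ q ∈ P, (w q * c q + al q)) * v) = 0)
    (r3 : ∀ q ∈ P, (∑ p ∈ P, Lc P a c p q * x p + (w q * c q + al q) * u) + al q * y q = 0)
    (r4 : (∑ p ∈ P, c p * x p + (∑ q ∈ P, (w q * c q + al q)) * u) + v = 0)
    (z' : V) (hz' : z'.1 17 = 0) :
    B0 P a nu al (x, y, u, v) z' + ∑ p ∈ P, c p * (XX w p (x, y, u, v) * YY p z' +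
      XX w p z' * YY p (x, y, u, v)) = 0 := by
  obtain ⟨x', y', u', v'⟩ := z'
  dsimp only at hz'
  have s1 : ∑ p ∈ P, x' p * (nu p * x p + (∑ q ∈ P, Lc P a c p q * y q + c p * v)) = 0 :=
    sum_eq_zero fun p hp => by
      by_cases h : p = 17
      · rw [h, hz', zero_mul]
      · rw [r1 p hp h, mul_zero]
  have s3 : ∑ q ∈ P, y' q * ((∑ p ∈ P, Lc P a c p q * x p + (w q * c q + al q) * u) +
      al q * y q) = 0 := sum_eq_zero fun q hq => by rw [r3 q hq, mul_zero]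
  have t1 : ∑ p ∈ P, x' p * (nu p * x p + (∑ q ∈ P, Lc P a c p q * y q + c p * v)) =
      ∑ p ∈ P, nu p * (x p * x' p) + ∑ p ∈ P, ∑ q ∈ P.erase p, a p q * (x' p * (y q + y p)) +
      ∑ p ∈ P, c p * (x' p * (y p + v)) := by
    rw [← sum_add_distrib, ← sum_add_distrib]
    refine sum_congr rfl fun p hp => ?_
    rw [Lc_row c hp]
    have : ∑ q ∈ P.erase p, a p q * (x' p * (y q + y p)) =
        x' p * ∑ q ∈ P.erase p, a p q * (y q + y p) := by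
      rw [mul_sum]
      exact sum_congr rfl fun q _ => by ring
    rw [this]
    ring
  have t3 : ∑ q ∈ P, y' q * ((∑ p ∈ P, Lc P a c p q * x p + (w q * c q + al q) * u) +
      al q * y q) = ∑ p ∈ P, ∑ q ∈ P.erase p, a p q * (x p * (y' q + y' p)) +
      ∑ q ∈ P, c q * (x q * y' q) + ∑ q ∈ P, (w q * c q + al q) * (u * y' q) +
      ∑ q ∈ P, al q * (y q * y' q) := by
    have e1 : ∑ p ∈ P, ∑ q ∈ P.erase p, a p q * (x p * (y' q + y' p)) =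
        ∑ q ∈ P, ∑ p ∈ P.erase q, (a p q * x p + a q p * x q) * y' q := by
      have e2 : ∑ p ∈ P, ∑ q ∈ P.erase p, a p q * (x p * (y' q + y' p)) =
          ∑ p ∈ P, ∑ q ∈ P.erase p, a p q * x p * y' q +
          ∑ p ∈ P, ∑ q ∈ P.erase p, a p q * x p * y' p := by
        rw [← sum_add_distrib]
        refine sum_congr rfl fun p _ => ?_
        rw [← sum_add_distrib]
        exact sum_congr rfl fun q _ => by ring
      rw [e2, swap fun p q => a p q * x p * y' q, ← sum_add_distrib]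
      refine sum_congr rfl fun p _ => ?_
      rw [← sum_add_distrib]
      exact sum_congr rfl fun q _ => by ring
    rw [e1, ← sum_add_distrib, ← sum_add_distrib, ← sum_add_distrib]
    refine sum_congr rfl fun q hq => ?_
    rw [Lc_col c hq, ← sum_mul]
    ring
  rw [t1] at s1
  rw [t3] at s3
  unfold B0 XX YY
  dsimp only
  have k1 : ∑ p ∈ P, ∑ q ∈ P.erase p, a p q * (x' p * (y q + y p) + x p * (y' q + y' p)) =
      ∑ p ∈ P, ∑ q ∈ P.erase p, a p q * (x' p * (y q + y p)) +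
      ∑ p ∈ P, ∑ q ∈ P.erase p, a p q * (x p * (y' q + y' p)) := by
    rw [← sum_add_distrib]
    refine sum_congr rfl fun p _ => ?_
    rw [← sum_add_distrib]
    exact sum_congr rfl fun q _ => by ring
  have k2 : ∑ p ∈ P, c p * ((x p + w p * u) * (y' p + v') + (x' p + w p * u') * (y p + v)) =
      ∑ p ∈ P, c p * (x p * y' p) + (∑ p ∈ P, c p * x p) * v' + u * ∑ p ∈ P, w p * c p * y' p +
      (∑ p ∈ P, w p * c p) * (u * v') + ∑ p ∈ P, c p * (x' p * (y p + v)) +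
      u' * ∑ p ∈ P, w p * c p * y p + (∑ p ∈ P, w p * c p) * (u' * v) := by
    rw [sum_mul, sum_mul, sum_mul, mul_sum, mul_sum]
    rw [← sum_add_distrib, ← sum_add_distrib, ← sum_add_distrib, ← sum_add_distrib,
      ← sum_add_distrib, ← sum_add_distrib]
    exact sum_congr rfl fun q _ => by ring
  have k3 : ∑ q ∈ P, al q * (u' * (y q + v) + u * (y' q + v')) = u' * ∑ q ∈ P, al q * y q +
      (∑ q ∈ P, al q) * (u' * v) + u * ∑ q ∈ P, al q * y' q + (∑ q ∈ P, al q) * (u * v') := by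
    rw [sum_mul, sum_mul, mul_sum, mul_sum, ← sum_add_distrib, ← sum_add_distrib,
      ← sum_add_distrib]
    exact sum_congr rfl fun q _ => by ring
  have k4 : ∑ q ∈ P, (w q * c q + al q) = ∑ q ∈ P, w q * c q + ∑ q ∈ P, al q :=
    sum_add_distrib
  have k5 : ∑ q ∈ P, (w q * c q + al q) * (u * y' q) = u * ∑ p ∈ P, w p * c p * y' p +
      u * ∑ q ∈ P, al q * y' q := by
    rw [mul_sum, mul_sum, ← sum_add_distrib]
    exact sum_congr rfl fun q _ => by ring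
  have k6 : ∑ q ∈ P, (w q * c q + al q) * y q = ∑ p ∈ P, w p * c p * y p +
      ∑ q ∈ P, al q * y q := by
    rw [← sum_add_distrib]
    exact sum_congr rfl fun q _ => by ring
  rw [k4, k6] at r2
  rw [k4] at r4
  rw [k5] at s3
  rw [k1, k2, k3]
  linear_combination s1 + s3 + u' * r2 + v' * r4

end

end Pool.Agent.N809.SN
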