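import Mathlib

/-!
# Making a symmetric form over `F_2` nondegenerate by hyperbolic couplings
-/

set_option autoImplicit false

open Finset

namespace Pool.Agent.N809.SN

lemma zz : ∀ a b c d : ZMod 2, ¬ (a = 0 ∧ b = 0) → ¬ (c = 0 ∧ d = 0) → a * d + c * b = 0 →
    a = c ∧ b = d := by decide

lemma z2 (a : ZMod 2) : a = 0 ∨ a = 1 := by
  revert a
  decide

lemma zadd (a : ZMod 2) : a + a = 0 := by
  revert a
  decide

/-- The form `B` is nondegenerate on the common kernel of the functionals `X p`, `Y p`; then it can be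
changed by the couplings `X p · Y p` so that it is nondegenerate. -/
theorem toggle {V : Type} [AddCommGroup V] (U : V → Prop) (hU : ∀ a b, U a → U b → U (a + b))
    (B : V → V → ZMod 2) (hs : ∀ a b, B a b = B b a) (hl : ∀ a b c, B (a + b) c = B a c + B b c)
    (S : Finset ℕ) (X Y : ℕ → V → ZMod 2) (hX : ∀ p a b, X p (a + b) = X p a + X p b)
    (hY : ∀ p a b, Y p (a + b) = Y p a + Y p b) (e f : ℕ → V)
    (he : ∀ p ∈ S, U (e p) ∧ X p (e p) = 1 ∧ Y p (e p) = 0 ∧
      ∀ q ∈ S, q ≠ p → X q (e p) = 0 ∧ Y q (e p) = 0)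
    (hf : ∀ p ∈ S, U (f p) ∧ X p (f p) = 0 ∧ Y p (f p) = 1 ∧
      ∀ q ∈ S, q ≠ p → X q (f p) = 0 ∧ Y q (f p) = 0)
    (Z : V → Prop) (hZ : ∀ z, Z z → (∀ z', B z z' = 0) ∧ ∀ p ∈ S, X p z = 0 ∧ Y p z = 0)
    (h0 : ∀ z, U z → (∀ p ∈ S, X p z = 0 ∧ Y p z = 0) →
      (∀ z', U z' → (∀ p ∈ S, X p z' = 0 ∧ Y p z' = 0) → B z z' = 0) → Z z) :
    ∃ c : ℕ → ZMod 2, ∀ z, U z →
      (∀ z', U z' → B z z' + ∑ p ∈ S, c p * (X p z * Y p z' + X p z' * Y p z) = 0) → Z z := by
  classical
  have key : ∀ S' : Finset ℕ, S' ⊆ S → ∃ c : ℕ → ZMod 2, ∀ z, U z →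
      (∀ p ∈ S, p ∉ S' → X p z = 0 ∧ Y p z = 0) →
      (∀ z', U z' → (∀ p ∈ S, p ∉ S' → X p z' = 0 ∧ Y p z' = 0) →
        B z z' + ∑ p ∈ S', c p * (X p z * Y p z' + X p z' * Y p z) = 0) → Z z := by
    intro S'
    induction S' using Finset.induction_on with
    | empty =>
      intro _
      refine ⟨fun _ => 0, fun z hz h1 h2 => h0 z hz (fun p hp => h1 p hp (notMem_empty p))
        fun z' hz' h3 => ?_⟩
      have h4 := h2 z' hz' fun p hp _ => h3 p hp
      rwa [sum_empty, add_zero] at h4
    | insert p S' hp ih =>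
      intro hS
      obtain ⟨c, hc⟩ := ih fun x hx => hS (mem_insert_of_mem hx)
      have hpS : p ∈ S := hS (mem_insert_self _ _)
      set F : V → V → ZMod 2 := fun z z' =>
        B z z' + ∑ q ∈ S', c q * (X q z * Y q z' + X q z' * Y q z) with hF
      have Fs : ∀ a b, F a b = F b a := by
        intro a b
        simp only [hF]
        rw [hs a b]
        congr 1
        exact sum_congr rfl fun q _ => by ring
      have Fl : ∀ a b d, F (a + b) d = F a d + F b d := by
        intro a b d
        simp only [hF]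
        rw [hl]
        have : ∑ q ∈ S', c q * (X q (a + b) * Y q d + X q d * Y q (a + b)) =
            ∑ q ∈ S', c q * (X q a * Y q d + X q d * Y q a) +
            ∑ q ∈ S', c q * (X q b * Y q d + X q d * Y q b) := by
          rw [← sum_add_distrib]
          exact sum_congr rfl fun q _ => by rw [hX, hY]; ring
        rw [this]
        ring
      have hup : ∀ t : ZMod 2, ∀ z z', B z z' + ∑ q ∈ insert p S', Function.update c p t q *
          (X q z * Y q z' + X q z' * Y q z) = F z z' + t * (X p z * Y p z' + X p z' * Y p z) := by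
        intro t z z'
        rw [sum_insert hp, Function.update_self]
        have : ∑ q ∈ S', Function.update c p t q * (X q z * Y q z' + X q z' * Y q z) =
            ∑ q ∈ S', c q * (X q z * Y q z' + X q z' * Y q z) := sum_congr rfl fun q hq => by
          rw [Function.update_of_ne (by rintro rfl; exact hp hq)]
        rw [this]
        simp only [hF]
        ring
      by_contra hcon
      push Not at hcon
      have bad : ∀ t : ZMod 2, ∃ z, U z ∧ (∀ q ∈ S, q ∉ insert p S' → X q z = 0 ∧ Y q z = 0) ∧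
          (∀ z', U z' → (∀ q ∈ S, q ∉ insert p S' → X q z' = 0 ∧ Y q z' = 0) →
            F z z' + t * (X p z * Y p z' + X p z' * Y p z) = 0) ∧ ¬ Z z := by
        intro t
        obtain ⟨z, h1, h2, h3, h4⟩ := hcon (Function.update c p t)
        exact ⟨z, h1, h2, fun z' a1 a2 => by rw [← hup]; exact h3 z' a1 a2, h4⟩
      have small : ∀ z, U z → (∀ q ∈ S, q ∉ insert p S' → X q z = 0 ∧ Y q z = 0) →
          X p z = 0 → Y p z = 0 → (∀ z', U z' →
            (∀ q ∈ S, q ∉ insert p S' → X q z' = 0 ∧ Y q z' = 0) → X p z' = 0 → Y p z' = 0 →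
            F z z' = 0) → Z z := by
        intro z h1 h2 h3 h4 h5
        refine hc z h1 (fun q hq hq' => ?_) fun z' a1 a2 => h5 z' a1 (fun q hq hq' => a2 q hq
          fun h => hq' (mem_insert_of_mem h)) (a2 p hpS hp).1 (a2 p hpS hp).2
        by_cases hqp : q = p
        · subst hqp
          exact ⟨h3, h4⟩
        · exact h2 q hq fun h => (mem_insert.1 h).elim hqp hq'
      obtain ⟨z0, a1, a2, a3, a4⟩ := bad 0
      obtain ⟨z1, b1, b2, b3, b4⟩ := bad 1
      have n0 : ¬ (X p z0 = 0 ∧ Y p z0 = 0) := fun h => a4 (small z0 a1 a2 h.1 h.2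
        fun z' d1 d2 _ _ => by
          have := a3 z' d1 d2
          rwa [zero_mul, add_zero] at this)
      have n1 : ¬ (X p z1 = 0 ∧ Y p z1 = 0) := fun h => b4 (small z1 b1 b2 h.1 h.2
        fun z' d1 d2 d3 d4 => by
          have := b3 z' d1 d2
          rwa [d3, d4, mul_zero, zero_mul, add_zero, mul_zero, add_zero] at this)
      have h01 : F z1 z0 = 0 := by
        rw [Fs]
        have := a3 z1 b1 b2
        rwa [zero_mul, add_zero] at this
      have hpar : X p z1 * Y p z0 + X p z0 * Y p z1 = 0 := by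
        have := b3 z0 a1 a2
        rwa [h01, one_mul, zero_add] at this
      obtain ⟨e1, e2⟩ := zz _ _ _ _ n1 n0 hpar
      have hw : Z (z1 + z0) := by
        refine small _ (hU _ _ b1 a1) (fun q hq hq' => ?_) ?_ ?_ fun z' d1 d2 d3 d4 => ?_
        · rw [hX, hY, (a2 q hq hq').1, (a2 q hq hq').2, (b2 q hq hq').1, (b2 q hq hq').2, add_zero]
          exact ⟨rfl, rfl⟩
        · rw [hX, e1, zadd]
        · rw [hY, e2, zadd]
        · rw [Fl]
          have g1 := b3 z' d1 d2
          have g0 := a3 z' d1 d2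
          rw [d3, d4, mul_zero, zero_mul, add_zero, mul_zero, add_zero] at g1
          rw [zero_mul, add_zero] at g0
          rw [g1, g0, add_zero]
      have hw2 : ∀ z', F (z1 + z0) z' = 0 := by
        intro z'
        obtain ⟨k1, k2⟩ := hZ _ hw
        simp only [hF]
        rw [k1 z', zero_add]
        refine sum_eq_zero fun q hq => ?_
        have hqS : q ∈ S := hS (mem_insert_of_mem hq)
        rw [(k2 q hqS).1, (k2 q hqS).2]
        ring
      have fin : ∀ z', U z' → (∀ q ∈ S, q ∉ insert p S' → X q z' = 0 ∧ Y q z' = 0) →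
          X p z1 * Y p z' + X p z' * Y p z1 = 0 := by
        intro z' d1 d2
        have g1 := b3 z' d1 d2
        have g0 := a3 z' d1 d2
        have g2 := hw2 z'
        rw [Fl] at g2
        rw [zero_mul, add_zero] at g0
        rw [g0, add_zero] at g2
        rwa [g2, one_mul, zero_add] at g1
      apply n1
      obtain ⟨f1, f2, f3, f4⟩ := hf p hpS
      obtain ⟨k1, k2, k3, k4⟩ := he p hpS
      have q1 := fin (f p) f1 fun q hq hq' => f4 q hq fun h => hq' (h ▸ mem_insert_self _ _)
      have q2 := fin (e p) k1 fun q hq hq' => k4 q hq fun h => hq' (h ▸ mem_insert_self _ _)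
      rw [f2, f3, mul_one, zero_mul, add_zero] at q1
      rw [k2, k3, mul_zero, one_mul, zero_add] at q2
      exact ⟨q1, q2⟩
  obtain ⟨c, hc⟩ := key S subset_rfl
  exact ⟨c, fun z hz h => hc z hz (fun p hp hp' => absurd hp hp') fun z' hz' _ => h z' hz'⟩

end Pool.Agent.N809.SN
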